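import Pool.Agent.CPF.Basic

/-!
Module BfList for MP_b68fb8_co: lists of roots with `B(earlier, later) = 0`.
-/

namespace Pool.Agent.CPF

open scoped InnerProductSpace NNReal

section
variable {V : Type*} [NormedAddCommGroup V] [InnerProductSpace ℝ V] [FiniteDimensional ℝ V]

theorem BfList_self (hBf : Stmt_Bf V) {Φ : Set V} {L : List V} (h : RS Φ L) {a : V} (ha : a ∈ Φ) :
    2 * Bf L a a = ⟪a, a⟫_ℝ ∧ Bf L a a ≠ 0 := by
  have hs : a ∈ Submodule.span ℝ {y : V | y ∈ L} := h.mem_span ha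
  have h1 := (hBf L h.nd h.li a hs a hs).1
  have h2 : ⟪a, a⟫_ℝ ≠ 0 := inner_self_ne_zero.mpr (h.ne0 a ha)
  refine ⟨by linarith, ?_⟩
  intro h3
  apply h2
  rw [← h1, h3, add_zero]

theorem BfList_span (L : List V) (a : V) {S : Set V} (hS : ∀ b ∈ S, Bf L a b = 0) {v : V}
    (hv : v ∈ Submodule.span ℝ S) : Bf L a v = 0 := by
  have h1 : S ⊆ (LinearMap.ker (innerₛₗ ℝ (xv L a)) : Submodule ℝ V) := by
    intro b hb
    have := hS b hb
    simpa [Bf] using this
  have h2 := Submodule.span_le.mpr h1 hv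
  simpa [Bf] using h2

theorem cBfIndep (_hXv : Stmt_Xv V) (hBf : Stmt_Bf V) : Stmt_BfIndep V := by
  intro Φ L h l
  induction l with
  | nil =>
    intro _ _
    refine ⟨List.nodup_nil, ?_⟩
    have : {x : V | x ∈ ([] : List V)} = ∅ := by ext x; simp
    rw [this]
    exact linearIndepOn_empty ℝ id
  | cons a l ih =>
    intro hl hp
    rw [List.pairwise_cons] at hp
    obtain ⟨hnd, hli⟩ := ih (fun b hb => hl b (List.mem_cons_of_mem a hb)) hp.2
    have hns : a ∉ Submodule.span ℝ {x : V | x ∈ l} := by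
      intro hsp
      have h0 := BfList_span L a (S := {x : V | x ∈ l}) (fun b hb => hp.1 b hb) hsp
      exact (BfList_self hBf h (hl a List.mem_cons_self)).2 h0
    refine ⟨List.nodup_cons.mpr ⟨?_, hnd⟩, ?_⟩
    · intro ha
      exact hns (Submodule.subset_span ha)
    · rw [set_cons]
      exact hli.id_insert hns

theorem cBfProd (hXv : Stmt_Xv V) (hBf : Stmt_Bf V) : Stmt_BfProd V := by
  intro Φ L h l hl hp a ha
  obtain ⟨l1, l2, rfl⟩ := List.append_of_mem ha
  rw [List.pairwise_append, List.pairwise_cons] at hp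
  obtain ⟨_, ⟨hp2, _⟩, hp3⟩ := hp
  have haΦ : a ∈ Φ := hl a ha
  have hs : a ∈ Submodule.span ℝ {y : V | y ∈ L} := h.mem_span haΦ
  have hx := ((hXv L h.nd h.li).1 a hs).2
  set x : V := xv L a with hxdef
  have hcx : cox L x = x - a := by
    rw [← hx]; abel_nf
  -- the later vectors
  have e2 : cox l2 x = x := cox_of_orth (fun b hb => hp2 b hb)
  -- the vector itself
  have haa := BfList_self hBf h haΦ
  have haa' : 2 * ⟪x, a⟫_ℝ = ⟪a, a⟫_ℝ := haa.1
  have hne : ⟪a, a⟫_ℝ ≠ 0 := inner_self_ne_zero.mpr (h.ne0 a haΦ)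
  have e1 : refl a x = x - a := by
    rw [refl_apply, haa', div_self hne, one_smul]
  -- the earlier vectors
  have e0 : cox l1 (x - a) = x - a := by
    apply cox_of_orth
    intro b hb
    have hbΦ : b ∈ Φ := hl b (List.mem_append_left _ hb)
    have hbs : b ∈ Submodule.span ℝ {y : V | y ∈ L} := h.mem_span hbΦ
    have h1 := (hBf L h.nd h.li a hs b hbs).1
    have h2 : Bf L b a = 0 := hp3 b hb a List.mem_cons_self
    rw [h2, add_zero] at h1
    have h3 : ⟪x, b⟫_ℝ = ⟪a, b⟫_ℝ := h1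
    rw [inner_sub_left, h3, sub_self]
  rw [cox_append, cox_cons, mulE_apply, mulE_apply, e2, e1, e0, hcx]

end

end Pool.Agent.CPF
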