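import Pool.Agent.CPF.Basic

/-!
Module BfSimple: the form `B` and simple roots in the bipartite case, and the form for the
opposite Coxeter element.
-/

namespace Pool.Agent.CPF

open scoped InnerProductSpace NNReal

section
variable {V : Type*} [NormedAddCommGroup V] [InnerProductSpace ℝ V]

theorem bfSimple_comm {a b : V} (h : ⟪a, b⟫_ℝ = 0) : Commute (refl a) (refl b) := by
  have h1 : refl b a = a := refl_of_orth h
  have h2 := refl_conj (refl b) a
  rw [h1] at h2
  show refl a * refl b = refl b * refl a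
  conv_lhs => rw [h2]
  rw [mul_assoc, inv_mul_cancel, mul_one]

theorem bfSimple_comm_cox {a : V} {L : List V} (h : ∀ b ∈ L, ⟪a, b⟫_ℝ = 0) :
    Commute (refl a) (cox L) := by
  induction L with
  | nil => rw [cox_nil]; exact Commute.one_right _
  | cons b L ih =>
    rw [cox_cons]
    exact (bfSimple_comm (h b (List.mem_cons_self))).mul_right
      (ih fun c hc => h c (List.mem_cons_of_mem _ hc))

theorem bfSimple_invol {L : List V} (h : L.Pairwise (fun a b => ⟪a, b⟫_ℝ = 0)) :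
    cox L * cox L = 1 := by
  induction L with
  | nil => rw [cox_nil, one_mul]
  | cons a L ih =>
    rw [List.pairwise_cons] at h
    have hc : Commute (refl a) (cox L) := bfSimple_comm_cox h.1
    rw [cox_cons]
    calc refl a * cox L * (refl a * cox L) = refl a * (cox L * refl a) * cox L := by group
      _ = refl a * (refl a * cox L) * cox L := by rw [hc.eq]
      _ = (refl a * refl a) * (cox L * cox L) := by group
      _ = 1 := by rw [refl_mul_refl, ih h.2, mul_one]

theorem bfSimple_apply {L : List V} (hL : L.Pairwise (fun a b => ⟪a, b⟫_ℝ = 0)) {s y : V}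
    (hs : s ∈ L) (hnd : L.Nodup) (hs0 : ⟪s, s⟫_ℝ ≠ 0) (h1 : ⟪y, s⟫_ℝ = ⟪s, s⟫_ℝ / 2)
    (h2 : ∀ x ∈ L, x ≠ s → ⟪y, x⟫_ℝ = 0) : cox L y = y - s := by
  obtain ⟨L₁, L₂, rfl⟩ := List.append_of_mem hs
  have hnd' := List.nodup_append.mp hnd
  have hp := List.pairwise_append.mp hL
  have hs1 : ∀ x ∈ L₁, x ≠ s := fun x hx hxs =>
    hnd'.2.2 x hx s List.mem_cons_self hxs
  have hs2 : ∀ x ∈ L₂, x ≠ s := fun x hx hxs => by
    have := (List.nodup_cons.mp hnd'.2.1).1
    exact this (hxs ▸ hx)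
  rw [cox_append, cox_cons, mulE_apply, mulE_apply]
  have e2 : cox L₂ y = y := cox_of_orth fun x hx =>
    h2 x (by simp [hx]) (hs2 x hx)
  have e1 : refl s y = y - s := by
    rw [refl_apply, h1]
    have : 2 * (⟪s, s⟫_ℝ / 2) / ⟪s, s⟫_ℝ = 1 := by field_simp
    rw [this, one_smul]
  rw [e2, e1]
  refine cox_of_orth fun x hx => ?_
  rw [inner_sub_left, h2 x (by simp [hx]) (hs1 x hx)]
  have : ⟪x, s⟫_ℝ = 0 := hp.2.2 x hx s List.mem_cons_self
  rw [real_inner_comm, this, sub_zero]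

theorem bfSimple_inner_span {S : Set V} {y b : V} (h : ∀ x ∈ S, ⟪y, x⟫_ℝ = 0)
    (hb : b ∈ Submodule.span ℝ S) : ⟪y, b⟫_ℝ = 0 := by
  induction hb using Submodule.span_induction with
  | mem x hx => exact h x hx
  | zero => exact inner_zero_right _
  | add x z _ _ hx hz => rw [inner_add_right, hx, hz, add_zero]
  | smul r x _ hx => rw [inner_smul_right, hx, mul_zero]

end

theorem cBfSimple {V : Type*} [NormedAddCommGroup V] [InnerProductSpace ℝ V]
    [FiniteDimensional ℝ V] (hXv : Stmt_Xv V) (hBf : Stmt_Bf V) : Stmt_BfSimple V := by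
  classical
  intro Φ P Q h
  have hnd := h.rs.nd
  have hli := h.rs.li
  have hnd' := List.nodup_append.mp hnd
  obtain ⟨-, hxv, -, -⟩ := hXv (P ++ Q) hnd hli
  have key : ∀ s ∈ P ++ Q, ∃ y ∈ Submodule.span ℝ {x : V | x ∈ P ++ Q},
      ⟪y, s⟫_ℝ = ⟪s, s⟫_ℝ / 2 ∧ (∀ x ∈ P ++ Q, x ≠ s → ⟪y, x⟫_ℝ = 0) ∧ ⟪s, s⟫_ℝ ≠ 0 := by
    intro s hs
    obtain ⟨y, hy, hy'⟩ := h.rs.exists_inner (fun x => if x = s then ⟪s, s⟫_ℝ / 2 else 0)
    refine ⟨y, hy, ?_, fun x hx hxs => ?_, ?_⟩
    · rw [hy' s hs, if_pos rfl]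
    · rw [hy' x hx, if_neg hxs]
    · exact inner_self_ne_zero.mpr (h.rs.ne0 s (h.rs.sub s hs))
  refine ⟨fun s hs b hb => ?_, fun s hs b hb => ?_⟩
  · have hsL : s ∈ P ++ Q := List.mem_append_left _ hs
    obtain ⟨y, hy, hy1, hy2, hs0⟩ := key s hsL
    have hQ : cox Q y = y := cox_of_orth fun x hx =>
      hy2 x (List.mem_append_right _ hx) fun hxs => hnd'.2.2 s hs x hx hxs.symm
    have hP : cox P y = y - s := bfSimple_apply h.orthP hs hnd'.1 hs0 hy1
      fun x hx hxs => hy2 x (List.mem_append_left _ hx) hxs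
    have hc : y - cox (P ++ Q) y = s := by
      rw [cox_append, mulE_apply, hQ, hP, sub_sub_cancel]
    have hx := hxv y hy
    rw [hc] at hx
    rw [Bf, hx]
    exact bfSimple_inner_span (fun x hx => hy2 x hx.1 hx.2) hb
  · have hsL : s ∈ P ++ Q := List.mem_append_right _ hs
    obtain ⟨y, hy, hy1, hy2, hs0⟩ := key s hsL
    have hsP : ∀ x ∈ P, x ≠ s := fun x hx hxs => hnd'.2.2 x hx s hs hxs
    have hP : cox P y = y := cox_of_orth fun x hx =>
      hy2 x (List.mem_append_left _ hx) (hsP x hx)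
    have hQ : cox Q y = y - s := bfSimple_apply h.orthQ hs hnd'.2.1 hs0 hy1
      fun x hx hxs => hy2 x (List.mem_append_right _ hx) hxs
    have hQ' : cox Q (y - s) = y := by
      rw [← hQ, ← mulE_apply, bfSimple_invol h.orthQ, oneE_apply]
    have hc : (s - y) - cox (P ++ Q) (s - y) = s := by
      have e : s - y = -(y - s) := by abel
      rw [e, map_neg, cox_append, mulE_apply, hQ', hP]
      abel
    have hspan : s - y ∈ Submodule.span ℝ {x : V | x ∈ P ++ Q} :=
      Submodule.sub_mem _ (Submodule.subset_span hsL) hy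
    have hx := hxv (s - y) hspan
    rw [hc] at hx
    have hbL : b ∈ Submodule.span ℝ {x : V | x ∈ P ++ Q} :=
      Submodule.span_mono (fun x hx => hx.1) hb
    have h1 := (hBf (P ++ Q) hnd hli s (Submodule.subset_span hsL) b hbL).1
    have h2 : Bf (P ++ Q) s b = ⟪s, b⟫_ℝ - ⟪y, b⟫_ℝ := by
      rw [Bf, hx, inner_sub_left]
    have h3 : ⟪y, b⟫_ℝ = 0 := bfSimple_inner_span (fun x hx => hy2 x hx.1 hx.2) hb
    rw [h3] at h2
    linarith

theorem cBfSwap {V : Type*} [NormedAddCommGroup V] [InnerProductSpace ℝ V]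
    [FiniteDimensional ℝ V] (hXv : Stmt_Xv V) (hBf : Stmt_Bf V) : Stmt_BfSwap V := by
  intro Φ P Q h a ha b hb
  have hnd := h.rs.nd
  have hli := h.rs.li
  have hrs' : RS Φ (Q ++ P) := h.rs.perm List.perm_append_comm
  have hset : {y : V | y ∈ Q ++ P} = {y : V | y ∈ P ++ Q} := set_perm List.perm_append_comm
  obtain ⟨hex, -, -, -⟩ := hXv (P ++ Q) hnd hli
  obtain ⟨-, hxv, -, -⟩ := hXv (Q ++ P) hrs'.nd hrs'.li
  obtain ⟨hxs, hx⟩ := hex a ha
  set x := xv (P ++ Q) a with hxdef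
  have hcc : cox (Q ++ P) * cox (P ++ Q) = 1 := by
    rw [cox_append, cox_append]
    calc cox Q * cox P * (cox P * cox Q) = cox Q * (cox P * cox P) * cox Q := by group
      _ = 1 := by rw [bfSimple_invol h.orthP, mul_one, bfSimple_invol h.orthQ]
  have hcx : cox (P ++ Q) x = x - a := by
    rw [← hx, sub_sub_cancel]
  have hcx' : cox (Q ++ P) (x - a) = x := by
    rw [← hcx, ← mulE_apply, hcc, oneE_apply]
  have h1 : (a - x) - cox (Q ++ P) (a - x) = a := by
    have e : a - x = -(x - a) := by abel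
    rw [e, map_neg, hcx']
    abel
  have hspan : a - x ∈ Submodule.span ℝ {y : V | y ∈ Q ++ P} := by
    rw [hset]
    exact Submodule.sub_mem _ ha hxs
  have h2 := hxv (a - x) hspan
  rw [h1] at h2
  have h3 := (hBf (P ++ Q) hnd hli a ha b hb).1
  have h4 : Bf (Q ++ P) a b = ⟪a, b⟫_ℝ - Bf (P ++ Q) a b := by
    rw [Bf, h2, inner_sub_left, Bf]
  rw [h4]
  linarith

end Pool.Agent.CPF
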