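import Pool.Agent.CPF.Basic

/-!
Carter's lemma and reduced factorizations.
-/

namespace Pool.Agent.CPF

open scoped InnerProductSpace NNReal

variable {V : Type*} [NormedAddCommGroup V] [InnerProductSpace ℝ V]

theorem carter_mem_fixS {g : V ≃ₗᵢ[ℝ] V} {v : V} : v ∈ fixS g ↔ g v = v := Iff.rfl

theorem carter_exists_len {Φ : Set V} {w : V ≃ₗᵢ[ℝ] V} (hw : w ∈ Wg Φ) :
    ∃ l : List V, l.length = lenT Φ w ∧ (∀ a ∈ l, a ∈ Φ) ∧ cox l = w := by
  have hne : {k : ℕ | ∃ l : List V, l.length = k ∧ (∀ a ∈ l, a ∈ Φ) ∧ cox l = w}.Nonempty := by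
    obtain ⟨l, hl, hc⟩ := Wg_mem_iff.1 hw
    exact ⟨l.length, l, rfl, hl, hc⟩
  exact Nat.sInf_mem hne

theorem carter_len_le {Φ : Set V} {l : List V} (hl : ∀ a ∈ l, a ∈ Φ) :
    lenT Φ (cox l) ≤ l.length :=
  Nat.sInf_le ⟨l, rfl, hl, rfl⟩

theorem carter_orth_le (l : List V) :
    (Submodule.span ℝ {x : V | x ∈ l})ᗮ ≤ fixS (cox l) := by
  intro v hv
  rw [carter_mem_fixS]
  apply cox_of_orth
  intro a ha
  rw [real_inner_comm]
  exact (Submodule.mem_orthogonal _ _).1 hv a (Submodule.subset_span ha)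

theorem carter_span_le_length (l : List V) :
    Module.finrank ℝ (Submodule.span ℝ {x : V | x ∈ l}) ≤ l.length := by
  classical
  have h : {x : V | x ∈ l} = (l.toFinset : Set V) := by
    ext x
    simp
  rw [h]
  exact (finrank_span_finset_le_card _).trans (List.toFinset_card_le l)

section fd
variable [FiniteDimensional ℝ V]

theorem carter_lower (l : List V) :
    Module.finrank ℝ V ≤ l.length + Module.finrank ℝ (fixS (cox l)) := by
  have h1 := Submodule.finrank_add_finrank_orthogonal (Submodule.span ℝ {x : V | x ∈ l})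
  have h2 := Submodule.finrank_mono (carter_orth_le l)
  have h3 := carter_span_le_length l
  omega

theorem carter_mem_range (w : V ≃ₗᵢ[ℝ] V) (a : V) (ha : ∀ v : V, w v = v → ⟪v, a⟫_ℝ = 0) :
    ∃ x : V, w x = x + a := by
  set T : V →ₗ[ℝ] V := (w.toLinearEquiv : V →ₗ[ℝ] V) - LinearMap.id with hT
  have hTa : ∀ x, T x = w x - x := fun x => rfl
  have h1 : (LinearMap.range T)ᗮ ≤ fixS w := by
    intro y hy
    rw [carter_mem_fixS]
    have h2 : ∀ x, ⟪x, w⁻¹ y - y⟫_ℝ = 0 := by
      intro x
      have h3 : ⟪T x, y⟫_ℝ = 0 := (Submodule.mem_orthogonal _ _).1 hy (T x) ⟨x, rfl⟩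
      rw [hTa, inner_sub_left] at h3
      rw [inner_sub_right]
      have h4 : ⟪x, w⁻¹ y⟫_ℝ = ⟪w x, y⟫_ℝ := by
        rw [real_inner_comm, inner_invE, real_inner_comm]
      rw [h4]
      exact h3
    have h5 : w⁻¹ y - y = 0 := by
      have := h2 (w⁻¹ y - y)
      exact inner_self_eq_zero.1 this
    have h6 : w⁻¹ y = y := sub_eq_zero.1 h5
    have h7 := applyE_inv_self w y
    rw [h6] at h7
    exact h7
  have h2 : a ∈ (LinearMap.range T)ᗮᗮ := by
    rw [Submodule.mem_orthogonal]
    intro u hu
    exact ha u (h1 hu)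
  rw [Submodule.orthogonal_orthogonal] at h2
  obtain ⟨x, hx⟩ := h2
  refine ⟨x, ?_⟩
  rw [hTa] at hx
  rw [← hx]
  abel

theorem carter_step (h : Stmt_FixRoot V) {Φ : Set V} {L : List V} (hr : RS Φ L)
    {w : V ≃ₗᵢ[ℝ] V} (hw : w ∈ Wg Φ) (hne : w ≠ 1) :
    ∃ a ∈ Φ, Module.finrank ℝ (fixS w) < Module.finrank ℝ (fixS (refl a * w)) := by
  obtain ⟨a, ha, hfix⟩ := h Φ L hr w hw hne
  refine ⟨a, ha, ?_⟩
  obtain ⟨x, hx⟩ := carter_mem_range w a hfix
  have h1 : refl a (w x) = x := by
    apply refl_sub_of_norm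
    · rw [hx]
      abel
    · exact (inner_mapE w x x).symm
  apply Submodule.finrank_lt_finrank_of_lt
  rw [SetLike.lt_iff_le_and_exists]
  refine ⟨?_, x, ?_, ?_⟩
  · intro v hv
    rw [carter_mem_fixS] at hv ⊢
    rw [mulE_apply, hv]
    exact refl_of_orth (hfix v hv)
  · rw [carter_mem_fixS, mulE_apply]
    exact h1
  · rw [carter_mem_fixS, hx]
    intro h2
    exact hr.ne0 a ha (by simpa using h2)

theorem carter_upper (h : Stmt_FixRoot V) {Φ : Set V} {L : List V} (hr : RS Φ L) :
    ∀ (n : ℕ) (w : V ≃ₗᵢ[ℝ] V), w ∈ Wg Φ →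
      Module.finrank ℝ V - Module.finrank ℝ (fixS w) ≤ n →
      ∃ l : List V, l.length ≤ Module.finrank ℝ V - Module.finrank ℝ (fixS w) ∧
        (∀ a ∈ l, a ∈ Φ) ∧ cox l = w := by
  intro n
  induction n with
  | zero =>
    intro w hw hn
    have hle := Submodule.finrank_le (fixS w)
    by_cases hne : w = 1
    · exact ⟨[], by simp, by simp, by rw [cox_nil, hne]⟩
    · exfalso
      obtain ⟨a, ha, hlt⟩ := carter_step h hr hw hne
      have hle2 := Submodule.finrank_le (fixS (refl a * w))
      omega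
  | succ n ih =>
    intro w hw hn
    have hle := Submodule.finrank_le (fixS w)
    by_cases hne : w = 1
    · exact ⟨[], by simp, by simp, by rw [cox_nil, hne]⟩
    · obtain ⟨a, ha, hlt⟩ := carter_step h hr hw hne
      have hle2 := Submodule.finrank_le (fixS (refl a * w))
      obtain ⟨l, hl1, hl2, hl3⟩ := ih (refl a * w) (mul_mem (refl_mem_Wg ha) hw) (by omega)
      refine ⟨a :: l, ?_, ?_, ?_⟩
      · rw [List.length_cons]
        omega
      · intro b hb
        rcases List.mem_cons.1 hb with rfl | hb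
        · exact ha
        · exact hl2 b hb
      · rw [cox_cons, hl3, ← mul_assoc, refl_mul_refl, one_mul]

end fd

theorem cCarter {V : Type*} [NormedAddCommGroup V] [InnerProductSpace ℝ V] [FiniteDimensional ℝ V]
    (h : Stmt_FixRoot V) : Stmt_Carter V := by
  intro Φ L hr w hw
  have hle := Submodule.finrank_le (fixS w)
  obtain ⟨l, hl1, hl2, hl3⟩ := carter_exists_len hw
  have h1 := carter_lower l
  rw [hl3, hl1] at h1
  obtain ⟨l', hl1', hl2', hl3'⟩ := carter_upper h hr _ w hw le_rfl
  have h2 := carter_len_le hl2'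
  rw [hl3'] at h2
  omega

theorem cReduced {V : Type*} [NormedAddCommGroup V] [InnerProductSpace ℝ V]
    [FiniteDimensional ℝ V] (h1 : Stmt_Carter V) (h2 : Stmt_FixIndep V) : Stmt_Reduced V := by
  classical
  intro Φ L hr l hl
  have hc := h1 Φ L hr (cox l) (cox_mem_Wg hl)
  have hset : {x : V | x ∈ l} = (l.toFinset : Set V) := by
    ext x
    simp
  have horth := Submodule.finrank_add_finrank_orthogonal (Submodule.span ℝ {x : V | x ∈ l})
  constructor
  · intro hlen
    have h3 := Submodule.finrank_mono (carter_orth_le l)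
    have h4 : Module.finrank ℝ (Submodule.span ℝ {x : V | x ∈ l}) ≤ l.toFinset.card := by
      rw [hset]
      exact finrank_span_finset_le_card _
    have h5 := List.toFinset_card_le l
    have h6 : l.toFinset.card = l.length := by omega
    have h7 : Module.finrank ℝ (Submodule.span ℝ {x : V | x ∈ l}) = l.toFinset.card := by omega
    have h8 : l.Nodup := by
      have h9 : l.dedup.length = l.length := by
        rw [← List.card_toFinset]
        exact h6
      have h10 : l.dedup = l := (List.dedup_sublist l).eq_of_length h9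
      exact List.dedup_eq_self.1 h10
    refine ⟨h8, ?_⟩
    rw [hset] at h7 ⊢
    rw [LinearIndepOn, linearIndependent_iff_card_eq_finrank_span]
    have h9 : Set.range (fun x : (l.toFinset : Set V) => id (x : V)) = (l.toFinset : Set V) :=
      Subtype.range_coe
    rw [Set.finrank, h9, h7]
    exact Fintype.card_coe _
  · rintro ⟨hnd, hli⟩
    have h3 : fixS (cox l) = (Submodule.span ℝ {x : V | x ∈ l})ᗮ := by
      apply le_antisymm
      · intro v hv
        rw [carter_mem_fixS, h2 l hnd hli] at hv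
        rw [Submodule.mem_orthogonal]
        intro u hu
        induction hu using Submodule.span_induction with
        | mem x hx => rw [real_inner_comm]; exact hv x hx
        | zero => simp
        | add x y _ _ hx hy => rw [inner_add_left, hx, hy, add_zero]
        | smul r x _ hx => rw [inner_smul_left, hx, mul_zero]
      · exact carter_orth_le l
    have h4 : Module.finrank ℝ (Submodule.span ℝ {x : V | x ∈ l}) = l.length := by
      rw [hset] at hli ⊢
      rw [finrank_span_finset_eq_card hli]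
      exact List.toFinset_card_of_nodup hnd
    rw [h3] at hc
    omega

end Pool.Agent.CPF
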