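import Pool.Agent.CPF.Basic

/-!
MP_b68fb8_co: fixed vectors of products of independent reflections, and the rotation lemma.
-/

namespace Pool.Agent.CPF

open scoped InnerProductSpace NNReal

variable {V : Type*} [NormedAddCommGroup V] [InnerProductSpace ℝ V] [FiniteDimensional ℝ V]

theorem cFixIndep : Stmt_FixIndep V := by
  intro l
  induction l with
  | nil =>
    intro _ _ v
    simp [cox_nil, oneE_apply]
  | cons a l ih =>
    intro hnd hli v
    constructor
    · intro hv
      have hset := set_cons a l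
      have hnot : a ∉ Submodule.span ℝ {x : V | x ∈ l} := by
        rw [hset] at hli
        have hal : a ∉ {x : V | x ∈ l} := (List.nodup_cons.1 hnd).1
        have := (linearIndepOn_insert hal).1 hli
        simpa using this.2
      have hli' : LinearIndepOn ℝ id {x : V | x ∈ l} :=
        hli.mono (fun x hx => List.mem_cons_of_mem a hx)
      rw [cox_cons, mulE_apply] at hv
      have h1 : cox l v = refl a v := by
        rw [← refl_refl a (cox l v), hv]
      have h2 : v - cox l v ∈ Submodule.span ℝ {x : V | x ∈ l} := sub_cox_mem_span l v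
      have h3 : v - cox l v = (2 * ⟪v, a⟫_ℝ / ⟪a, a⟫_ℝ) • a := by
        rw [h1, refl_apply]; abel
      have h4 : (2 * ⟪v, a⟫_ℝ / ⟪a, a⟫_ℝ) = 0 := by
        by_contra hne
        apply hnot
        rw [h3] at h2
        have := Submodule.smul_mem _ (2 * ⟪v, a⟫_ℝ / ⟪a, a⟫_ℝ)⁻¹ h2
        rwa [smul_smul, inv_mul_cancel₀ hne, one_smul] at this
      have h5 : refl a v = v := by
        rw [refl_apply, h4, zero_smul, sub_zero]
      have h6 : ⟪v, a⟫_ℝ = 0 := refl_eq_self_iff.1 h5
      have h7 := (ih (List.nodup_cons.1 hnd).2 hli' v).1 (by rw [h1, h5])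
      intro b hb
      rcases List.mem_cons.1 hb with rfl | hb
      · exact h6
      · exact h7 b hb
    · intro h
      exact cox_of_orth h

theorem FixInd_pow_mem {Φ : Set V} {L : List V} (h : RS Φ L) (b : V) (hb : b ∈ Φ) (k : ℕ) :
    (cox L ^ k) b ∈ Φ :=
  h.map_mem ((Wg Φ).pow_mem h.cox_mem k) hb

/-- `c` has finite order on the span of `L` -/
theorem FixInd_order {Φ : Set V} {L : List V} (h : RS Φ L) :
    ∃ N : ℕ, 0 < N ∧ ∀ v ∈ Submodule.span ℝ {x : V | x ∈ L}, (cox L ^ N) v = v := by
  classical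
  haveI : Finite Φ := h.fin
  let f : ℕ → (Φ → Φ) := fun k b => ⟨(cox L ^ k) b, FixInd_pow_mem h b b.2 k⟩
  obtain ⟨i, j, hij, hf⟩ := Finite.exists_ne_map_eq_of_infinite f
  wlog hlt : i < j generalizing i j with H
  · exact H j i hij.symm hf.symm (lt_of_le_of_ne (not_lt.1 hlt) hij.symm)
  refine ⟨j - i, Nat.sub_pos_of_lt hlt, ?_⟩
  have h1 : ∀ b ∈ Φ, (cox L ^ (j - i)) b = b := by
    intro b hb
    have h2 : (cox L ^ i) b = (cox L ^ j) b := congrArg Subtype.val (congrFun hf ⟨b, hb⟩)
    have h3 : (cox L ^ j) b = (cox L ^ i) ((cox L ^ (j - i)) b) := by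
      rw [← mulE_apply, ← pow_add, Nat.add_sub_cancel' hlt.le]
    rw [h3] at h2
    exact ((cox L ^ i).injective h2).symm
  intro v hv
  induction hv using Submodule.span_induction with
  | mem x hx => exact h1 x (h.sub x hx)
  | zero => exact map_zero _
  | add x y _ _ hx hy => rw [map_add, hx, hy]
  | smul r x _ hx => rw [map_smul, hx]

theorem cFix (hF : Stmt_FixIndep V) : Stmt_Fix V := by
  intro Φ L h x hx
  obtain ⟨N, hN, hord⟩ := FixInd_order h
  set g := (cox L)⁻¹ with hg
  have hxs : x ∈ Submodule.span ℝ {y : V | y ∈ L} := by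
    have := cone_mem_span (hx 0)
    simpa using this
  have hgN : (g ^ N) x = x := by
    have h1 := hord x hxs
    calc (g ^ N) x = (g ^ N) ((cox L ^ N) x) := by rw [h1]
      _ = (g ^ N * cox L ^ N) x := rfl
      _ = x := by rw [hg, inv_pow, inv_mul_cancel]; rfl
  set y := ∑ k ∈ Finset.range N, (g ^ k) x with hy
  have hyc : y ∈ cone {z : V | z ∈ L} := cone_sum _ _ (fun k _ => hx k)
  have hgy : g y = y := by
    rw [hy, map_sum]
    have h1 : ∀ k, g ((g ^ k) x) = (g ^ (k + 1)) x := by
      intro k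
      rw [pow_succ']; rfl
    simp only [h1]
    have h2 := Finset.sum_range_succ' (fun k => (g ^ k) x) N
    have h3 := Finset.sum_range_succ (fun k => (g ^ k) x) N
    rw [h2] at h3
    have h4 : (g ^ 0) x = x := by rw [pow_zero]; rfl
    rw [hgN, h4] at h3
    exact add_right_cancel h3
  have hcy : cox L y = y := by
    rw [← hgy, hg, applyE_inv_self, ← hg, hgy]
  have horth := (hF L h.nd h.li y).1 hcy
  have hy0 : y = 0 := by
    have h1 : ⟪y, y⟫_ℝ = 0 := orth_span (S := {z : V | z ∈ L}) horth (cone_mem_span hyc)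
    exact inner_self_eq_zero.1 h1
  obtain ⟨M, rfl⟩ : ∃ M, N = M + 1 := ⟨N - 1, by omega⟩
  have h5 : y = (∑ k ∈ Finset.range M, (g ^ (k + 1)) x) + x := by
    rw [hy, Finset.sum_range_succ']
    rfl
  have h6 : -x = ∑ k ∈ Finset.range M, (g ^ (k + 1)) x := by
    rw [hy0] at h5
    have := h5.symm
    exact (eq_neg_of_add_eq_zero_left this).symm
  apply h.pointed
  · have := hx 0
    simpa using this
  · rw [h6]
    exact cone_sum _ _ (fun k _ => hx (k + 1))

end Pool.Agent.CPF
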