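import Pool.Agent.CPF.Basic

/-!
A nontrivial element of the reflection group has a root orthogonal to its fixed space.
-/

namespace Pool.Agent.CPF

open scoped InnerProductSpace NNReal

theorem fixroot_avoid {V : Type*} [NormedAddCommGroup V] [InnerProductSpace ℝ V]
    (U : Submodule ℝ V) (S : Set V) (hS : S.Finite) (h : ∀ a ∈ S, ∃ v ∈ U, ⟪v, a⟫_ℝ ≠ 0) :
    ∃ x ∈ U, ∀ a ∈ S, ⟪x, a⟫_ℝ ≠ 0 := by
  classical
  set K : V → Submodule ℝ U := fun a =>
    LinearMap.ker (((innerSL ℝ a : V →L[ℝ] ℝ) : V →ₗ[ℝ] ℝ).comp U.subtype) with hK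
  have hKmem : ∀ (a : V) (x : U), x ∈ K a ↔ ⟪(x : V), a⟫_ℝ = 0 := by
    intro a x
    rw [hK, LinearMap.mem_ker]
    show ⟪a, (x : V)⟫_ℝ = 0 ↔ _
    rw [real_inner_comm]
  have hne : (⋃ p ∈ hS.toFinset.image K, (p : Set U)) ≠ Set.univ := by
    apply Subspace.biUnion_ne_univ_of_top_notMem
    intro htop
    rw [Finset.mem_image] at htop
    obtain ⟨a, ha, hKa⟩ := htop
    obtain ⟨v, hv, hva⟩ := h a (hS.mem_toFinset.1 ha)
    apply hva
    have : (⟨v, hv⟩ : U) ∈ K a := by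
      rw [hKa]
      trivial
    exact (hKmem a ⟨v, hv⟩).1 this
  rw [Ne, Set.eq_univ_iff_forall] at hne
  push Not at hne
  obtain ⟨x, hx⟩ := hne
  refine ⟨x, x.2, ?_⟩
  intro a ha h0
  apply hx
  rw [Set.mem_iUnion₂]
  exact ⟨K a, Finset.mem_image_of_mem K (hS.mem_toFinset.2 ha), (hKmem a x).2 h0⟩

theorem cFixRoot {V : Type*} [NormedAddCommGroup V] [InnerProductSpace ℝ V]
    [FiniteDimensional ℝ V] (h : Stmt_Stab V) : Stmt_FixRoot V := by
  intro Φ L hr w hw hne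
  by_contra hcon
  push Not at hcon
  obtain ⟨x, hx, hxa⟩ := fixroot_avoid (fixS w) Φ hr.fin hcon
  have h1 := h Φ L hr x w hw hx
  have h2 : perp Φ x = ∅ := by
    rw [Set.eq_empty_iff_forall_notMem]
    rintro a ⟨ha, h0⟩
    exact hxa a ha h0
  rw [h2] at h1
  apply hne
  rw [Wg, Set.image_empty, Subgroup.closure_empty, Subgroup.mem_bot] at h1
  exact h1

end Pool.Agent.CPF
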