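import Pool.Agent.CPF.Basic

set_option autoImplicit false

/-!
Module Flag: flagness of the complexes from the Helly property.
-/

namespace Pool.Agent.CPF

open scoped InnerProductSpace NNReal

section flagA
variable {V : Type*} [NormedAddCommGroup V] [InnerProductSpace ℝ V]

theorem Flag_comm {a b : V} (h : ⟪a, b⟫_ℝ = 0) : refl a * refl b = refl b * refl a := by
  have h1 : refl b a = a := refl_of_orth h
  have h2 := refl_conj (refl b) a
  rw [h1] at h2
  calc refl a * refl b = (refl b * refl a * (refl b)⁻¹) * refl b := by rw [← h2]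
    _ = refl b * refl a := by rw [inv_mul_cancel_right]

theorem Flag_comm_cox {a : V} (L : List V) (h : ∀ b ∈ L, ⟪a, b⟫_ℝ = 0) :
    refl a * cox L = cox L * refl a := by
  induction L with
  | nil => simp [cox_nil]
  | cons b L ih =>
    rw [cox_cons, ← mul_assoc, Flag_comm (h b List.mem_cons_self), mul_assoc,
      ih fun c hc => h c (List.mem_cons_of_mem _ hc), mul_assoc]

theorem Flag_invol (L : List V) (h : L.Pairwise (fun a b => ⟪a, b⟫_ℝ = 0)) :
    cox L * cox L = 1 := by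
  induction L with
  | nil => simp [cox_nil]
  | cons a L ih =>
    rw [List.pairwise_cons] at h
    have h1 := Flag_comm_cox L h.1
    rw [cox_cons]
    calc refl a * cox L * (refl a * cox L) = refl a * (cox L * refl a) * cox L := by
          simp only [mul_assoc]
      _ = (refl a * refl a) * (cox L * cox L) := by rw [← h1]; simp only [mul_assoc]
      _ = 1 := by rw [refl_mul_refl, ih h.2, one_mul]

theorem Flag_prod_single {Φ : Set V} {c p : V ≃ₗᵢ[ℝ] V} {a : V × ℕ}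
    (h : IsProd Φ c {a} p) : p = refl a.1 := by
  obtain ⟨_, l, hnd, hmem, hcox, _⟩ := h
  have hl : l = [a] := by
    match l, hnd, hmem with
    | [], _, hmem => exact absurd ((hmem a).2 (Finset.mem_singleton_self a)) (by simp)
    | [b], _, hmem =>
      have := Finset.mem_singleton.1 ((hmem b).1 (by simp))
      rw [this]
    | b :: b' :: t, hnd, hmem =>
      exfalso
      have h1 := Finset.mem_singleton.1 ((hmem b).1 (by simp))
      have h2 := Finset.mem_singleton.1 ((hmem b').1 (by simp))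
      rw [List.nodup_cons] at hnd
      exact hnd.1 (by rw [h1, ← h2]; simp)
  rw [← hcox, hl]
  simp [cox_cons, cox_nil]

theorem Flag_CAP {Φ : Set V} {L : List V} (hR : RS Φ L) {m : ℕ} {a : V × ℕ}
    (ha : a ∈ CAP Φ L m) : a.1 ∈ Φ ∧ a.2 ≤ max m 1 := by
  rcases ha with h | ⟨h1, h2⟩
  · obtain ⟨h1, h2, h3⟩ := h
    exact ⟨h1.1, h3.trans (le_max_left _ _)⟩
  · refine ⟨?_, by rw [h2]; exact le_max_right _ _⟩
    have := hR.neg_mem (hR.sub _ h1)
    rwa [neg_neg] at this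

end flagA

section flagB
variable {V : Type*} [NormedAddCommGroup V] [InnerProductSpace ℝ V] [FiniteDimensional ℝ V]

theorem Flag_coset (hS : Stmt_Single V) {Φ : Set V} {P Q : List V} (hB : Bip Φ P Q) {a : V}
    (ha : a ∈ Φ) {w : V ≃ₗᵢ[ℝ] V} (hw : w ∈ Wg Φ) :
    lcoset w (Wfix Φ (cox P * refl a * cox Q)) =
      {g | g ∈ Wg Φ ∧ g (cox Q (xv (P ++ Q) a)) = w (cox Q (xv (P ++ Q) a))} := by
  obtain ⟨_, h2⟩ := hS Φ P Q hB a ha
  ext g
  constructor
  · rintro ⟨h, hh, rfl⟩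
    obtain ⟨h3, h4⟩ := (h2 h).1 hh
    exact ⟨mul_mem hw h3, by rw [mulE_apply, h4]⟩
  · rintro ⟨h3, h4⟩
    refine ⟨w⁻¹ * g, (h2 _).2 ⟨mul_mem (inv_mem hw) h3, ?_⟩, by rw [mul_inv_cancel_left]⟩
    rw [mulE_apply, h4, invE_apply_self]

theorem Flag_gen (hL : Stmt_Listing2 V) (hN : Stmt_NCList V) (hP : Stmt_BfProd V)
    (hS : Stmt_Single V) (hH : Stmt_Helly V) {Φ : Set V} {P Q P' Q' : List V} {m : ℕ}
    (hB : Bip Φ P Q) (hm : 1 ≤ m) (hc : (P' = P ∧ Q' = Q) ∨ (P' = Q ∧ Q' = P))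
    (K : Set (V × ℕ)) :
    FlagE {z | z ∈ CPF Φ P Q P' Q' m ∧ ∀ a ∈ z.2, a ∈ K} := by
  intro S hSv hadj
  have hR : RS Φ (P ++ Q) := hB.rs
  have hR' : RS Φ (P' ++ Q') := by
    rcases hc with ⟨rfl, rfl⟩ | ⟨rfl, rfl⟩
    · exact hR
    · exact hR.perm List.perm_append_comm
  set u : V → V := fun a => cox Q (xv (P ++ Q) a) with hu
  -- description of the vertices
  have hvert : ∀ x : Set (V ≃ₗᵢ[ℝ] V) × Finset (V × ℕ),
      x ∈ vertsE {z | z ∈ CPF Φ P Q P' Q' m ∧ ∀ a ∈ z.2, a ∈ K} →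
      ∃ a : V × ℕ, x.2 = {a} ∧ a.1 ∈ Φ ∧ a.2 ≤ max m 1 ∧ a ∈ CAP Φ (P' ++ Q') m ∧ a ∈ K ∧
        ∃ w ∈ Wg Φ, x.1 = {g | g ∈ Wg Φ ∧ g (u a.1) = w (u a.1)} := by
    rintro x ⟨⟨⟨hF, p, hp, w, hw, hx⟩, hK⟩, hcard⟩
    obtain ⟨a, ha⟩ := Finset.card_eq_one.1 hcard
    have ha' : a ∈ x.2 := by rw [ha]; exact Finset.mem_singleton_self a
    have h1 := hF.1 a ha'
    obtain ⟨h2, h3⟩ := Flag_CAP hR' h1
    refine ⟨a, ha, h2, h3, h1, hK a ha', w, hw, ?_⟩
    rw [ha] at hp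
    rw [hx, Flag_prod_single hp, Flag_coset hS hB h2 hw]
  -- the root attached to a vertex
  choose! av hav using fun x (hx : x ∈ S) => hvert x (hSv hx)
  have hsame : ∀ x ∈ S, ∀ y ∈ S, av x = av y → x = y := by
    intro x hx y hy hxy
    by_contra hne
    obtain ⟨z, hz, hzS⟩ := hadj x hx y hy hne
    have hxz : leE x z := by
      have : x ∈ ({x, y} : Set (Set (V ≃ₗᵢ[ℝ] V) × Finset (V × ℕ))) := by simp
      rw [← hzS] at this
      exact this.2
    have hyz : leE y z := by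
      have : y ∈ ({x, y} : Set (Set (V ≃ₗᵢ[ℝ] V) × Finset (V × ℕ))) := by simp
      rw [← hzS] at this
      exact this.2
    obtain ⟨⟨_, p, _, w, hw, hz1⟩, _⟩ := hz
    have hwz : w ∈ z.1 := by
      rw [hz1]
      exact ⟨1, ⟨one_mem _, fun v _ => oneE_apply v⟩, by rw [mul_one]⟩
    obtain ⟨hx2, _, _, _, _, wx, hwx, hx1⟩ := hav x hx
    obtain ⟨hy2, _, _, _, _, wy, hwy, hy1⟩ := hav y hy
    have h1 : w ∈ x.1 := hxz.2 hwz
    have h2 : w ∈ y.1 := hyz.2 hwz
    rw [hx1] at h1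
    rw [hy1] at h2
    have h3 : x.1 = y.1 := by
      rw [hx1, hy1, ← h1.2, ← h2.2, hxy]
    exact hne (Prod.ext h3 (by rw [hx2, hy2, hxy]))
  have hpair : ∀ x ∈ S, ∀ y ∈ S, ∃ w ∈ Wg Φ, w ∈ x.1 ∧ w ∈ y.1 := by
    intro x hx y hy
    by_cases hne : x = y
    · subst hne
      obtain ⟨_, _, _, _, _, wx, hwx, hx1⟩ := hav x hx
      refine ⟨wx, hwx, ?_, ?_⟩ <;> rw [hx1] <;> exact ⟨hwx, rfl⟩
    · obtain ⟨z, hz, hzS⟩ := hadj x hx y hy hne
      have hxz : leE x z := by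
        have : x ∈ ({x, y} : Set (Set (V ≃ₗᵢ[ℝ] V) × Finset (V × ℕ))) := by simp
        rw [← hzS] at this
        exact this.2
      have hyz : leE y z := by
        have : y ∈ ({x, y} : Set (Set (V ≃ₗᵢ[ℝ] V) × Finset (V × ℕ))) := by simp
        rw [← hzS] at this
        exact this.2
      obtain ⟨⟨_, p, _, w, hw, hz1⟩, _⟩ := hz
      have hwz : w ∈ z.1 := by
        rw [hz1]
        exact ⟨1, ⟨one_mem _, fun v _ => oneE_apply v⟩, by rw [mul_one]⟩
      exact ⟨w, hw, hxz.2 hwz, hyz.2 hwz⟩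
  -- finiteness
  have hfin : (av '' S).Finite := by
    refine ((hR.fin.prod (Set.finite_Iic (max m 1)))).subset ?_
    rintro _ ⟨x, hx, rfl⟩
    obtain ⟨_, h2, h3, _⟩ := hav x hx
    exact ⟨h2, h3⟩
  have hSfin : S.Finite := Set.Finite.of_finite_image hfin fun x hx y hy hxy => hsame x hx y hy hxy
  set f : Finset (V × ℕ) := hfin.toFinset with hf
  have hmemf : ∀ a, a ∈ f ↔ ∃ x ∈ S, av x = a := by
    intro a
    rw [hf, Set.Finite.mem_toFinset]
    rfl
  have hface : Face Φ P' Q' m f := by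
    constructor
    · intro a ha
      obtain ⟨x, hx, rfl⟩ := (hmemf a).1 ha
      obtain ⟨_, _, _, h4, _⟩ := hav x hx
      exact h4
    · intro a ha b hb hab
      obtain ⟨x, hx, rfl⟩ := (hmemf a).1 ha
      obtain ⟨y, hy, rfl⟩ := (hmemf b).1 hb
      have hne : x ≠ y := fun h => hab (by rw [h])
      obtain ⟨z, hz, hzS⟩ := hadj x hx y hy hne
      have hxz : leE x z := by
        have : x ∈ ({x, y} : Set (Set (V ≃ₗᵢ[ℝ] V) × Finset (V × ℕ))) := by simp
        rw [← hzS] at this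
        exact this.2
      have hyz : leE y z := by
        have : y ∈ ({x, y} : Set (Set (V ≃ₗᵢ[ℝ] V) × Finset (V × ℕ))) := by simp
        rw [← hzS] at this
        exact this.2
      refine hz.1.1.2 _ (hxz.1 ?_) _ (hyz.1 ?_) hab
      · rw [(hav x hx).1]; exact Finset.mem_singleton_self _
      · rw [(hav y hy).1]; exact Finset.mem_singleton_self _
  obtain ⟨l, hnd, hlmem, hlB⟩ := hL Φ P Q P' Q' m hB hm hc f hface
  have hlΦ : ∀ a ∈ l.map Prod.fst, a ∈ Φ := by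
    intro a ha
    obtain ⟨b, hb, rfl⟩ := List.mem_map.1 ha
    obtain ⟨x, hx, rfl⟩ := (hmemf b).1 ((hlmem b).1 hb)
    exact (hav x hx).2.1
  have hlB' : (l.map Prod.fst).Pairwise (fun a b => Bf (P ++ Q) a b = 0) := by
    rw [List.pairwise_map]
    exact hlB
  obtain ⟨hNC, hlen⟩ := hN Φ (P ++ Q) hR (l.map Prod.fst) hlΦ hlB'
  set p := cox (l.map Prod.fst) with hp
  have hprod : IsProd Φ (cox P * cox Q) f p := by
    refine ⟨?_, l, hnd, hlmem, hp.symm, ?_⟩
    · rw [← cox_append]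
      exact hNC
    · rw [hlen, List.length_map]
  -- the element of the intersection
  choose! wv hwv using fun x (hx : x ∈ S) => (hav x hx).2.2.2.2.2
  obtain ⟨w, hw, hwA⟩ := hH Φ (P ++ Q) hR ((fun x => (u (av x).1, wv x (u (av x).1))) '' S)
    (hSfin.image _) (by
      rintro _ ⟨x, hx, rfl⟩
      exact (hS Φ P Q hB _ (hav x hx).2.1).1) (by
      rintro _ ⟨x, hx, rfl⟩ _ ⟨y, hy, rfl⟩
      obtain ⟨w, hw, h1, h2⟩ := hpair x hx y hy
      rw [(hwv x hx).2] at h1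
      rw [(hwv y hy).2] at h2
      exact ⟨w, hw, h1.2, h2.2⟩)
  have hwx : ∀ x ∈ S, w ∈ x.1 := by
    intro x hx
    rw [(hwv x hx).2]
    exact ⟨hw, hwA _ ⟨x, hx, rfl⟩⟩
  refine ⟨(lcoset w (Wfix Φ (cox P * p * cox Q)), f), ⟨⟨hface, p, hprod, w, hw, rfl⟩, ?_⟩, ?_⟩
  · intro a ha
    obtain ⟨x, hx, rfl⟩ := (hmemf a).1 ha
    obtain ⟨_, _, _, _, h5, _⟩ := hav x hx
    exact h5
  ext x
  constructor
  · rintro ⟨hxv, hle1, hle2⟩
    obtain ⟨a, ha2, haΦ, _, _, _, wx, hwxW, hx1⟩ := hvert x hxv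
    have haf : a ∈ f := hle1 (by rw [ha2]; exact Finset.mem_singleton_self a)
    obtain ⟨y, hy, rfl⟩ := (hmemf a).1 haf
    have h1 : w ∈ x.1 := by
      apply hle2
      exact ⟨1, ⟨one_mem _, fun v _ => oneE_apply v⟩, by rw [mul_one]⟩
    have h2 := hwx y hy
    have h3 : x.1 = y.1 := by
      rw [hx1] at h1 ⊢
      rw [(hwv y hy).2] at h2 ⊢
      rw [← h1.2, ← h2.2]
    have h4 : x = y := Prod.ext h3 (by rw [ha2, (hav y hy).1])
    rw [h4]
    exact hy
  · intro hx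
    refine ⟨hSv hx, ?_, ?_⟩
    · intro a ha
      rw [(hav x hx).1, Finset.mem_singleton] at ha
      rw [ha]
      exact (hmemf _).2 ⟨x, hx, rfl⟩
    · rintro g ⟨h, hh, rfl⟩
      have haf : av x ∈ f := (hmemf _).2 ⟨x, hx, rfl⟩
      have hal : av x ∈ l := (hlmem _).2 haf
      have hal' : (av x).1 ∈ l.map Prod.fst := List.mem_map.2 ⟨_, hal, rfl⟩
      have h1 := hP Φ (P ++ Q) hR (l.map Prod.fst) hlΦ hlB' _ hal'
      have hQ2 : ∀ v, cox Q (cox Q v) = v := by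
        intro v
        rw [← mulE_apply, Flag_invol Q hB.orthQ, oneE_apply]
      have hP2 : ∀ v, cox P (cox P v) = v := by
        intro v
        rw [← mulE_apply, Flag_invol P hB.orthP, oneE_apply]
      have h2 : (cox P * p * cox Q) (u (av x).1) = u (av x).1 := by
        rw [hu]
        dsimp only
        rw [mulE_apply, mulE_apply, hQ2, hp, h1, cox_append, mulE_apply, hP2]
      have h3 := hh.2 _ h2
      rw [(hwv x hx).2]
      refine ⟨mul_mem hw hh.1, ?_⟩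
      rw [mulE_apply, h3]
      exact hwA _ ⟨x, hx, rfl⟩

theorem cFlag (h1 : Stmt_Listing2 V) (h2 : Stmt_NCList V) (h3 : Stmt_BfProd V)
    (_h4 : Stmt_BfIndep V) (h5 : Stmt_Single V) (h6 : Stmt_Helly V) : Stmt_Flag V := by
  intro Φ P Q P' Q' m hB hm hc
  constructor
  · have h := Flag_gen h1 h2 h3 h5 h6 hB hm hc Set.univ
    have he : {z | z ∈ CPF Φ P Q P' Q' m ∧ ∀ a ∈ z.2, a ∈ Set.univ} = CPF Φ P Q P' Q' m := by
      ext z
      simp
    rwa [he] at h
  · exact Flag_gen h1 h2 h3 h5 h6 hB hm hc (CP Φ (P ++ Q) m)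

end flagB

end Pool.Agent.CPF
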