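import Pool.Agent.CPF.Basic

/-!
Generation by simple reflections, and the stabilizer of a dominant vector.
-/

namespace Pool.Agent.CPF

open scoped InnerProductSpace NNReal

section
variable {V : Type*} [NormedAddCommGroup V] [InnerProductSpace ℝ V]

theorem genK_exists_pos {Φ : Set V} {L : List V} (h : RS Φ L) {x : V} (hx : x ∈ Pos Φ L) :
    ∃ a ∈ L, 0 < ⟪x, a⟫_ℝ := by
  by_contra hcon
  push Not at hcon
  have h1 : ∀ s ∈ {y : V | y ∈ L}, 0 ≤ ⟪-x, s⟫_ℝ := by
    intro s hs
    rw [inner_neg_left]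
    linarith [hcon s hs]
  have h2 := cone_inner_nonneg h1 hx.2
  rw [inner_neg_left] at h2
  have h3 : 0 < ⟪x, x⟫_ℝ := real_inner_self_pos.mpr (h.ne0 x hx.1)
  linarith

theorem genK_refl_mem [FiniteDimensional ℝ V] {Φ : Set V} {L : List V} (h : RS Φ L) {b : V}
    (hb : b ∈ Pos Φ L) : refl b ∈ Subgroup.closure (refl '' {x : V | x ∈ L}) := by
  obtain ⟨ρ, hρ, -⟩ := h.exists_rho
  let X : Set V := {x | x ∈ Pos Φ L ∧ ∃ g ∈ Subgroup.closure (refl '' {x : V | x ∈ L}), g b = x}
  have hXf : X.Finite := h.fin.subset fun x hx => hx.1.1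
  have hXn : X.Nonempty := ⟨b, hb, 1, Subgroup.one_mem _, oneE_apply b⟩
  obtain ⟨x, ⟨hx, g, hg, hgx⟩, hmin⟩ := Set.exists_min_image X (fun x => ⟪ρ, x⟫_ℝ) hXf hXn
  obtain ⟨a, ha, hxa⟩ := genK_exists_pos h hx
  have hamem : refl a ∈ Subgroup.closure (refl '' {x : V | x ∈ L}) :=
    Subgroup.subset_closure ⟨a, ha, rfl⟩
  by_cases hne : x = a
  · have h1 : refl b = g⁻¹ * refl a * g := by
      rw [← hne, ← hgx, refl_conj]
      group
    rw [h1]
    exact Subgroup.mul_mem _ (Subgroup.mul_mem _ (Subgroup.inv_mem _ hg) hamem) hg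
  · exfalso
    have h1 : refl a x ∈ X := by
      refine ⟨h.refl_pos ha hx hne, refl a * g, Subgroup.mul_mem _ hamem hg, ?_⟩
      rw [mulE_apply, hgx]
    have h2 := hmin _ h1
    have haa : 0 < ⟪a, a⟫_ℝ := real_inner_self_pos.mpr (h.ne0 a (h.sub a ha))
    rw [refl_apply, inner_sub_right, inner_smul_right] at h2
    have h3 : 0 < 2 * ⟪x, a⟫_ℝ / ⟪a, a⟫_ℝ * ⟪ρ, a⟫_ℝ := by
      have := hρ a ha
      positivity
    linarith

theorem cGen [FiniteDimensional ℝ V] : Stmt_Gen V := by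
  intro Φ L h
  apply le_antisymm
  · unfold Wg
    rw [Subgroup.closure_le]
    rintro _ ⟨b, hb, rfl⟩
    rcases h.pos_or hb with hp | hp
    · exact genK_refl_mem h hp
    · have := genK_refl_mem h hp
      rwa [refl_neg] at this
  · exact Subgroup.closure_mono (Set.image_mono fun x hx => h.sub x hx)

/-- the deletion lemma -/
theorem genK_del {Φ : Set V} {L : List V} (h : RS Φ L) {a : V} (ha : a ∈ L) (l : List V)
    (hl : ∀ b ∈ l, b ∈ L) (hn : cox l a ∉ cone {x : V | x ∈ L}) :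
    ∃ l' : List V, (∀ b ∈ l', b ∈ L) ∧ l'.length + 1 = l.length ∧ cox l * refl a = cox l' := by
  induction l with
  | nil =>
    exfalso
    apply hn
    rw [cox_nil, oneE_apply]
    exact mem_cone_list ha
  | cons b l1 ih =>
    have hl1 : ∀ c ∈ l1, c ∈ L := fun c hc => hl c (List.mem_cons_of_mem _ hc)
    have hbL : b ∈ L := hl b List.mem_cons_self
    by_cases hc : cox l1 a ∈ cone {x : V | x ∈ L}
    · have hW : cox l1 ∈ Wg Φ := cox_mem_Wg fun c hc => h.sub c (hl1 c hc)
      have hpos : cox l1 a ∈ Pos Φ L := ⟨h.map_mem hW (h.sub a ha), hc⟩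
      have hbe : cox l1 a = b := by
        by_contra hne
        apply hn
        rw [cox_cons, mulE_apply]
        exact (h.refl_pos hbL hpos hne).2
      refine ⟨l1, hl1, by simp, ?_⟩
      have h1 : refl b = cox l1 * refl a * (cox l1)⁻¹ := by
        rw [← hbe, refl_conj]
      rw [cox_cons, h1]
      have h2 : cox l1 * refl a * (cox l1)⁻¹ * cox l1 * refl a = cox l1 * (refl a * refl a) := by
        group
      rw [h2, refl_mul_refl, mul_one]
    · obtain ⟨l', h1, h2, h3⟩ := ih hl1 hc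
      refine ⟨b :: l', ?_, by simp [h2], ?_⟩
      · intro c hc'
        rcases List.mem_cons.mp hc' with rfl | hc'
        · exact hbL
        · exact h1 c hc'
      · rw [cox_cons, cox_cons, mul_assoc, h3]

theorem genK_main {Φ : Set V} {L : List V} (h : RS Φ L) (n : ℕ) :
    ∀ l : List V, l.length = n → (∀ b ∈ l, b ∈ L) → ∀ x y : V, Dom L x → Dom L y →
      cox l x = y →
      x = y ∧ cox l ∈ Subgroup.closure (refl '' {b : V | b ∈ L ∧ ⟪x, b⟫_ℝ = 0}) := by
  induction n using Nat.strong_induction_on with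
  | _ n ih =>
    intro l hln hl x y hx hy hxy
    rcases List.eq_nil_or_concat l with rfl | ⟨l', a, rfl⟩
    · rw [cox_nil] at hxy ⊢
      rw [oneE_apply] at hxy
      exact ⟨hxy, Subgroup.one_mem _⟩
    · rw [List.concat_eq_append] at *
      have hl' : ∀ b ∈ l', b ∈ L := fun b hb => hl b (List.mem_append_left _ hb)
      have ha : a ∈ L := hl a (by simp)
      have hcox : cox (l' ++ [a]) = cox l' * refl a := by rw [cox_append, cox_singleton]
      have hlen : l'.length + 1 = n := by simpa using hln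
      have hW : cox l' ∈ Wg Φ := cox_mem_Wg fun c hc => h.sub c (hl' c hc)
      by_cases hc : cox l' a ∈ cone {x : V | x ∈ L}
      · have h1 : ⟪x, a⟫_ℝ = -⟪y, cox l' a⟫_ℝ := by
          rw [← inner_mapE (cox (l' ++ [a])) x a, hxy, hcox, mulE_apply, refl_self, map_neg,
            inner_neg_right]
        have h2 : 0 ≤ ⟪y, cox l' a⟫_ℝ := cone_inner_nonneg (fun s hs => hy s hs) hc
        have h3 : 0 ≤ ⟪x, a⟫_ℝ := hx a ha
        have h4 : ⟪x, a⟫_ℝ = 0 := by linarith
        have h5 : cox l' x = y := by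
          rw [← hxy, hcox, mulE_apply, refl_of_orth h4]
        obtain ⟨h6, h7⟩ := ih l'.length (by omega) l' rfl hl' x y hx hy h5
        refine ⟨h6, ?_⟩
        rw [hcox]
        exact Subgroup.mul_mem _ h7 (Subgroup.subset_closure ⟨a, ⟨ha, h4⟩, rfl⟩)
      · obtain ⟨l'', h1, h2, h3⟩ := genK_del h ha l' hl' hc
        rw [hcox, h3] at hxy ⊢
        exact ih l''.length (by omega) l'' rfl h1 x y hx hy hxy

end

theorem cWK {V : Type*} [NormedAddCommGroup V] [InnerProductSpace ℝ V] [FiniteDimensional ℝ V]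
    (hGen : Stmt_Gen V) : Stmt_WK V := by
  intro Φ L h x y hx hy w hw hxy
  rw [hGen Φ L h] at hw
  obtain ⟨l, hl, rfl⟩ := (Wg_mem_iff (Φ := {x : V | x ∈ L})).mp hw
  exact genK_main h l.length l rfl hl x y hx hy hxy

end Pool.Agent.CPF
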