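import Pool.Agent.CPF.Basic

/-!
Module HellyPF for MP_b68fb8_co: the Helly property for all cosets in `PF`.
-/

namespace Pool.Agent.CPF

open scoped InnerProductSpace NNReal

theorem HellyPF_sub {V : Type*} [NormedAddCommGroup V] [InnerProductSpace ℝ V] {Φ : Set V}
    {c : V ≃ₗᵢ[ℝ] V} {C : Set (V ≃ₗᵢ[ℝ] V)} (hC : C ∈ PF Φ c) :
    C ⊆ (Wg Φ : Set (V ≃ₗᵢ[ℝ] V)) := by
  obtain ⟨w, hw, p, _, rfl⟩ := hC
  rintro g ⟨h, hh, rfl⟩
  exact (Wg Φ).mul_mem hw hh.1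

theorem cHellyPF {V : Type*} [NormedAddCommGroup V] [InnerProductSpace ℝ V]
    [FiniteDimensional ℝ V] (hW : Stmt_WFin V) (hN : Stmt_NCStab V) (hH : Stmt_Helly V) :
    Stmt_HellyPF V := by
  intro Φ L hRS A hA hAA
  have hfin : (Wg Φ : Set (V ≃ₗᵢ[ℝ] V)).Finite := hW Φ hRS.fin hRS.cl
  have hAfin : A.Finite := by
    refine hfin.powerset.subset fun C hC => ?_
    exact HellyPF_sub (hA hC)
  have hdata : ∀ C : Set (V ≃ₗᵢ[ℝ] V), ∃ (w : V ≃ₗᵢ[ℝ] V) (U : Set V), C ∈ A →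
      w ∈ Wg Φ ∧ U.Finite ∧ U ⊆ VV Φ L ∧
      ∀ g ∈ Wg Φ, (g ∈ C ↔ ∀ u ∈ U, g u = w u) := by
    intro C
    by_cases hC : C ∈ A
    · obtain ⟨w, hw, p, hp, hCe⟩ := hA hC
      obtain ⟨U, hU1, hU2, hU3⟩ := hN Φ L hRS p hp
      refine ⟨w, U, fun _ => ⟨hw, hU1, hU2, fun g hg => ?_⟩⟩
      have h1 : g ∈ C ↔ w⁻¹ * g ∈ Wfix Φ p := by
        rw [hCe]
        constructor
        · rintro ⟨h, hh, rfl⟩
          rw [inv_mul_cancel_left]
          exact hh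
        · intro hh
          exact ⟨w⁻¹ * g, hh, by rw [mul_inv_cancel_left]⟩
      rw [h1, hU3 _ ((Wg Φ).mul_mem ((Wg Φ).inv_mem hw) hg)]
      refine forall₂_congr fun u _ => ?_
      rw [mulE_apply]
      constructor
      · intro h2
        have h3 : w (w⁻¹ (g u)) = w u := by rw [h2]
        rwa [applyE_inv_self] at h3
      · intro h2
        rw [h2, invE_apply_self]
    · exact ⟨1, ∅, fun h => absurd h hC⟩
  choose w U hwU using hdata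
  obtain ⟨g, hg, hg2⟩ := hH Φ L hRS (⋃ C ∈ A, (fun u => (u, w C u)) '' U C)
    (hAfin.biUnion fun C hC => (hwU C hC).2.1.image _) (by
      rintro p hp
      rw [Set.mem_iUnion₂] at hp
      obtain ⟨C, hC, u, hu, rfl⟩ := hp
      exact (hwU C hC).2.2.1 hu) (by
      rintro p hp q hq
      rw [Set.mem_iUnion₂] at hp hq
      obtain ⟨C, hC, u, hu, rfl⟩ := hp
      obtain ⟨D, hD, v, hv, rfl⟩ := hq
      obtain ⟨g, hgC, hgD⟩ := hAA C hC D hD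
      have hg : g ∈ Wg Φ := HellyPF_sub (hA hC) hgC
      exact ⟨g, hg, ((hwU C hC).2.2.2 g hg).1 hgC u hu, ((hwU D hD).2.2.2 g hg).1 hgD v hv⟩)
  refine ⟨g, hg, fun C hC => ?_⟩
  rw [(hwU C hC).2.2.2 g hg]
  intro u hu
  exact hg2 (u, w C u) (Set.mem_iUnion₂.2 ⟨C, hC, u, hu, rfl⟩)

end Pool.Agent.CPF
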