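import Pool.Agent.CPF.Basic

/-!
Module LemX for MP_b68fb8_co: `Stmt_X` from `Stmt_Rank`, `Stmt_Y`, `Stmt_RotInd`.
-/

namespace Pool.Agent.CPF

open scoped InnerProductSpace NNReal

section
variable {V : Type*} [NormedAddCommGroup V] [InnerProductSpace ℝ V] [FiniteDimensional ℝ V]

/-- The roots orthogonal to all of `Γ`. -/
def LemX_perpS (Φ : Set V) (Γ : Set V) : Set V := {b : V | b ∈ Φ ∧ ∀ v ∈ Γ, ⟪v, b⟫_ℝ = 0}

theorem LemX_posP_le {S : Set V} {L : List V} {v : V} (hv : v ∈ cone (posP S L)) :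
    v ∈ cone {x : V | x ∈ L} :=
  cone_le (fun _ hs => hs.2) hv

theorem LemX_posP_cons {S T : Set V} {a : V} {L₁ : List V} (h : S ⊆ T) {v : V}
    (hv : v ∈ cone (posP S L₁)) : v ∈ cone (posP T (a :: L₁)) := by
  refine cone_mono ?_ hv
  intro s hs
  refine ⟨h hs.1, ?_⟩
  refine cone_mono ?_ hs.2
  intro y hy
  exact List.mem_cons_of_mem a hy

theorem LemX_span {S : Set V} {L : List V} {v : V} (hv : v ∈ cone (posP S L)) :
    v ∈ Submodule.span ℝ {x : V | x ∈ L} :=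
  cone_mem_span (LemX_posP_le hv)

theorem LemX_posP_rot (S : Set V) (a : V) (L₁ : List V) :
    posP S (L₁ ++ [a]) = posP S (a :: L₁) := by
  unfold posP
  rw [set_rot]

/-- Case A: all vectors of `Γ` are orthogonal to the head `a`. -/
theorem LemX_caseA (hR : Stmt_Rank V) (hY : Stmt_Y V) {Φ : Set V} {a : V} {L₁ : List V}
    (h : RS Φ (a :: L₁))
    (ih : ∀ (Φ : Set V) (Γ : Set V) (d : V), RS Φ L₁ → Γ.Nonempty →
      Γ ⊆ VV Φ L₁ → (∀ v ∈ Γ, d ∈ cone (posP (perp Φ v) L₁)) →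
      d ∈ cone (posP (LemX_perpS Φ Γ) L₁))
    {Γ : Set V} (hne : Γ.Nonempty) (hΓ : Γ ⊆ VV Φ (a :: L₁)) {x : V}
    (hx : ∀ v ∈ Γ, x ∈ cone (posP (perp Φ v) (a :: L₁)))
    (hA : ∀ v ∈ Γ, ⟪v, a⟫_ℝ = 0) :
    x ∈ cone (posP (LemX_perpS Φ Γ) (a :: L₁)) := by
  obtain ⟨φ, φa, φs, -, -, -⟩ := h.coef
  obtain ⟨hRJ, hVJ⟩ := hR Φ a L₁ h
  have key : ∀ v ∈ Γ, 0 ≤ φ x ∧ x - φ x • a ∈ cone (posP (perp Φ v) L₁) := by
    intro v hv
    have h1 : x ∈ cone (insert a (posP (perp Φ v) L₁)) :=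
      cone_le (fun s hs => hY Φ a L₁ v h (hΓ hv) (hA v hv) s hs) (hx v hv)
    obtain ⟨e, he, r, hr, hxe⟩ := cone_insert h1
    have h2 : φ x = r := by
      rw [hxe, map_add, map_smul, φs e (LemX_span he), φa]
      simp
    refine ⟨h2 ▸ hr, ?_⟩
    have h3 : x - φ x • a = e := by
      rw [h2, hxe]
      abel
    rw [h3]
    exact he
  have hxe : x = (x - φ x • a) + φ x • a := by abel
  obtain ⟨v0, hv0⟩ := hne
  have h4 : x - φ x • a ∈ cone (posP (LemX_perpS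
      {b : V | b ∈ Φ ∧ b ∈ Submodule.span ℝ {x : V | x ∈ L₁}} Γ) L₁) := by
    refine ih _ Γ _ hRJ ⟨v0, hv0⟩ ?_ ?_
    · intro v hv
      exact hVJ v (hΓ hv) (hA v hv)
    · intro v hv
      refine cone_mono ?_ (key v hv).2
      intro s hs
      exact ⟨⟨⟨hs.1.1, cone_mem_span hs.2⟩, hs.1.2⟩, hs.2⟩
  have h5 : x - φ x • a ∈ cone (posP (LemX_perpS Φ Γ) (a :: L₁)) := by
    refine LemX_posP_cons ?_ h4
    intro s hs
    exact ⟨hs.1.1, hs.2⟩
  have h6 : a ∈ posP (LemX_perpS Φ Γ) (a :: L₁) :=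
    ⟨⟨h.sub a List.mem_cons_self, hA⟩, (h.simple_pos List.mem_cons_self).2⟩
  rw [hxe]
  exact cone_add h5 (cone_smul (key v0 hv0).1 (subset_cone h6))

/-- In case B the reflected vector satisfies the hypothesis for the rotated data. -/
theorem LemX_claim (hY : Stmt_Y V) {Φ : Set V} {a : V} {L₁ : List V}
    (h : RS Φ (a :: L₁)) {Γ : Set V} (hΓ : Γ ⊆ VV Φ (a :: L₁)) {x : V}
    (hx : ∀ v ∈ Γ, x ∈ cone (posP (perp Φ v) (a :: L₁))) {v0 : V} (hv0 : v0 ∈ Γ)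
    (hv0a : ⟪v0, a⟫_ℝ ≠ 0) :
    ∀ v ∈ Γ, refl a x ∈ cone (posP (perp Φ (refl a v)) (a :: L₁)) := by
  have hamem : a ∈ a :: L₁ := List.mem_cons_self
  have B1 : ∀ v ∈ Γ, ⟪v, a⟫_ℝ ≠ 0 → refl a x ∈ cone (posP (perp Φ (refl a v)) (a :: L₁)) := by
    intro v hv hva
    refine cone_mapE (refl a) ?_ (hx v hv)
    intro s hs
    apply subset_cone
    have hsa : s ≠ a := by
      rintro rfl
      exact hva hs.1.2
    have h1 := h.refl_pos hamem (show s ∈ Pos Φ (a :: L₁) from ⟨hs.1.1, hs.2⟩) hsa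
    refine ⟨⟨h1.1, ?_⟩, h1.2⟩
    rw [inner_mapE]
    exact hs.1.2
  have hpos : refl a x ∈ cone {y : V | y ∈ a :: L₁} := LemX_posP_le (B1 v0 hv0 hv0a)
  obtain ⟨φ, φa, φs, φn, -, -⟩ := h.coef
  intro v hv
  by_cases hva : ⟪v, a⟫_ℝ = 0
  swap
  · exact B1 v hv hva
  have hrv : refl a v = v := refl_of_orth hva
  rw [hrv]
  have h1 : x ∈ cone (insert a (posP (perp Φ v) L₁)) :=
    cone_le (fun s hs => hY Φ a L₁ v h (hΓ hv) hva s hs) (hx v hv)
  obtain ⟨e, he, r, hr, hxe⟩ := cone_insert h1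
  have h2 : refl a e ∈ cone (posP (perp Φ v) (a :: L₁)) := by
    refine cone_mapE (refl a) ?_ he
    intro s hs
    apply subset_cone
    have hsa : s ≠ a := by
      rintro rfl
      exact h.head_notMem_span (cone_mem_span hs.2)
    have hs1 : s ∈ cone {x : V | x ∈ a :: L₁} :=
      cone_mono (fun y hy => List.mem_cons_of_mem a hy) hs.2
    have h1 := h.refl_pos hamem (show s ∈ Pos Φ (a :: L₁) from ⟨hs.1.1, hs1⟩) hsa
    refine ⟨⟨h1.1, ?_⟩, h1.2⟩
    rw [← inner_refl, hrv]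
    exact hs.1.2
  have h3 : refl a e ∈ cone (insert a (posP (perp Φ v) L₁)) :=
    cone_le (fun s hs => hY Φ a L₁ v h (hΓ hv) hva s hs) h2
  obtain ⟨e', he', r', hr', hee⟩ := cone_insert h3
  have h4 : refl a x = e' + (r' - r) • a := by
    rw [hxe, map_add, map_smul, refl_self, hee, sub_smul, smul_neg]
    abel
  have h5 : 0 ≤ r' - r := by
    have := φn _ hpos
    rw [h4, map_add, map_smul, φs e' (LemX_span he'), φa] at this
    simpa using this
  rw [h4]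
  refine cone_add (LemX_posP_cons (fun _ hs => hs) he') (cone_smul h5 (subset_cone ?_))
  exact ⟨⟨h.sub a hamem, hva⟩, (h.simple_pos hamem).2⟩

/-- Case B: pulling back the conclusion along the rotation. -/
theorem LemX_back {Φ : Set V} {a : V} {L₁ : List V}
    (h : RS Φ (a :: L₁)) {Γ : Set V} {x : V} {v0 : V} (hv0 : v0 ∈ Γ)
    (hv0a : ⟪v0, a⟫_ℝ ≠ 0)
    (hq : refl a x ∈ cone (posP (LemX_perpS Φ (refl a '' Γ)) (a :: L₁))) :
    x ∈ cone (posP (LemX_perpS Φ Γ) (a :: L₁)) := by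
  have hamem : a ∈ a :: L₁ := List.mem_cons_self
  have h1 : refl a (refl a x) ∈ cone (posP (LemX_perpS Φ Γ) (a :: L₁)) := by
    refine cone_mapE (refl a) ?_ hq
    intro s hs
    apply subset_cone
    have hsa : s ≠ a := by
      rintro rfl
      have := hs.1.2 (refl s v0) ⟨v0, hv0, rfl⟩
      rw [inner_refl_self] at this
      exact hv0a (neg_eq_zero.mp this)
    have h1 := h.refl_pos hamem (show s ∈ Pos Φ (a :: L₁) from ⟨hs.1.1, hs.2⟩) hsa
    refine ⟨⟨h1.1, ?_⟩, h1.2⟩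
    intro v hv
    rw [← inner_refl]
    exact hs.1.2 (refl a v) ⟨v, hv, rfl⟩
  rwa [refl_refl] at h1

theorem LemX_main (hR : Stmt_Rank V) (hY : Stmt_Y V) (hI : Stmt_RotInd V) :
    ∀ (n : ℕ) (L : List V), L.length = n → ∀ (Φ : Set V) (Γ : Set V) (d : V), RS Φ L →
      Γ.Nonempty → Γ ⊆ VV Φ L → (∀ v ∈ Γ, d ∈ cone (posP (perp Φ v) L)) →
      d ∈ cone (posP (LemX_perpS Φ Γ) L) := by
  intro n
  induction n with
  | zero =>
    intro L hL Φ Γ d hRS hne hΓ hd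
    obtain rfl : L = [] := List.length_eq_zero_iff.mp hL
    obtain ⟨v0, hv0⟩ := hne
    have h1 := LemX_span (hd v0 hv0)
    have h2 : d = 0 := by simpa using h1
    rw [h2]
    exact cone_zero _
  | succ n ihn =>
    intro L hL Φ Γ d hRS hne hΓ hd
    by_cases hd0 : d = 0
    · rw [hd0]
      exact cone_zero _
    refine hI Φ L hRS (fun L' x => ∀ Γ : Set V, Γ.Nonempty → Γ ⊆ VV Φ L' →
      (∀ v ∈ Γ, x ∈ cone (posP (perp Φ v) L')) → x ∈ cone (posP (LemX_perpS Φ Γ) L'))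
      ?_ ?_ d hd0 Γ hne hΓ hd
    · intro L' x _ _ hx Γ hne _ hxc
      obtain ⟨v0, hv0⟩ := hne
      exact absurd (LemX_posP_le (hxc v0 hv0)) hx
    · intro a L₁ x hRS' hlen _ hrot Γ hne hΓ hx
      by_cases hA : ∀ v ∈ Γ, ⟪v, a⟫_ℝ = 0
      · refine LemX_caseA hR hY hRS' ?_ hne hΓ hx hA
        have hl1 : L₁.length = n := by
          have : L₁.length + 1 = L.length := by simpa using hlen
          omega
        exact ihn L₁ hl1
      · push Not at hA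
        obtain ⟨v0, hv0, hv0a⟩ := hA
        have hc := LemX_claim hY hRS' hΓ hx hv0 hv0a
        have hq := hrot (refl a '' Γ) (hne.image _) ?_ ?_
        · rw [LemX_posP_rot] at hq
          exact LemX_back hRS' hv0 hv0a hq
        · rintro _ ⟨v, hv, rfl⟩
          exact VV_rot (hRS'.cl a (hRS'.sub a List.mem_cons_self)) (hΓ hv)
        · rintro _ ⟨v, hv, rfl⟩
          rw [LemX_posP_rot]
          exact hc v hv

end

/-- Lemma X. -/
theorem cX {V : Type*} [NormedAddCommGroup V] [InnerProductSpace ℝ V] [FiniteDimensional ℝ V]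
    (h1 : Stmt_Rank V) (h2 : Stmt_Y V) (h3 : Stmt_RotInd V) : Stmt_X V := by
  intro Φ L Γ d hRS hne hΓ hd
  exact LemX_main h1 h2 h3 L.length L rfl Φ Γ d hRS hne hΓ hd

end Pool.Agent.CPF
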