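import Pool.Agent.CPF.Basic

/-!
MP_b68fb8_co, module Listing: the listing theorem (from RotM, RotHit, Bf, BfSimple, Xv).
-/

namespace Pool.Agent.CPF

open scoped InnerProductSpace NNReal

/-- a permutation of `l.map f` is the image of a permutation of `l` -/
theorem listing_perm_map {α β : Type*} (f : α → β) {u v : List β} (h : u.Perm v) :
    ∀ l : List α, v = l.map f → ∃ l0 : List α, l0.Perm l ∧ l0.map f = u := by
  induction h with
  | nil =>
    intro l hl
    cases l with
    | nil => exact ⟨[], List.Perm.refl _, rfl⟩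
    | cons a t => simp at hl
  | cons x _ ih =>
    intro l hl
    cases l with
    | nil => simp at hl
    | cons a t =>
      rw [List.map_cons, List.cons.injEq] at hl
      obtain ⟨l0, h0, h1⟩ := ih t hl.2
      exact ⟨a :: l0, h0.cons a, by rw [List.map_cons, h1, hl.1]⟩
  | swap x y t =>
    intro l hl
    cases l with
    | nil => simp at hl
    | cons a l1 =>
      cases l1 with
      | nil => simp at hl
      | cons b l2 =>
        rw [List.map_cons, List.map_cons, List.cons.injEq, List.cons.injEq] at hl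
        exact ⟨b :: a :: l2, List.Perm.swap _ _ _, by
          rw [List.map_cons, List.map_cons, hl.1, hl.2.1, hl.2.2]⟩
  | trans _ _ ih1 ih2 =>
    intro l hl
    obtain ⟨l1, hl1, h1⟩ := ih2 l hl
    obtain ⟨l0, hl0, h0⟩ := ih1 l1 h1.symm
    exact ⟨l0, hl0.trans hl1, h0⟩

section
variable {V : Type*} [NormedAddCommGroup V] [InnerProductSpace ℝ V]

open Classical in
/-- the key of a coloured almost positive root -/
noncomputable def listing_key (Φ : Set V) (P Q : List V) (m : ℕ) (a : V × ℕ) : ℕ :=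
  if a.1 ∈ Pos Φ (P ++ Q) then a.2 else if -a.1 ∈ P then m + 1 else 0

theorem listing_comp_symm (Φ : Set V) (P Q : List V) (m : ℕ) {a b : V × ℕ}
    (h : Comp Φ P Q m a b) : Comp Φ P Q m b a := ⟨h.2, h.1⟩

theorem listing_comp1_rot (Φ : Set V) (P Q : List V) (m : ℕ) {a b : V × ℕ}
    (h : Comp1 Φ P Q m a b) : Comp1 Φ P Q m (rotM Φ P Q m a) (rotM Φ P Q m b) := by
  intro r s hs hr
  have := h (r + 1) s hs (by rw [Function.iterate_succ_apply]; exact hr)
  rwa [Function.iterate_succ_apply] at this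

theorem listing_comp_rot (Φ : Set V) (P Q : List V) (m : ℕ) {a b : V × ℕ}
    (h : Comp Φ P Q m a b) : Comp Φ P Q m (rotM Φ P Q m a) (rotM Φ P Q m b) :=
  ⟨listing_comp1_rot Φ P Q m h.1, listing_comp1_rot Φ P Q m h.2⟩

theorem listing_key_CP {Φ : Set V} {P Q : List V} {m : ℕ} {a : V × ℕ}
    (h : a ∈ CP Φ (P ++ Q) m) : listing_key Φ P Q m a = a.2 := by
  unfold listing_key
  rw [if_pos h.1]

theorem listing_neg_notPos {Φ : Set V} {P Q : List V} (hB : Bip Φ P Q) {a : V}
    (h : -a ∈ P ++ Q) : a ∉ Pos Φ (P ++ Q) := by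
  intro h1
  exact hB.rs.not_pos_neg h1 (hB.rs.simple_pos h)

theorem listing_key_P {Φ : Set V} {P Q : List V} {m : ℕ} (hB : Bip Φ P Q) {a : V × ℕ}
    (h : -a.1 ∈ P) : listing_key Φ P Q m a = m + 1 := by
  unfold listing_key
  rw [if_neg (listing_neg_notPos hB (List.mem_append_left _ h)), if_pos h]

theorem listing_key_Q {Φ : Set V} {P Q : List V} {m : ℕ} (hB : Bip Φ P Q) {a : V × ℕ}
    (h : -a.1 ∈ Q) : listing_key Φ P Q m a = 0 := by
  unfold listing_key
  rw [if_neg (listing_neg_notPos hB (List.mem_append_right _ h)), if_neg]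
  intro h1
  exact List.disjoint_of_nodup_append hB.rs.nd h1 h

theorem listing_key_le {Φ : Set V} {P Q : List V} {m : ℕ} (hB : Bip Φ P Q) {a : V × ℕ}
    (h : a ∈ CAP Φ (P ++ Q) m) : listing_key Φ P Q m a ≤ m + 1 := by
  rcases h with h | h
  · rw [listing_key_CP h]
    exact h.2.2.trans (Nat.le_succ m)
  · rcases List.mem_append.1 h.1 with h1 | h1
    · rw [listing_key_P hB h1]
    · rw [listing_key_Q hB h1]
      exact Nat.zero_le _

theorem listing_mem_root {Φ : Set V} {P Q : List V} {m : ℕ} (hB : Bip Φ P Q) {a : V × ℕ}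
    (h : a ∈ CAP Φ (P ++ Q) m) : a.1 ∈ Φ := by
  rcases h with h | h
  · exact h.1.1
  · have := hB.rs.neg_mem (hB.rs.sub _ h.1)
    rwa [neg_neg] at this

/-- the relation used in the induction -/
def listing_G (Φ : Set V) (P Q : List V) (m : ℕ) (a b : V × ℕ) : Prop :=
  listing_key Φ P Q m b ≤ listing_key Φ P Q m a ∧ Bf (P ++ Q) a.1 b.1 = 0

end

section fd
variable {V : Type*} [NormedAddCommGroup V] [InnerProductSpace ℝ V]

theorem listing_neg_left {Φ : Set V} {P Q : List V} (hB : Bip Φ P Q) (h5 : Stmt_Xv V) {a b : V}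
    (ha : a ∈ Φ) : Bf (P ++ Q) (-a) b = - Bf (P ++ Q) a b := by
  have h := (h5 (P ++ Q) hB.rs.nd hB.rs.li).2.2.2 (-1) a (hB.rs.mem_span ha)
  rw [neg_one_smul, neg_one_smul] at h
  unfold Bf
  rw [h, inner_neg_left]

theorem listing_neg_right (L : List V) (a b : V) : Bf L a (-b) = - Bf L a b := by
  unfold Bf
  rw [inner_neg_right]

theorem listing_inv_mem {Φ : Set V} {P Q : List V} (hB : Bip Φ P Q) {a : V}
    (ha : a ∈ Φ) : (cox (P ++ Q))⁻¹ a ∈ Φ :=
  hB.rs.map_mem ((Wg Φ).inv_mem hB.rs.cox_mem) ha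

theorem listing_inv_inv {Φ : Set V} {P Q : List V} (hB : Bip Φ P Q) (h3 : Stmt_Bf V) {a b : V}
    (ha : a ∈ Φ) (hb : b ∈ Φ) :
    Bf (P ++ Q) ((cox (P ++ Q))⁻¹ a) ((cox (P ++ Q))⁻¹ b) = Bf (P ++ Q) a b := by
  have h := (h3 (P ++ Q) hB.rs.nd hB.rs.li _ (hB.rs.mem_span (listing_inv_mem hB ha)) _
    (hB.rs.mem_span (listing_inv_mem hB hb))).2.1
  rw [applyE_inv_self, applyE_inv_self] at h
  exact h.symm

theorem listing_inv_right {Φ : Set V} {P Q : List V} (hB : Bip Φ P Q) (h3 : Stmt_Bf V) {a b : V}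
    (ha : a ∈ Φ) (hb : b ∈ Φ) :
    Bf (P ++ Q) a ((cox (P ++ Q))⁻¹ b) = - Bf (P ++ Q) b a :=
  (h3 (P ++ Q) hB.rs.nd hB.rs.li _ (hB.rs.mem_span ha) _ (hB.rs.mem_span hb)).2.2

/-- the step of the rotation, when all elements are coloured positive roots -/
theorem listing_step {Φ : Set V} {P Q : List V} {m : ℕ} (hB : Bip Φ P Q) (hm : 1 ≤ m)
    (h1 : Stmt_RotM V) (h3 : Stmt_Bf V) (h5 : Stmt_Xv V) (l0 : List (V × ℕ))
    (hl : ∀ a ∈ l0, a ∈ CP Φ (P ++ Q) m)
    (hp : l0.Pairwise (fun a b => listing_G Φ P Q m (rotM Φ P Q m a) (rotM Φ P Q m b))) :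
    ∃ l' : List (V × ℕ), l'.Perm l0 ∧ l'.Pairwise (listing_G Φ P Q m) := by
  classical
  obtain ⟨-, hR1, hR2, hR3⟩ := h1 Φ P Q m hB hm
  -- keys
  have kA : ∀ a ∈ l0, a.2 = m → a.1 ∉ P → listing_key Φ P Q m (rotM Φ P Q m a) ≤ 1 := by
    intro a ha h2 h3
    obtain ⟨e1, e2⟩ := hR3 a (hl a ha) h2 h3
    rw [e1]
    rcases e2 with e2 | e2
    · unfold listing_key
      rw [if_pos e2]
    · rw [listing_key_Q hB e2]
      exact Nat.zero_le _
  have kB : ∀ a ∈ l0, a.2 = m → a.1 ∈ P → listing_key Φ P Q m (rotM Φ P Q m a) = m + 1 := by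
    intro a ha h2 h3
    rw [hR2 a (hl a ha) h2 h3]
    exact listing_key_P hB (by simpa using h3)
  have kC : ∀ a ∈ l0, a.2 ≠ m → listing_key Φ P Q m (rotM Φ P Q m a) = a.2 + 1 := by
    intro a ha h2
    rw [hR1 a (hl a ha) (lt_of_le_of_ne (hl a ha).2.2 h2)]
    unfold listing_key
    rw [if_pos (hl a ha).1]
  -- symmetrized relation
  have hsym : ∀ a ∈ l0, ∀ b ∈ l0, a ≠ b →
      (listing_G Φ P Q m (rotM Φ P Q m a) (rotM Φ P Q m b) ∨
        listing_G Φ P Q m (rotM Φ P Q m b) (rotM Φ P Q m a)) := by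
    intro a ha b hb hab
    have hp' : l0.Pairwise (fun a b => listing_G Φ P Q m (rotM Φ P Q m a) (rotM Φ P Q m b) ∨
        listing_G Φ P Q m (rotM Φ P Q m b) (rotM Φ P Q m a)) := hp.imp (fun h => Or.inl h)
    have hs : Std.Symm (fun a b => listing_G Φ P Q m (rotM Φ P Q m a) (rotM Φ P Q m b) ∨
        listing_G Φ P Q m (rotM Φ P Q m b) (rotM Φ P Q m a)) := ⟨fun _ _ h => h.symm⟩
    exact hp'.forall ha hb hab
  have hroot : ∀ a ∈ l0, a.1 ∈ Φ := fun a ha => (hl a ha).1.1
  refine ⟨l0.filter (fun a => decide (a.2 = m ∧ a.1 ∉ P)) ++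
    (l0.filter (fun a => decide (a.2 = m ∧ a.1 ∈ P)) ++ l0.filter (fun a => decide (a.2 ≠ m))),
    ?_, ?_⟩
  · -- permutation
    have e1 : (l0.filter (fun a => decide (a.2 = m ∧ a.1 ∈ P)) ++
        l0.filter (fun a => decide (a.2 ≠ m))).Perm
        (l0.filter (fun a => !decide (a.2 = m ∧ a.1 ∉ P))) := by
      have e2 := List.filter_append_perm (fun a : V × ℕ => decide (a.2 = m ∧ a.1 ∈ P))
        (l0.filter (fun a => !decide (a.2 = m ∧ a.1 ∉ P)))
      rw [List.filter_filter, List.filter_filter] at e2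
      refine List.Perm.trans (List.Perm.of_eq ?_) e2
      congr 1
      · apply List.filter_congr
        intro x _
        by_cases hx : x.2 = m <;> by_cases hy : x.1 ∈ P <;> simp [hx, hy]
      · apply List.filter_congr
        intro x _
        by_cases hx : x.2 = m <;> by_cases hy : x.1 ∈ P <;> simp [hx, hy]
    exact (e1.append_left _).trans (List.filter_append_perm _ l0)
  · rw [List.pairwise_append, List.pairwise_append]
    refine ⟨?_, ⟨?_, ?_, ?_⟩, ?_⟩
    · -- inside A
      refine (hp.filter _).imp_of_mem ?_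
      intro a b ha hb hab
      simp only [List.mem_filter, decide_eq_true_eq] at ha hb
      refine ⟨?_, ?_⟩
      · rw [listing_key_CP (hl a ha.1), listing_key_CP (hl b hb.1), ha.2.1, hb.2.1]
      · have h := hab.2
        rw [(hR3 a (hl a ha.1) ha.2.1 ha.2.2).1, (hR3 b (hl b hb.1) hb.2.1 hb.2.2).1] at h
        rwa [listing_inv_inv hB h3 (hroot a ha.1) (hroot b hb.1)] at h
    · -- inside B
      refine (hp.filter _).imp_of_mem ?_
      intro a b ha hb hab
      simp only [List.mem_filter, decide_eq_true_eq] at ha hb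
      refine ⟨?_, ?_⟩
      · rw [listing_key_CP (hl a ha.1), listing_key_CP (hl b hb.1), ha.2.1, hb.2.1]
      · have h := hab.2
        rw [hR2 a (hl a ha.1) ha.2.1 ha.2.2, hR2 b (hl b hb.1) hb.2.1 hb.2.2] at h
        rwa [listing_neg_left hB h5 (hroot a ha.1), listing_neg_right, neg_neg] at h
    · -- inside C
      refine (hp.filter _).imp_of_mem ?_
      intro a b ha hb hab
      simp only [List.mem_filter, decide_eq_true_eq] at ha hb
      refine ⟨?_, ?_⟩
      · have h := hab.1
        rw [kC a ha.1 ha.2, kC b hb.1 hb.2] at h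
        rw [listing_key_CP (hl a ha.1), listing_key_CP (hl b hb.1)]
        omega
      · have h := hab.2
        rwa [hR1 a (hl a ha.1) (lt_of_le_of_ne (hl a ha.1).2.2 ha.2),
          hR1 b (hl b hb.1) (lt_of_le_of_ne (hl b hb.1).2.2 hb.2)] at h
    · -- B versus C
      intro a ha b hb
      simp only [List.mem_filter, decide_eq_true_eq] at ha hb
      have hab : a ≠ b := by
        rintro rfl
        exact hb.2 ha.2.1
      refine ⟨?_, ?_⟩
      · rw [listing_key_CP (hl a ha.1), listing_key_CP (hl b hb.1), ha.2.1]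
        exact (hl b hb.1).2.2
      · rcases hsym a ha.1 b hb.1 hab with h | h
        · have h' := h.2
          rw [hR2 a (hl a ha.1) ha.2.1 ha.2.2,
            hR1 b (hl b hb.1) (lt_of_le_of_ne (hl b hb.1).2.2 hb.2)] at h'
          rw [listing_neg_left hB h5 (hroot a ha.1)] at h'
          exact neg_eq_zero.1 h'
        · exfalso
          have h' := h.1
          rw [kB a ha.1 ha.2.1 ha.2.2, kC b hb.1 hb.2] at h'
          have := lt_of_le_of_ne (hl b hb.1).2.2 hb.2
          omega
    · -- A versus B and C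
      intro a ha b hb
      rw [List.mem_append] at hb
      simp only [List.mem_filter, decide_eq_true_eq] at ha hb
      have hb0 : b ∈ l0 := by
        rcases hb with hb | hb
        · exact hb.1
        · exact hb.1
      have hab : a ≠ b := by
        rintro rfl
        rcases hb with hb | hb
        · exact ha.2.2 hb.2.2
        · exact hb.2 ha.2.1
      refine ⟨?_, ?_⟩
      · rw [listing_key_CP (hl a ha.1), listing_key_CP (hl b hb0), ha.2.1]
        exact (hl b hb0).2.2
      · have hlow : 1 < listing_key Φ P Q m (rotM Φ P Q m b) := by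
          rcases hb with hb | hb
          · rw [kB b hb.1 hb.2.1 hb.2.2]
            omega
          · rw [kC b hb.1 hb.2]
            have := (hl b hb.1).2.1
            omega
        rcases hsym a ha.1 b hb0 hab with h | h
        · exfalso
          have h' := h.1
          have := kA a ha.1 ha.2.1 ha.2.2
          omega
        · have h' := h.2
          rw [(hR3 a (hl a ha.1) ha.2.1 ha.2.2).1] at h'
          have h'' : Bf (P ++ Q) b.1 ((cox (P ++ Q))⁻¹ a.1) = 0 := by
            rcases hb with hb | hb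
            · rw [hR2 b (hl b hb.1) hb.2.1 hb.2.2, listing_neg_left hB h5 (hroot b hb.1)] at h'
              exact neg_eq_zero.1 h'
            · rwa [hR1 b (hl b hb.1) (lt_of_le_of_ne (hl b hb.1).2.2 hb.2)] at h'
          rw [listing_inv_right hB h3 (hroot b hb0) (hroot a ha.1)] at h''
          exact neg_eq_zero.1 h''

theorem listing_main {Φ : Set V} {P Q : List V} {m : ℕ} (hB : Bip Φ P Q) (hm : 1 ≤ m)
    (h1 : Stmt_RotM V) (h2 : Stmt_RotHit V) (h3 : Stmt_Bf V) (h4 : Stmt_BfSimple V)
    (h5 : Stmt_Xv V) : ∀ n : ℕ, ∀ l : List (V × ℕ), l.length = n →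
    (∀ a ∈ l, a ∈ CAP Φ (P ++ Q) m) → l.Pairwise (Comp Φ P Q m) →
    ∃ l' : List (V × ℕ), l'.Perm l ∧ l'.Pairwise (listing_G Φ P Q m) := by
  classical
  intro n
  induction n with
  | zero =>
    intro l hl _ _
    rw [List.length_eq_zero_iff] at hl
    subst hl
    exact ⟨[], List.Perm.refl _, List.Pairwise.nil⟩
  | succ n ih =>
    have hneg : ∀ l : List (V × ℕ), l.length = n + 1 →
        (∀ a ∈ l, a ∈ CAP Φ (P ++ Q) m) → l.Pairwise (Comp Φ P Q m) →
        (∃ a ∈ l, -a.1 ∈ P ++ Q) →
        ∃ l' : List (V × ℕ), l'.Perm l ∧ l'.Pairwise (listing_G Φ P Q m) := by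
      intro l hn hl hp ⟨a, ha, hr⟩
      have ha2 : a.2 = 1 := by
        rcases hl a ha with h | h
        · exact absurd h.1 (listing_neg_notPos hB hr)
        · exact h.2
      have hperm : l.Perm (a :: l.erase a) := List.perm_cons_erase ha
      have hlen : (l.erase a).length = n := by
        rw [List.length_erase_of_mem ha, hn]
        rfl
      have hp' : (a :: l.erase a).Pairwise (Comp Φ P Q m) :=
        hp.perm hperm (fun h => listing_comp_symm Φ P Q m h)
      rw [List.pairwise_cons] at hp'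
      obtain ⟨l1, hl1, hG⟩ := ih (l.erase a) hlen (fun b hb => hl b (List.mem_of_mem_erase hb))
        hp'.2
      have hae : a = (-(-a.1), 1) := by
        rw [neg_neg, ← ha2]
      have hspan : ∀ b ∈ l1, b.1 ∈ Submodule.span ℝ {x : V | x ∈ P ++ Q ∧ x ≠ -a.1} := by
        intro b hb
        have := (hp'.1 b (hl1.mem_iff.1 hb)).1 0 (-a.1) hr
          (by rw [Function.iterate_zero, id]; exact hae)
        rwa [Function.iterate_zero, id] at this
      have hroot : a.1 ∈ Φ := listing_mem_root hB (hl a ha)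
      by_cases hP : -a.1 ∈ P
      · refine ⟨a :: l1, (hl1.cons a).trans hperm.symm, ?_⟩
        rw [List.pairwise_cons]
        refine ⟨fun b hb => ⟨?_, ?_⟩, hG⟩
        · rw [listing_key_P hB hP]
          exact listing_key_le hB (hl b (List.mem_of_mem_erase (hl1.mem_iff.1 hb)))
        · have := (h4 Φ P Q hB).1 (-a.1) hP b.1 (hspan b hb)
          rw [listing_neg_left hB h5 hroot] at this
          exact neg_eq_zero.1 this
      · have hQ : -a.1 ∈ Q := (List.mem_append.1 hr).resolve_left hP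
        refine ⟨l1 ++ [a], ?_, ?_⟩
        · exact (List.perm_append_comm.trans (by simpa using hl1.cons a)).trans hperm.symm
        · rw [List.pairwise_append]
          refine ⟨hG, List.pairwise_singleton _ _, ?_⟩
          intro b hb c hc
          rw [List.mem_singleton] at hc
          subst hc
          refine ⟨?_, ?_⟩
          · rw [listing_key_Q hB hQ]
            exact Nat.zero_le _
          · have := (h4 Φ P Q hB).2 (-c.1) hQ b.1 (hspan b hb)
            rw [listing_neg_right] at this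
            exact neg_eq_zero.1 this
    have key : ∀ r : ℕ, ∀ l : List (V × ℕ), l.length = n + 1 →
        (∀ a ∈ l, a ∈ CAP Φ (P ++ Q) m) → l.Pairwise (Comp Φ P Q m) →
        (∃ a ∈ l, -((rotM Φ P Q m)^[r] a).1 ∈ P ++ Q) →
        ∃ l' : List (V × ℕ), l'.Perm l ∧ l'.Pairwise (listing_G Φ P Q m) := by
      intro r
      induction r with
      | zero =>
        intro l hn hl hp h
        exact hneg l hn hl hp h
      | succ r ihr =>
        intro l hn hl hp ⟨a, ha, hr⟩
        by_cases hall : ∃ b ∈ l, -b.1 ∈ P ++ Q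
        · exact hneg l hn hl hp hall
        · have hCP : ∀ b ∈ l, b ∈ CP Φ (P ++ Q) m := by
            intro b hb
            rcases hl b hb with h | h
            · exact h
            · exact absurd ⟨b, hb, h.1⟩ hall
          obtain ⟨l2, hl2, hG2⟩ := ihr (l.map (rotM Φ P Q m)) (by rw [List.length_map, hn])
            (by
              intro b hb
              rw [List.mem_map] at hb
              obtain ⟨c, hc, rfl⟩ := hb
              exact (h1 Φ P Q m hB hm).1 c (hl c hc))
            (by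
              rw [List.pairwise_map]
              exact hp.imp (fun h => listing_comp_rot Φ P Q m h))
            ⟨rotM Φ P Q m a, List.mem_map_of_mem ha, by
              rwa [Function.iterate_succ_apply] at hr⟩
          obtain ⟨l0, hl0, rfl⟩ := listing_perm_map (rotM Φ P Q m) hl2 l rfl
          rw [List.pairwise_map] at hG2
          obtain ⟨l', hl', hG'⟩ := listing_step hB hm h1 h3 h5 l0
            (fun b hb => hCP b (hl0.mem_iff.1 hb)) hG2
          exact ⟨l', hl'.trans hl0, hG'⟩
    intro l hn hl hp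
    obtain ⟨a, ha⟩ : ∃ a, a ∈ l := by
      cases l with
      | nil => simp at hn
      | cons a t => exact ⟨a, List.mem_cons_self⟩
    obtain ⟨r, hr⟩ := h2 Φ P Q m hB hm a (hl a ha)
    exact key r l hn hl hp ⟨a, ha, hr⟩

/-- The listing theorem. -/
theorem cListing {V : Type*} [NormedAddCommGroup V] [InnerProductSpace ℝ V]
    [FiniteDimensional ℝ V] (h1 : Stmt_RotM V) (h2 : Stmt_RotHit V) (h3 : Stmt_Bf V)
    (h4 : Stmt_BfSimple V) (h5 : Stmt_Xv V) : Stmt_Listing V := by
  intro Φ P Q m hB hm l hl hp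
  obtain ⟨l', hl', hG⟩ := listing_main hB hm h1 h2 h3 h4 h5 l.length l rfl hl hp
  exact ⟨l', hl', hG.imp (fun h => h.2)⟩

end fd

end Pool.Agent.CPF
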