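import Pool.Agent.CPF.Basic

/-!
MP_b68fb8_co: the listing theorem for both conventions of the rotation.
-/

namespace Pool.Agent.CPF

open scoped InnerProductSpace NNReal

variable {V : Type*} [NormedAddCommGroup V] [InnerProductSpace ℝ V] [FiniteDimensional ℝ V]

theorem Listing2_bip_swap {Φ : Set V} {P Q : List V} (h : Bip Φ P Q) : Bip Φ Q P :=
  ⟨h.rs.perm List.perm_append_comm, h.orthQ, h.orthP⟩

theorem Listing2_mem_span {Φ : Set V} {P Q : List V} (h : Bip Φ P Q) {m : ℕ} {a : V × ℕ}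
    (ha : a ∈ CAP Φ (P ++ Q) m) : a.1 ∈ Submodule.span ℝ {y : V | y ∈ P ++ Q} := by
  rcases ha with ha | ha
  · exact h.rs.mem_span ha.1.1
  · have := Submodule.neg_mem _ (h.rs.mem_span (h.rs.sub _ ha.1))
    rwa [neg_neg] at this

/-- listing of a face in the given convention -/
theorem Listing2_aux (hL : Stmt_Listing V) {Φ : Set V} {P Q : List V} {m : ℕ} (h : Bip Φ P Q)
    (hm : 1 ≤ m) (f : Finset (V × ℕ)) (hf : Face Φ P Q m f) :
    ∃ l : List (V × ℕ), l.Nodup ∧ (∀ a, a ∈ l ↔ a ∈ f) ∧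
      l.Pairwise (fun a b => Bf (P ++ Q) a.1 b.1 = 0) := by
  have h1 : f.toList.Pairwise (Comp Φ P Q m) := by
    have h2 : f.toList.Pairwise (fun a b => a ≠ b) := f.nodup_toList
    refine h2.imp_of_mem ?_
    intro a b ha hb hne
    exact hf.2 a (Finset.mem_toList.1 ha) b (Finset.mem_toList.1 hb) hne
  obtain ⟨l', hp, hl'⟩ := hL Φ P Q m h hm f.toList
    (fun a ha => hf.1 a (Finset.mem_toList.1 ha)) h1
  refine ⟨l', hp.nodup_iff.2 f.nodup_toList, ?_, hl'⟩
  intro a
  rw [hp.mem_iff, Finset.mem_toList]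

theorem cListing2 (hL : Stmt_Listing V) (hS : Stmt_BfSwap V) : Stmt_Listing2 V := by
  intro Φ P Q P' Q' m h hm hPQ f hf
  rcases hPQ with ⟨rfl, rfl⟩ | ⟨rfl, rfl⟩
  · exact Listing2_aux hL h hm f hf
  · have h' := Listing2_bip_swap h
    obtain ⟨l, hnd, hmem, hpw⟩ := Listing2_aux hL h' hm f hf
    refine ⟨l.reverse, List.nodup_reverse.2 hnd, ?_, ?_⟩
    · intro a
      rw [List.mem_reverse, hmem]
    · rw [List.pairwise_reverse]
      refine hpw.imp_of_mem ?_
      intro a b ha hb hab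
      have hset : {y : V | y ∈ P' ++ Q'} = {y : V | y ∈ Q' ++ P'} :=
        set_perm List.perm_append_comm
      have ha1 := Listing2_mem_span h' (hf.1 a ((hmem a).1 ha))
      have hb1 := Listing2_mem_span h' (hf.1 b ((hmem b).1 hb))
      rw [hset] at ha1 hb1
      rw [← hS Φ Q' P' h a.1 ha1 b.1 hb1]
      exact hab

end Pool.Agent.CPF
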