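import Pool.Agent.CPF.Basic

/-!
Module NCStab for MP_b68fb8_co: the groups of NC are intersections of stabilizers.
-/

namespace Pool.Agent.CPF

open scoped InnerProductSpace NNReal

section
variable {V : Type*} [NormedAddCommGroup V] [InnerProductSpace ℝ V] [FiniteDimensional ℝ V]

omit [FiniteDimensional ℝ V] in
theorem NCStab_orth_span {L : List V} {v : V} :
    (∀ a ∈ L, ⟪v, a⟫_ℝ = 0) ↔ ∀ x ∈ Submodule.span ℝ {y : V | y ∈ L}, ⟪v, x⟫_ℝ = 0 := by
  constructor
  · intro h x hx
    induction hx using Submodule.span_induction with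
    | mem x hx => exact h x hx
    | zero => simp
    | add x y _ _ h1 h2 => rw [inner_add_right, h1, h2, add_zero]
    | smul r x _ h1 => rw [inner_smul_right, h1, mul_zero]
  · intro h a ha
    exact h a (Submodule.subset_span ha)

omit [FiniteDimensional ℝ V] in
theorem NCStab_fix (h3 : Stmt_FixIndep V) {Φ : Set V} {L : List V} (h : RS Φ L) :
    fixS (cox L) = (Submodule.span ℝ {y : V | y ∈ L})ᗮ := by
  ext v
  have e : v ∈ fixS (cox L) ↔ cox L v = v := Iff.rfl
  rw [e, h3 L h.nd h.li v, NCStab_orth_span, Submodule.mem_orthogonal]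
  constructor
  · intro h u hu; rw [real_inner_comm]; exact h u hu
  · intro h u hu; rw [real_inner_comm]; exact h u hu

/-- The linear map `1 - c⁻¹`. -/
noncomputable def NCStab_F (c : V ≃ₗᵢ[ℝ] V) : V →ₗ[ℝ] V :=
  LinearMap.id - (c⁻¹ : V ≃ₗᵢ[ℝ] V).toLinearEquiv.toLinearMap

omit [FiniteDimensional ℝ V] in
theorem NCStab_F_apply (c : V ≃ₗᵢ[ℝ] V) (v : V) : NCStab_F c v = v - c⁻¹ v := rfl

omit [FiniteDimensional ℝ V] in
theorem NCStab_inj (h3 : Stmt_FixIndep V) {Φ : Set V} {L : List V} (h : RS Φ L) {x : V}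
    (hx : x ∈ Submodule.span ℝ {y : V | y ∈ L}) (h0 : NCStab_F (cox L) x = 0) : x = 0 := by
  rw [NCStab_F_apply, sub_eq_zero] at h0
  have e : cox L x = x := by
    conv_lhs => rw [h0]
    rw [applyE_inv_self]
  rw [h3 L h.nd h.li x, NCStab_orth_span] at e
  exact inner_self_eq_zero.1 (e x hx)

omit [FiniteDimensional ℝ V] in
theorem NCStab_list {Φ : Set V} {w : V ≃ₗᵢ[ℝ] V} (hw : w ∈ Wg Φ) :
    ∃ l : List V, l.length = lenT Φ w ∧ (∀ a ∈ l, a ∈ Φ) ∧ cox l = w := by
  have hne : {k : ℕ | ∃ l : List V, l.length = k ∧ (∀ a ∈ l, a ∈ Φ) ∧ cox l = w}.Nonempty := by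
    obtain ⟨l, hl, hl2⟩ := Wg_mem_iff.1 hw
    exact ⟨l.length, l, rfl, hl, hl2⟩
  exact Nat.sInf_mem hne

omit [FiniteDimensional ℝ V] in
theorem NCStab_finrank_le (l : List V) :
    Module.finrank ℝ (Submodule.span ℝ {y : V | y ∈ l}) ≤ l.length := by
  classical
  have e : {y : V | y ∈ l} = ((l.toFinset : Finset V) : Set V) := by
    ext x; simp
  rw [e]
  exact (finrank_span_finset_le_card l.toFinset).trans (List.toFinset_card_le l)

theorem NCStab_core (h1 : Stmt_Carter V) (h3 : Stmt_FixIndep V) {Φ : Set V} {L : List V}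
    (h : RS Φ L) {p : V ≃ₗᵢ[ℝ] V} (hp : p ∈ NC Φ (cox L)) (l : List V)
    (hl : l.length = lenT Φ (p⁻¹ * cox L)) (hl2 : cox l = p⁻¹ * cox L) :
    Submodule.map (NCStab_F (cox L)) (fixS p ⊓ Submodule.span ℝ {y : V | y ∈ L}) =
      Submodule.span ℝ {y : V | y ∈ l} := by
  set S := Submodule.span ℝ {y : V | y ∈ L} with hS
  have hsub : Submodule.map (NCStab_F (cox L)) (fixS p ⊓ S) ≤ Submodule.span ℝ {y : V | y ∈ l} := by
    rintro _ ⟨u, hu, rfl⟩
    have hu1 : p u = u := hu.1
    rw [NCStab_F_apply]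
    have e : (cox L)⁻¹ u = cox l.reverse u := by
      rw [cox_reverse, hl2, mul_inv_rev, inv_inv, mulE_apply, hu1]
    rw [e]
    have := sub_cox_mem_span l.reverse u
    have e2 : {x : V | x ∈ l.reverse} = {x : V | x ∈ l} := by ext x; simp
    rwa [e2] at this
  apply Submodule.eq_of_le_of_finrank_le hsub
  refine (NCStab_finrank_le l).trans ?_
  have hinj : Module.finrank ℝ (Submodule.map (NCStab_F (cox L)) (fixS p ⊓ S)) =
      Module.finrank ℝ ((fixS p ⊓ S : Submodule ℝ V)) := by
    have hi : Function.Injective ((NCStab_F (cox L)).domRestrict (fixS p ⊓ S)) := by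
      rw [← LinearMap.ker_eq_bot, LinearMap.ker_eq_bot']
      rintro ⟨x, hx⟩ h0
      have : x = 0 := NCStab_inj h3 h hx.2 h0
      exact Subtype.ext this
    have := LinearMap.finrank_range_of_inj hi
    rw [← this, LinearMap.range_domRestrict]
  rw [hinj]
  have hWp := h1 Φ L h p hp.1
  have hWk := h1 Φ L h _ ((Wg Φ).mul_mem ((Wg Φ).inv_mem hp.1) h.cox_mem)
  have hWc := h1 Φ L h _ h.cox_mem
  have hnc := hp.2
  rw [NCStab_fix h3 h] at hWc
  have hS1 := Submodule.finrank_add_finrank_orthogonal S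
  have hsi := Submodule.finrank_sup_add_finrank_inf_eq (fixS p) S
  have hle := Submodule.finrank_le (fixS p ⊔ S)
  rw [hl]
  have : Module.finrank ℝ (Sᗮ : Submodule ℝ V) =
    Module.finrank ℝ ((Submodule.span ℝ {y : V | y ∈ L})ᗮ : Submodule ℝ V) := rfl
  omega

theorem cNCStab (h1 : Stmt_Carter V) (_h2 : Stmt_Reduced V) (h3 : Stmt_FixIndep V) :
    Stmt_NCStab V := by
  intro Φ L h p hp
  set S := Submodule.span ℝ {y : V | y ∈ L} with hS
  have hκ : p⁻¹ * cox L ∈ Wg Φ := (Wg Φ).mul_mem ((Wg Φ).inv_mem hp.1) h.cox_mem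
  obtain ⟨l, hl, hlΦ, hl2⟩ := NCStab_list hκ
  have hcore := NCStab_core h1 h3 h hp l hl hl2
  set U : Set V := {u : V | u ∈ fixS p ⊓ S ∧ NCStab_F (cox L) u ∈ {y : V | y ∈ l}} with hU
  refine ⟨U, ?_, ?_, ?_⟩
  · have hf : {y : V | y ∈ l}.Finite := List.finite_toSet l
    refine Set.Finite.of_finite_image (f := NCStab_F (cox L)) (hf.subset ?_) ?_
    · rintro _ ⟨u, hu, rfl⟩
      exact hu.2
    · intro x hx y hy hxy
      have hd : x - y ∈ S := S.sub_mem hx.1.2 hy.1.2
      have h0 : NCStab_F (cox L) (x - y) = 0 := by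
        rw [map_sub]; exact sub_eq_zero.2 hxy
      exact sub_eq_zero.1 (NCStab_inj h3 h hd h0)
  · intro u hu
    have hb : NCStab_F (cox L) u ∈ Φ := hlΦ _ hu.2
    rw [NCStab_F_apply] at hb
    show u - cox L u ∈ Φ
    have e : u - cox L u = -(cox L (u - (cox L)⁻¹ u)) := by
      rw [map_sub, applyE_inv_self]; abel
    rw [e]
    exact h.neg_mem (h.map_mem h.cox_mem hb)
  · intro w hw
    constructor
    · intro hwp u hu
      exact hwp.2 u hu.1.1
    · intro hwU
      refine ⟨hw, ?_⟩
      have hspan : fixS p ⊓ S ≤ Submodule.span ℝ U := by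
        intro v hv
        have hFv : NCStab_F (cox L) v ∈ Submodule.map (NCStab_F (cox L)) (Submodule.span ℝ U) := by
          have : NCStab_F (cox L) v ∈ Submodule.span ℝ {y : V | y ∈ l} := by
            rw [← hcore]; exact ⟨v, hv, rfl⟩
          rw [Submodule.map_span]
          refine Submodule.span_mono ?_ this
          intro b hb
          have hb' : b ∈ Submodule.map (NCStab_F (cox L)) (fixS p ⊓ S) := by
            rw [hcore]; exact Submodule.subset_span hb
          obtain ⟨u, hu, hub⟩ := hb'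
          exact ⟨u, ⟨hu, by rw [hub]; exact hb⟩, hub⟩
        obtain ⟨u, hu, huv⟩ := hFv
        have hUS : Submodule.span ℝ U ≤ S := by
          rw [Submodule.span_le]
          intro x hx
          exact hx.1.2
        have hd : v - u ∈ S := S.sub_mem hv.2 (hUS hu)
        have h0 : NCStab_F (cox L) (v - u) = 0 := by
          rw [map_sub, huv, sub_self]
        have := sub_eq_zero.1 (NCStab_inj h3 h hd h0)
        rw [this]; exact hu
      have hwspan : ∀ x ∈ Submodule.span ℝ U, w x = x := by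
        intro x hx
        induction hx using Submodule.span_induction with
        | mem x hx => exact hwU x hx
        | zero => simp
        | add x y _ _ h1 h2 => rw [map_add, h1, h2]
        | smul r x _ h1 => rw [map_smul, h1]
      intro v hv
      obtain ⟨s, hs, t, ht, rfl⟩ := S.exists_add_mem_mem_orthogonal v
      have ht' : ∀ b ∈ Φ, ⟪t, b⟫_ℝ = 0 := by
        apply h.orth_all
        intro a ha
        rw [real_inner_comm]
        exact (Submodule.mem_orthogonal S t).1 ht a (Submodule.subset_span ha)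
      have hpt : p t = t := Wg_fix_orth hp.1 ht'
      have hwt : w t = t := Wg_fix_orth hw ht'
      have hps : p s = s := by
        rw [map_add, hpt] at hv
        exact add_right_cancel hv
      have : w s = s := hwspan s (hspan ⟨hps, hs⟩)
      rw [map_add, this, hwt]

end

end Pool.Agent.CPF
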