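import Pool.Agent.CPF.Basic

/-!
Module NCUniq for MP_b68fb8_co: an element of NC is determined by its fixed space.
-/

namespace Pool.Agent.CPF

open scoped InnerProductSpace NNReal

section
variable {V : Type*} [NormedAddCommGroup V] [InnerProductSpace ℝ V] [FiniteDimensional ℝ V]

omit [FiniteDimensional ℝ V] in
theorem NCUniq_mem_fixS {g : V ≃ₗᵢ[ℝ] V} {v : V} : v ∈ fixS g ↔ g v = v := Iff.rfl

omit [FiniteDimensional ℝ V] in
theorem NCUniq_inv_mem {Φ : Set V} {L : List V} (h : RS Φ L) {p : V ≃ₗᵢ[ℝ] V}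
    (hp : p ∈ NC Φ (cox L)) : p⁻¹ * cox L ∈ Wg Φ :=
  (Wg Φ).mul_mem ((Wg Φ).inv_mem hp.1) h.cox_mem

omit [FiniteDimensional ℝ V] in
theorem NCUniq_finrank (h1 : Stmt_Carter V) {Φ : Set V} {L : List V} (h : RS Φ L)
    {p : V ≃ₗᵢ[ℝ] V} (hp : p ∈ NC Φ (cox L)) :
    Module.finrank ℝ (fixS p) + Module.finrank ℝ (fixS (p⁻¹ * cox L)) =
      Module.finrank ℝ V + Module.finrank ℝ (fixS (cox L)) := by
  have e1 := h1 Φ L h p hp.1
  have e2 := h1 Φ L h _ (NCUniq_inv_mem h hp)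
  have e3 := h1 Φ L h _ h.cox_mem
  have e4 := hp.2
  omega

theorem NCUniq_sup (h1 : Stmt_Carter V) {Φ : Set V} {L : List V} (h : RS Φ L)
    {p : V ≃ₗᵢ[ℝ] V} (hp : p ∈ NC Φ (cox L)) :
    fixS p ⊔ fixS (p⁻¹ * cox L) = ⊤ := by
  have e1 := NCUniq_finrank h1 h hp
  have e2 := Submodule.finrank_sup_add_finrank_inf_eq (fixS p) (fixS (p⁻¹ * cox L))
  have e3 : Module.finrank ℝ ((fixS p ⊓ fixS (p⁻¹ * cox L) : Submodule ℝ V)) ≤
      Module.finrank ℝ (fixS (cox L)) := by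
    apply Submodule.finrank_mono
    intro v hv
    have hv1 : p v = v := hv.1
    have hv2 : (p⁻¹ * cox L) v = v := hv.2
    show cox L v = v
    rw [mulE_apply] at hv2
    have := congrArg p hv2
    rw [applyE_inv_self] at this
    rw [this, hv1]
  apply Submodule.eq_top_of_finrank_eq
  have e4 := Submodule.finrank_le (fixS p ⊔ fixS (p⁻¹ * cox L))
  omega

theorem NCUniq_fix (h1 : Stmt_Carter V) {Φ : Set V} {L : List V} (h : RS Φ L)
    {p : V ≃ₗᵢ[ℝ] V} (hp : p ∈ NC Φ (cox L)) (v : V) :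
    (p⁻¹ * cox L) v = v ↔ ∀ u ∈ fixS p, ⟪v, u - (cox L)⁻¹ u⟫_ℝ = 0 := by
  set κ := p⁻¹ * cox L with hκ
  have hc : ∀ u ∈ fixS p, (cox L)⁻¹ u = κ⁻¹ u := by
    intro u hu
    have hu' : p u = u := hu
    have e : κ⁻¹ = (cox L)⁻¹ * p := by rw [hκ, mul_inv_rev, inv_inv]
    rw [e, mulE_apply, hu']
  constructor
  · intro hv u hu
    rw [hc u hu, inner_sub_right]
    have e : ⟪v, κ⁻¹ u⟫_ℝ = ⟪κ v, u⟫_ℝ := by
      rw [real_inner_comm, inner_invE, real_inner_comm]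
    rw [e, hv, sub_self]
  · intro hv
    have hall : ∀ x ∈ (fixS p ⊔ fixS κ), ⟪v - κ v, x⟫_ℝ = 0 := by
      intro x hx
      obtain ⟨u, hu, w, hw, rfl⟩ := Submodule.mem_sup.1 hx
      rw [inner_add_right]
      have e1 : ⟪v - κ v, u⟫_ℝ = 0 := by
        have := hv u hu
        rw [hc u hu, inner_sub_right] at this
        rw [inner_sub_left]
        have e : ⟪v, κ⁻¹ u⟫_ℝ = ⟪κ v, u⟫_ℝ := by
          rw [real_inner_comm, inner_invE, real_inner_comm]
        rw [← e]; exact this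
      have e2 : ⟪v - κ v, w⟫_ℝ = 0 := by
        have hw' : κ w = w := hw
        rw [inner_sub_left]
        have : ⟪κ v, w⟫_ℝ = ⟪v, w⟫_ℝ := by
          conv_lhs => rw [← hw']
          rw [inner_mapE]
        rw [this, sub_self]
      rw [e1, e2, add_zero]
    have htop : fixS p ⊔ fixS κ = ⊤ := NCUniq_sup h1 h hp
    have := hall (v - κ v) (by rw [htop]; exact Submodule.mem_top)
    have h0 : v - κ v = 0 := inner_self_eq_zero.1 this
    exact (sub_eq_zero.1 h0).symm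

theorem cNCUniq (h1 : Stmt_Carter V) (_h2 : Stmt_Reduced V) (_h3 : Stmt_FixIndep V) :
    Stmt_NCUniq V := by
  intro Φ L h p hp q hq hpq
  have hfix : fixS (p⁻¹ * cox L) = fixS (q⁻¹ * cox L) := by
    ext v
    rw [NCUniq_mem_fixS, NCUniq_mem_fixS, NCUniq_fix h1 h hp v, NCUniq_fix h1 h hq v, hpq]
  have hsup := NCUniq_sup h1 h hp
  have key : ∀ x : V, (p⁻¹ * cox L)⁻¹ x = (q⁻¹ * cox L)⁻¹ x := by
    intro x
    have hx : x ∈ fixS p ⊔ fixS (p⁻¹ * cox L) := by rw [hsup]; exact Submodule.mem_top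
    obtain ⟨u, hu, w, hw, rfl⟩ := Submodule.mem_sup.1 hx
    rw [map_add, map_add]
    congr 1
    · have hu1 : p u = u := hu
      have hu2 : q u = u := by rw [hpq] at hu; exact hu
      rw [mul_inv_rev, mul_inv_rev, inv_inv, inv_inv, mulE_apply, mulE_apply, hu1, hu2]
    · have hw1 : (p⁻¹ * cox L) w = w := hw
      have hw2 : (q⁻¹ * cox L) w = w := by rw [hfix] at hw; exact hw
      have a1 : (p⁻¹ * cox L)⁻¹ w = w := by
        conv_lhs => rw [← hw1]
        rw [invE_apply_self]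
      have a2 : (q⁻¹ * cox L)⁻¹ w = w := by
        conv_lhs => rw [← hw2]
        rw [invE_apply_self]
      rw [a1, a2]
  have e : (p⁻¹ * cox L)⁻¹ = (q⁻¹ * cox L)⁻¹ := by
    ext x; exact key x
  have e2 : p⁻¹ * cox L = q⁻¹ * cox L := inv_injective e
  have e3 : p⁻¹ = q⁻¹ := mul_right_cancel e2
  exact inv_injective e3

end

end Pool.Agent.CPF
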