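import Pool.Agent.CPF.Basic

/-!
Module OrbDom: the orbit lemma for a dominant vector.
-/

namespace Pool.Agent.CPF

open scoped InnerProductSpace NNReal

variable {V : Type*} [NormedAddCommGroup V] [InnerProductSpace ℝ V] [FiniteDimensional ℝ V]

omit [FiniteDimensional ℝ V] in
/-- (H1) -/
theorem OrbDom_H1 (hT : Stmt_T V) (hH : Stmt_H0 V) (hS : Stmt_Stab V) {Φ : Set V} {L : List V}
    (h : RS Φ L) {v : V} (hv : Dom L v) {u : V} (hu : u ∈ VV Φ L) {w : V ≃ₗᵢ[ℝ] V}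
    (hw : w ∈ Wg Φ) (hwu : w u = u) : v - w v ∈ cone (posP (perp Φ u) L) := by
  obtain ⟨D, hD, -, hDL⟩ := hT Φ L u h hu
  have h1 : w ∈ Wg (perp Φ u) := hS Φ L h u w hw hwu
  have h2 : Dom D v := by
    intro d hd
    exact cone_inner_nonneg (fun s hs => hv s hs) (hDL d hd)
  have h3 := hH (perp Φ u) D hD v h2 w h1
  refine cone_mono ?_ h3
  intro d hd
  exact ⟨hD.sub d hd, hDL d hd⟩

theorem cOrbDom (hT : Stmt_T V) (hH : Stmt_H0 V) (hS : Stmt_Stab V) (hX : Stmt_X V)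
    (hF : Stmt_WFin V) : Stmt_OrbDom V := by
  intro Φ L h v hv Γ hΓ hΓV z hz
  obtain ⟨ρ, hρ1, hρ2⟩ := h.exists_rho
  -- the subgroup fixing `Γ`
  have hfin : {g : V ≃ₗᵢ[ℝ] V | g ∈ Wg Φ ∧ ∀ u ∈ Γ, g u = u}.Finite :=
    (hF Φ h.fin h.cl).subset fun g hg => hg.1
  have hne : {g : V ≃ₗᵢ[ℝ] V | g ∈ Wg Φ ∧ ∀ u ∈ Γ, g u = u}.Nonempty :=
    ⟨1, (Wg Φ).one_mem, fun u _ => oneE_apply u⟩
  obtain ⟨g, ⟨hg1, hg2⟩, hmax⟩ := Set.exists_max_image _ (fun g : V ≃ₗᵢ[ℝ] V => ⟪ρ, g z⟫_ℝ) hfin hne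
  -- (H1) for all `u`
  have h1 : ∀ u ∈ Γ, v - g z ∈ cone (posP (perp Φ u) L) := by
    intro u hu
    obtain ⟨w, hw1, hw2, hw3⟩ := hz u hu
    have h2 : (g * w) ∈ Wg Φ := (Wg Φ).mul_mem hg1 hw1
    have h3 : (g * w) u = u := by
      rw [mulE_apply, hw2, hg2 u hu]
    have h4 := OrbDom_H1 hT hH hS h hv (hΓV hu) h2 h3
    rw [mulE_apply, hw3] at h4
    exact h4
  have h2 := hX Φ L Γ (v - g z) h hΓ hΓV h1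
  -- positivity
  have h3 : ∀ b ∈ posP {b : V | b ∈ Φ ∧ ∀ v ∈ Γ, ⟪v, b⟫_ℝ = 0} L, 0 ≤ ⟪g z, b⟫_ℝ := by
    rintro b ⟨⟨hbΦ, hbΓ⟩, hbL⟩
    have hb0 : b ≠ 0 := h.ne0 b hbΦ
    have hbb : 0 < ⟪b, b⟫_ℝ := real_inner_self_pos.2 hb0
    have hρb : 0 < ⟪ρ, b⟫_ℝ := hρ2 b ⟨hbΦ, hbL⟩
    have h4 := hmax (refl b * g) ⟨(Wg Φ).mul_mem (refl_mem_Wg hbΦ) hg1, by
      intro u hu
      rw [mulE_apply, hg2 u hu]
      exact refl_of_orth (hbΓ u hu)⟩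
    simp only [mulE_apply] at h4
    rw [refl_apply, inner_sub_right, inner_smul_right] at h4
    by_contra hneg
    push Not at hneg
    have h5 : 2 * ⟪g z, b⟫_ℝ / ⟪b, b⟫_ℝ < 0 := div_neg_of_neg_of_pos (by linarith) hbb
    have h6 : 2 * ⟪g z, b⟫_ℝ / ⟪b, b⟫_ℝ * ⟪ρ, b⟫_ℝ < 0 := mul_neg_of_neg_of_pos h5 hρb
    linarith
  have h4 : 0 ≤ ⟪g z, v - g z⟫_ℝ := cone_inner_nonneg h3 h2
  have h5 : 0 ≤ ⟪v, v - g z⟫_ℝ := by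
    refine cone_inner_nonneg (S := posP {b : V | b ∈ Φ ∧ ∀ v ∈ Γ, ⟪v, b⟫_ℝ = 0} L) ?_ h2
    rintro b ⟨-, hbL⟩
    exact cone_inner_nonneg (fun s hs => hv s hs) hbL
  have h6 : ⟪g z, g z⟫_ℝ = ⟪v, v⟫_ℝ := by
    obtain ⟨u, hu⟩ := hΓ
    obtain ⟨w, -, -, hw3⟩ := hz u hu
    rw [inner_mapE, ← hw3, inner_mapE]
  have h7 : ⟪v - g z, v - g z⟫_ℝ = 0 := by
    have e1 : ⟪v - g z, v - g z⟫_ℝ = ⟪v, v - g z⟫_ℝ - ⟪g z, v - g z⟫_ℝ := inner_sub_left _ _ _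
    have e2 : ⟪v, v - g z⟫_ℝ = ⟪v, v⟫_ℝ - ⟪v, g z⟫_ℝ := inner_sub_right _ _ _
    have e3 : ⟪g z, v - g z⟫_ℝ = ⟪g z, v⟫_ℝ - ⟪g z, g z⟫_ℝ := inner_sub_right _ _ _
    have e4 : ⟪g z, v⟫_ℝ = ⟪v, g z⟫_ℝ := real_inner_comm _ _
    linarith
  have h8 : v - g z = 0 := inner_self_eq_zero.1 h7
  have h9 : g z = v := (sub_eq_zero.1 h8).symm
  refine ⟨g⁻¹, (Wg Φ).inv_mem hg1, ?_, ?_⟩
  · intro u hu
    have h10 := invE_apply_self g u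
    rwa [hg2 u hu] at h10
  · rw [← h9]
    exact invE_apply_self g z

end Pool.Agent.CPF
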