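import Pool.Agent.CPF.Basic

/-!
Module OrbHelly: the orbit lemma for all vectors of `VV Φ L` and the Helly property.
-/

namespace Pool.Agent.CPF

open scoped InnerProductSpace NNReal

section
variable {V : Type*} [NormedAddCommGroup V] [InnerProductSpace ℝ V] [FiniteDimensional ℝ V]

omit [FiniteDimensional ℝ V] in
/-- Base case: the vector `v` or `-v` is dominant. -/
theorem OrbHelly_dom (hF : Stmt_FixIndep V) {Φ : Set V} {a : V} {L₁ : List V}
    (h : RS Φ (a :: L₁)) {v : V}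
    (hv : v - cox (a :: L₁) v = a ∨ v - cox (a :: L₁) v = -a) :
    Dom (a :: L₁) v ∨ Dom (a :: L₁) (-v) := by
  have haΦ : a ∈ Φ := h.sub a (by simp)
  have ha0 : a ≠ 0 := h.ne0 a haΦ
  have haa : 0 < ⟪a, a⟫_ℝ := real_inner_self_pos.2 ha0
  obtain ⟨ε, hε, hve⟩ : ∃ ε : ℝ, (ε = 1 ∨ ε = -1) ∧ v - cox (a :: L₁) v = ε • a := by
    rcases hv with hv | hv
    · exact ⟨1, Or.inl rfl, by rw [hv, one_smul]⟩
    · exact ⟨-1, Or.inr rfl, by rw [hv, neg_one_smul]⟩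
  have h1 : refl a v - cox L₁ v = -(ε • a) := by
    have e1 : refl a (v - cox (a :: L₁) v) = refl a (ε • a) := by rw [hve]
    rw [map_sub, cox_cons, mulE_apply, refl_refl, map_smul, refl_self, smul_neg] at e1
    exact e1
  have h2 : v - cox L₁ v = (2 * ⟪v, a⟫_ℝ / ⟪a, a⟫_ℝ - ε) • a := by
    rw [refl_apply] at h1
    rw [sub_smul]
    have e2 : v - cox L₁ v = (v - (2 * ⟪v, a⟫_ℝ / ⟪a, a⟫_ℝ) • a - cox L₁ v) +
        (2 * ⟪v, a⟫_ℝ / ⟪a, a⟫_ℝ) • a := by abel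
    rw [e2, h1]
    abel
  have h3 := sub_cox_mem_span L₁ v
  rw [h2] at h3
  have h4 : 2 * ⟪v, a⟫_ℝ / ⟪a, a⟫_ℝ - ε = 0 := by
    by_contra hne
    exact h.head_notMem_span ((Submodule.smul_mem_iff _ hne).1 h3)
  have h5 : cox L₁ v = v := by
    rw [h4, zero_smul] at h2
    exact (sub_eq_zero.1 h2).symm
  have hnd : L₁.Nodup := (List.nodup_cons.1 h.nd).2
  have hli : LinearIndepOn ℝ id {x : V | x ∈ L₁} :=
    h.li.mono (fun x hx => List.mem_cons_of_mem a hx)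
  have h6 := (hF L₁ hnd hli v).1 h5
  have h7 : ⟪v, a⟫_ℝ = ε * ⟪a, a⟫_ℝ / 2 := by
    have e3 : 2 * ⟪v, a⟫_ℝ / ⟪a, a⟫_ℝ = ε := by linarith
    rw [div_eq_iff haa.ne'] at e3
    linarith
  rcases hε with rfl | rfl
  · left
    intro b hb
    rcases List.mem_cons.1 hb with rfl | hb
    · rw [h7]; positivity
    · exact (h6 b hb).ge
  · right
    intro b hb
    rw [inner_neg_left]
    rcases List.mem_cons.1 hb with rfl | hb
    · rw [h7]
      linarith
    · rw [h6 b hb]; simp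

/-- The orbit lemma. -/
theorem cOrb (h1 : Stmt_RotRoot V) (h2 : Stmt_OrbDom V) (h3 : Stmt_FixIndep V) : Stmt_Orb V := by
  intro Φ L h v hv Γ hΓ z hz0 hz
  rcases Set.eq_empty_or_nonempty Γ with rfl | hne
  · obtain ⟨w, hw, hwz⟩ := hz0
    exact ⟨w, hw, fun u hu => absurd hu (Set.notMem_empty u), hwz⟩
  have key : ∀ x ∈ Pos Φ L, ∀ v : V, (v - cox L v = x ∨ v - cox L v = -x) →
      ∀ Γ : Set V, Γ.Nonempty → Γ ⊆ VV Φ L → ∀ z : V,
      (∀ u ∈ Γ, ∃ w ∈ Wg Φ, w u = u ∧ w v = z) →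
      ∃ w ∈ Wg Φ, (∀ u ∈ Γ, w u = u) ∧ w v = z := by
    refine h1 Φ L h (fun L' x => ∀ v : V, (v - cox L' v = x ∨ v - cox L' v = -x) →
      ∀ Γ : Set V, Γ.Nonempty → Γ ⊆ VV Φ L' → ∀ z : V,
      (∀ u ∈ Γ, ∃ w ∈ Wg Φ, w u = u ∧ w v = z) →
      ∃ w ∈ Wg Φ, (∀ u ∈ Γ, w u = u) ∧ w v = z) ?_ ?_
    · intro a L₁ hR _ v hv Γ hne hΓ z hz
      rcases OrbHelly_dom h3 hR hv with hd | hd
      · exact h2 Φ (a :: L₁) hR v hd Γ hne hΓ z hz
      · obtain ⟨w, hw, hw1, hw2⟩ := h2 Φ (a :: L₁) hR (-v) hd Γ hne hΓ (-z) (by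
          intro u hu
          obtain ⟨w, hw, hw1, hw2⟩ := hz u hu
          exact ⟨w, hw, hw1, by rw [map_neg, hw2]⟩)
        refine ⟨w, hw, hw1, ?_⟩
        rw [map_neg] at hw2
        exact neg_injective hw2
    · intro a L₁ x hR _ _ _ hQ v hv Γ hne hΓ z hz
      have haΦ : a ∈ Φ := hR.sub a (by simp)
      obtain ⟨w, hw, hw1, hw2⟩ := hQ (refl a v) (by
          rw [sub_cox_rot]
          rcases hv with hv | hv
          · left; rw [hv]
          · right; rw [hv, map_neg]) (refl a '' Γ) (hne.image _) (by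
          rintro _ ⟨u, hu, rfl⟩
          exact VV_rot (fun b hb => hR.cl a haΦ b hb) (hΓ hu)) (refl a z) (by
          rintro _ ⟨u, hu, rfl⟩
          obtain ⟨w, hw, hw1, hw2⟩ := hz u hu
          refine ⟨refl a * w * refl a, (Wg Φ).mul_mem ((Wg Φ).mul_mem (refl_mem_Wg haΦ) hw)
            (refl_mem_Wg haΦ), ?_, ?_⟩
          · rw [mulE_apply, mulE_apply, refl_refl, hw1]
          · rw [mulE_apply, mulE_apply, refl_refl, hw2])
      refine ⟨refl a * w * refl a, (Wg Φ).mul_mem ((Wg Φ).mul_mem (refl_mem_Wg haΦ) hw)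
            (refl_mem_Wg haΦ), ?_, ?_⟩
      · intro u hu
        rw [mulE_apply, mulE_apply, hw1 (refl a u) (Set.mem_image_of_mem _ hu), refl_refl]
      · rw [mulE_apply, mulE_apply, hw2, refl_refl]
  have hv' : v - cox L v ∈ Φ := hv
  rcases h.pos_or hv' with hp | hp
  · exact key _ hp v (Or.inl rfl) Γ hne hΓ z hz
  · exact key _ hp v (Or.inr (neg_neg _).symm) Γ hne hΓ z hz

omit [FiniteDimensional ℝ V] in
/-- The Helly property. -/
theorem cHelly (h : Stmt_Orb V) : Stmt_Helly V := by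
  intro Φ L hR A hA
  induction A, hA using Set.Finite.induction_on with
  | empty =>
    intro _ _
    exact ⟨1, (Wg Φ).one_mem, fun p hp => absurd hp (Set.notMem_empty p)⟩
  | @insert p A' hpA hA' ih =>
    intro hV hW
    obtain ⟨w', hw', hw'1⟩ := ih (fun q hq => hV q (Set.mem_insert_of_mem p hq))
      (fun q hq r hr => hW q (Set.mem_insert_of_mem p hq) r (Set.mem_insert_of_mem p hr))
    have hpp := hW p (Set.mem_insert p A') p (Set.mem_insert p A')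
    obtain ⟨w, hw, hw1, hw2⟩ := h Φ L hR p.1 (hV p (Set.mem_insert p A')) (Prod.fst '' A')
      (by
        rintro _ ⟨q, hq, rfl⟩
        exact hV q (Set.mem_insert_of_mem p hq)) (w'⁻¹ p.2)
      (by
        obtain ⟨w, hw, hw1, -⟩ := hpp
        exact ⟨w'⁻¹ * w, (Wg Φ).mul_mem ((Wg Φ).inv_mem hw') hw, by rw [mulE_apply, hw1]⟩)
      (by
        rintro _ ⟨q, hq, rfl⟩
        obtain ⟨w, hw, hw1, hw2⟩ := hW q (Set.mem_insert_of_mem p hq) p (Set.mem_insert p A')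
        refine ⟨w'⁻¹ * w, (Wg Φ).mul_mem ((Wg Φ).inv_mem hw') hw, ?_, ?_⟩
        · rw [mulE_apply, hw1, ← hw'1 q hq, invE_apply_self]
        · rw [mulE_apply, hw2])
    refine ⟨w' * w, (Wg Φ).mul_mem hw' hw, ?_⟩
    intro q hq
    rcases Set.mem_insert_iff.1 hq with rfl | hq
    · rw [mulE_apply, hw2, applyE_inv_self]
    · rw [mulE_apply, hw1 q.1 ⟨q, hq, rfl⟩, hw'1 q hq]

end

end Pool.Agent.CPF
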