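import Pool.Agent.CPF.Basic

/-!
Every face of the cluster complex has exactly one product.
-/

namespace Pool.Agent.CPF

open scoped InnerProductSpace NNReal

theorem produniq_mem {V : Type*} [NormedAddCommGroup V] [InnerProductSpace ℝ V]
    {Φ : Set V} {P Q : List V} {m : ℕ} (h : Bip Φ P Q) {a : V × ℕ}
    (ha : a ∈ CAP Φ (P ++ Q) m) : a.1 ∈ Φ := by
  rcases ha with ha | ha
  · exact ha.1.1
  · have h1 : -a.1 ∈ Φ := h.rs.sub _ ha.1
    have h2 := h.rs.neg_mem h1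
    rwa [neg_neg] at h2

theorem produniq_capmem {V : Type*} [NormedAddCommGroup V] [InnerProductSpace ℝ V]
    {Φ : Set V} {P Q P' Q' : List V} {m : ℕ} (h : Bip Φ P Q)
    (hc : (P' = P ∧ Q' = Q) ∨ (P' = Q ∧ Q' = P)) {f : Finset (V × ℕ)}
    (hf : Face Φ P' Q' m f) : ∀ a ∈ f, a.1 ∈ Φ := by
  intro a ha
  have h1 := hf.1 a ha
  rcases hc with ⟨rfl, rfl⟩ | ⟨rfl, rfl⟩
  · exact produniq_mem h h1
  · rcases h1 with h1 | h1
    · exact h1.1.1
    · have h3 : -a.1 ∈ Q' ++ P' := by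
        have := h1.1
        rw [List.mem_append] at this ⊢
        exact this.symm
      have h2 := h.rs.neg_mem (h.rs.sub _ h3)
      rwa [neg_neg] at h2

theorem produniq_fix {V : Type*} [NormedAddCommGroup V] [InnerProductSpace ℝ V]
    [FiniteDimensional ℝ V] (hR : Stmt_Reduced V) (hFI : Stmt_FixIndep V)
    {Φ : Set V} {L : List V} (h : RS Φ L) {l : List (V × ℕ)} (hl : ∀ a ∈ l, a.1 ∈ Φ)
    (hlen : lenT Φ (cox (l.map Prod.fst)) = l.length) (v : V) :
    cox (l.map Prod.fst) v = v ↔ ∀ a ∈ l, ⟪v, a.1⟫_ℝ = 0 := by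
  have h1 : ∀ a ∈ l.map Prod.fst, a ∈ Φ := by
    intro a ha
    rw [List.mem_map] at ha
    obtain ⟨b, hb, rfl⟩ := ha
    exact hl b hb
  have h2 := (hR Φ L h (l.map Prod.fst) h1).1 (by rw [hlen, List.length_map])
  rw [hFI (l.map Prod.fst) h2.1 h2.2 v]
  constructor
  · intro h3 a ha
    exact h3 a.1 (List.mem_map_of_mem ha)
  · intro h3 a ha
    rw [List.mem_map] at ha
    obtain ⟨b, hb, rfl⟩ := ha
    exact h3 b hb

theorem cProdUniq {V : Type*} [NormedAddCommGroup V] [InnerProductSpace ℝ V]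
    [FiniteDimensional ℝ V] (hL : Stmt_Listing2 V) (hN : Stmt_NCList V)
    (hR : Stmt_Reduced V) (hFI : Stmt_FixIndep V) (hU : Stmt_NCUniq V) :
    Stmt_ProdUniq V := by
  intro Φ P Q P' Q' m hB hm hc f hf
  have hmem := produniq_capmem hB hc hf
  obtain ⟨l, hnd, hlf, hpw⟩ := hL Φ P Q P' Q' m hB hm hc f hf
  have hl : ∀ a ∈ l.map Prod.fst, a ∈ Φ := by
    intro a ha
    rw [List.mem_map] at ha
    obtain ⟨b, hb, rfl⟩ := ha
    exact hmem b ((hlf b).1 hb)
  have hpw' : (l.map Prod.fst).Pairwise (fun a b => Bf (P ++ Q) a b = 0) := by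
    rw [List.pairwise_map]
    exact hpw
  have hNC := hN Φ (P ++ Q) hB.rs (l.map Prod.fst) hl hpw'
  rw [cox_append] at hNC
  refine ⟨cox (l.map Prod.fst), ⟨hNC.1, l, hnd, hlf, rfl, ?_⟩, ?_⟩
  · rw [hNC.2, List.length_map]
  · rintro q ⟨hq, l2, hnd2, hlf2, rfl, hlen2⟩
    have hNC1 := hNC.1
    rw [← cox_append] at hq hNC1
    apply hU Φ (P ++ Q) hB.rs _ hq _ hNC1
    have hlen1 : lenT Φ (cox (l.map Prod.fst)) = l.length := by
      rw [hNC.2, List.length_map]
    ext v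
    have e1 := produniq_fix hR hFI hB.rs (l := l)
      (fun a ha => hmem a ((hlf a).1 ha)) hlen1 v
    have e2 := produniq_fix hR hFI hB.rs (l := l2)
      (fun a ha => hmem a ((hlf2 a).1 ha)) hlen2 v
    change cox (l2.map Prod.fst) v = v ↔ cox (l.map Prod.fst) v = v
    rw [e1, e2]
    constructor
    · intro h a ha
      exact h a ((hlf2 a).2 ((hlf a).1 ha))
    · intro h a ha
      exact h a ((hlf a).2 ((hlf2 a).1 ha))

end Pool.Agent.CPF
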