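import Pool.Agent.CPF.Basic

/-!
Modules Rank and Y for MP_b68fb8_co.
-/

namespace Pool.Agent.CPF

open scoped InnerProductSpace NNReal

section
variable {V : Type*} [NormedAddCommGroup V] [InnerProductSpace ℝ V] [FiniteDimensional ℝ V]

omit [FiniteDimensional ℝ V] in
/-- membership in the cone over one vector -/
theorem rankY_cone_single {a v : V} {S : Set V} (hS : ∀ s ∈ S, s = a) (hv : v ∈ cone S) :
    ∃ r : ℝ, 0 ≤ r ∧ v = r • a := by
  refine cone_ind (p := fun v => ∃ r : ℝ, 0 ≤ r ∧ v = r • a) ?_ ?_ hv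
  · exact ⟨0, le_refl _, by simp⟩
  · intro r s v hr hs _ ih
    obtain ⟨r', hr', rfl⟩ := ih
    rw [hS s hs]
    exact ⟨r + r', add_nonneg hr hr', by rw [add_smul]⟩

/-- simple roots are extremal -/
theorem rankY_ext {Φ Ψ : Set V} {M : List V} (h : RS Ψ M)
    (red : ∀ a ∈ Φ, ∀ r : ℝ, r • a ∈ Φ → r = 1 ∨ r = -1) {a : V} (ha : a ∈ M) (haΦ : a ∈ Φ)
    {S : Set V} (hSΦ : ∀ s ∈ S, s ∈ Φ) (hSM : ∀ s ∈ S, s ∈ cone {x : V | x ∈ M})
    (haS : a ∈ cone S) : a ∈ S := by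
  classical
  have ha0 : a ≠ 0 := h.ne0 a (h.sub a ha)
  obtain ⟨y, -, hy⟩ := h.exists_inner (fun x => if x = a then 0 else 1)
  have hnn : ∀ x ∈ M, 0 ≤ ⟪y, x⟫_ℝ := by
    intro x hx
    rw [hy x hx]
    split_ifs
    · exact le_refl _
    · exact zero_le_one
  have h1 := cone_inter_of_face (innerₛₗ ℝ y) (S := S)
    (fun s hs => cone_inner_nonneg (S := {x : V | x ∈ M}) hnn (hSM s hs)) haS (by
      show ⟪y, a⟫_ℝ = 0
      rw [hy a ha, if_pos rfl])
  have hne : ∃ s, s ∈ {s : V | s ∈ S ∧ innerₛₗ ℝ y s = 0} := by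
    by_contra hno
    apply ha0
    obtain ⟨r, -, hr⟩ := rankY_cone_single (a := 0) (fun s hs => absurd ⟨s, hs⟩ hno) h1
    simpa using hr
  obtain ⟨s, hs, hs0⟩ := hne
  have h2 := cone_inter_of_face (innerₛₗ ℝ y) (S := {x : V | x ∈ M}) hnn (hSM s hs) hs0
  obtain ⟨r, hr0, hr⟩ := rankY_cone_single (a := a) (fun x hx => by
    by_contra hxa
    have h3 : ⟪y, x⟫_ℝ = 0 := hx.2
    rw [hy x hx.1, if_neg hxa] at h3
    exact one_ne_zero h3) h2
  have h4 : s ∈ Φ := hSΦ s hs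
  rw [hr] at h4
  rcases red a haΦ r h4 with h5 | h5
  · rw [hr, h5, one_smul] at hs
    exact hs
  · rw [h5] at hr0
    linarith

theorem cRank : Stmt_Rank V := by
  intro Φ a L₁ h
  have haL : a ∈ a :: L₁ := List.mem_cons_self
  have haΦ : a ∈ Φ := h.sub a haL
  constructor
  · constructor
    · exact h.fin.subset fun b hb => hb.1
    · exact fun b hb => h.ne0 b hb.1
    · exact fun b hb r hr => h.red b hb.1 r hr.1
    · intro b hb c hc
      refine ⟨h.cl b hb.1 c hc.1, ?_⟩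
      rw [refl_apply]
      exact Submodule.sub_mem _ hc.2 (Submodule.smul_mem _ _ hb.2)
    · exact fun b hb => ⟨h.sub b (List.mem_cons_of_mem _ hb), Submodule.subset_span hb⟩
    · exact (List.nodup_cons.1 h.nd).2
    · exact h.li.mono fun b hb => List.mem_cons_of_mem _ hb
    · intro b hb
      obtain ⟨φ, -, h2, -, -, h5⟩ := h.coef
      exact h5 b hb.1 (h2 b hb.2)
  · intro v hv hva
    have hv' : v - cox (a :: L₁) v ∈ Φ := hv
    have h1 : refl a (v - cox (a :: L₁) v) = v - cox L₁ v := by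
      rw [map_sub, refl_of_orth hva, cox_cons, mulE_apply, refl_refl]
    refine ⟨?_, sub_cox_mem_span L₁ v⟩
    rw [← h1]
    exact h.cl a haΦ _ hv'

theorem cY (hT : Stmt_T V) (hR : Stmt_Rank V) : Stmt_Y V := by
  intro Φ a L₁ v h hv hva b hb
  have haL : a ∈ a :: L₁ := List.mem_cons_self
  have haΦ : a ∈ Φ := h.sub a haL
  obtain ⟨D, hD, hDlen, hDpos⟩ := hT Φ (a :: L₁) v h hv
  obtain ⟨hJ, hJv⟩ := hR Φ a L₁ h
  obtain ⟨D0, hD0, hD0len, hD0pos⟩ := hT _ L₁ v hJ (hJv v hv hva)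
  have hmono : ∀ x ∈ cone {x : V | x ∈ L₁}, x ∈ cone {x : V | x ∈ a :: L₁} := fun x hx =>
    cone_mono (fun y hy => List.mem_cons_of_mem _ hy) hx
  -- positive roots orthogonal to v are in the cone of D
  have hposD : ∀ x ∈ perp Φ v, x ∈ cone {x : V | x ∈ a :: L₁} → x ∈ cone {x : V | x ∈ D} := by
    intro x hx hxc
    rcases hD.pm x hx with h1 | h1
    · exact h1
    · exact absurd (h.pointed hxc (cone_le (fun s hs => hDpos s hs) h1)) (h.ne0 x hx.1)
  have hposD0 : ∀ x ∈ perp Φ v, x ∈ cone {x : V | x ∈ L₁} → x ∈ cone {x : V | x ∈ D0} := by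
    intro x hx hxc
    rcases hD0.pm x ⟨⟨hx.1, cone_mem_span hxc⟩, hx.2⟩ with h1 | h1
    · exact h1
    · exact absurd (h.pointed (hmono x hxc) (hmono _ (cone_le (fun s hs => hD0pos s hs) h1)))
        (h.ne0 x hx.1)
  -- (i)
  have haD : a ∈ D := by
    have h1 : a ∈ {x : V | x ∈ D} := by
      refine rankY_ext h h.red haL haΦ (fun s hs => (hD.sub s hs).1) hDpos ?_
      exact hposD a ⟨haΦ, hva⟩ (mem_cone_list haL)
    exact h1
  -- (ii)
  obtain ⟨φ, hφa, hφ0, hφnn, hφcone, -⟩ := h.coef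
  have hD0D : ∀ d ∈ D0, d ∈ D := by
    intro d0 hd0
    have hd0Φ := hD0.sub d0 hd0
    have h1 : d0 ∈ cone {x : V | x ∈ D} :=
      hposD d0 ⟨hd0Φ.1.1, hd0Φ.2⟩ (hmono _ (hD0pos d0 hd0))
    have h2 := cone_inter_of_face φ (S := {x : V | x ∈ D}) (fun s hs => hφnn s (hDpos s hs)) h1
      (hφ0 d0 hd0Φ.1.2)
    have h3 : d0 ∈ {s : V | s ∈ {x : V | x ∈ D} ∧ φ s = 0} := by
      refine rankY_ext hD0 h.red hd0 hd0Φ.1.1 (fun s hs => (hD.sub s hs.1).1) ?_ h2
      intro s hs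
      exact hposD0 s (hD.sub s hs.1) (hφcone s (hDpos s hs.1) hs.2)
    exact h3.1
  -- (iii)
  have haD0 : a ∉ D0 := fun hmem => h.head_notMem_span (cone_mem_span (hD0pos a hmem))
  have hperm : (a :: D0).Perm D := by
    refine List.Subperm.perm_of_length_le ?_ ?_
    · refine List.Nodup.subperm (List.nodup_cons.2 ⟨haD0, hD0.nd⟩) ?_
      intro x hx
      rcases List.mem_cons.1 hx with rfl | hx
      · exact haD
      · exact hD0D x hx
    · simp only [List.length_cons] at hDlen ⊢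
      omega
  refine cone_le ?_ (hposD b hb.1 hb.2)
  intro d hd
  have hd' : d ∈ a :: D0 := hperm.mem_iff.2 hd
  rcases List.mem_cons.1 hd' with rfl | hd'
  · exact subset_cone (Set.mem_insert _ _)
  · refine subset_cone (Set.mem_insert_of_mem _ ?_)
    have hdΦ := hD0.sub d hd'
    exact ⟨⟨hdΦ.1.1, hdΦ.2⟩, hD0pos d hd'⟩

end

end Pool.Agent.CPF
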