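import Pool.Agent.CPF.Basic

/-!
Rotation induction (module Rot of MP_b68fb8_co).
-/

namespace Pool.Agent.CPF

open scoped InnerProductSpace NNReal

variable {V : Type*} [NormedAddCommGroup V] [InnerProductSpace ℝ V] [FiniteDimensional ℝ V]

omit [FiniteDimensional ℝ V] in
theorem RotInd_aux {Φ : Set V} {n : ℕ} {Q : List V → V → Prop}
    (h0 : ∀ (L' : List V) (x : V), RS Φ L' → L'.length = n →
      x ∉ cone {y : V | y ∈ L'} → Q L' x)
    (h1 : ∀ (a : V) (L₁ : List V) (x : V), RS Φ (a :: L₁) → (a :: L₁).length = n →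
      x ∈ cone {y : V | y ∈ a :: L₁} → Q (L₁ ++ [a]) (refl a x) → Q (a :: L₁) x) :
    ∀ (A B : List V) (x : V), RS Φ (A ++ B) → (A ++ B).length = n → ¬ Q (A ++ B) x →
      ¬ Q (B ++ A) ((cox A)⁻¹ x) := by
  intro A
  induction A with
  | nil =>
    intro B x _ _ hx
    rw [cox_nil, inv_one, oneE_apply, List.append_nil]
    rwa [List.nil_append] at hx
  | cons a A ih =>
    intro B x hRS hlen hx
    rw [List.cons_append] at hRS hlen hx
    have hcone : x ∈ cone {y : V | y ∈ a :: (A ++ B)} := by
      by_contra hc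
      exact hx (h0 _ x hRS hlen hc)
    have hstep : ¬ Q ((A ++ B) ++ [a]) (refl a x) := by
      intro hq
      exact hx (h1 a (A ++ B) x hRS hlen hcone hq)
    have hRS' : RS Φ (A ++ (B ++ [a])) := by
      have := hRS.rot
      rwa [List.append_assoc] at this
    have hlen' : (A ++ (B ++ [a])).length = n := by
      rw [← hlen]
      simp only [List.length_append, List.length_cons, List.length_nil]
      omega
    rw [List.append_assoc] at hstep
    have := ih (B ++ [a]) (refl a x) hRS' hlen' hstep
    rw [List.append_assoc, List.singleton_append] at this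
    rw [cox_cons, mul_inv_rev, mulE_apply, refl_inv]
    exact this

theorem cRotInd (hF : Stmt_Fix V) : Stmt_RotInd V := by
  intro Φ L hRS Q h0 h1 x hx
  by_contra hQ
  have key : ∀ k : ℕ, ¬ Q L (((cox L)⁻¹ ^ k) x) := by
    intro k
    induction k with
    | zero =>
      rw [pow_zero, oneE_apply]
      exact hQ
    | succ k ih =>
      have h2 := RotInd_aux h0 h1 L [] (((cox L)⁻¹ ^ k) x) (by rwa [List.append_nil])
        (by rw [List.append_nil]) (by rwa [List.append_nil])
      rw [List.nil_append] at h2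
      rw [pow_succ', mulE_apply]
      exact h2
  apply hx
  apply hF Φ L hRS x
  intro k
  by_contra hc
  exact key k (h0 L _ hRS rfl hc)

theorem cRotRoot (hR : Stmt_RotInd V) : Stmt_RotRoot V := by
  intro Φ L hRS Q hb hs x hx
  have hx0 : x ≠ 0 := hRS.ne0 x hx.1
  refine hR Φ L hRS (fun L' y => y ∈ Pos Φ L' → Q L' y) ?_ ?_ x hx0 hx
  · intro L' y _ _ hy hy'
    exact absurd hy'.2 hy
  · intro a L₁ y hRS' hlen _ hstep hy
    by_cases hya : y = a
    · subst hya
      exact hb y L₁ hRS' hlen
    · refine hs a L₁ y hRS' hlen hy hya (hstep ?_)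
      have h3 := hRS'.refl_pos (List.mem_cons_self) hy hya
      refine ⟨h3.1, ?_⟩
      rw [set_rot]
      exact h3.2

end Pool.Agent.CPF
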