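import Pool.Agent.CPF.Basic

/-!
Module RotM for MP_b68fb8_co: `Stmt_RotM`, and `Stmt_RotHit` from `Stmt_RotM`, `Stmt_Fix`.
-/

namespace Pool.Agent.CPF

open scoped InnerProductSpace NNReal

section
variable {V : Type*} [NormedAddCommGroup V] [InnerProductSpace ℝ V]

/-- Pairwise orthogonality, symmetric form. -/
def RotM_orth (A : List V) : Prop := ∀ s ∈ A, ∀ t ∈ A, s ≠ t → ⟪s, t⟫_ℝ = 0

theorem RotM_orth_of {A : List V} (h : A.Pairwise (fun a b => ⟪a, b⟫_ℝ = 0)) : RotM_orth A := by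
  induction A with
  | nil => intro s hs; exact absurd hs List.not_mem_nil
  | cons x A ih =>
    rw [List.pairwise_cons] at h
    intro s hs t ht hst
    rcases List.mem_cons.mp hs with hs1 | hs1
    · rcases List.mem_cons.mp ht with ht1 | ht1
      · exact absurd (hs1.trans ht1.symm) hst
      · rw [hs1]
        exact h.1 t ht1
    · rcases List.mem_cons.mp ht with ht1 | ht1
      · rw [real_inner_comm, ht1]
        exact h.1 s hs1
      · exact ih h.2 s hs1 t ht1 hst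

theorem RotM_comm {A : List V} (h : RotM_orth A) {s t : V} (hs : s ∈ A) (ht : t ∈ A) :
    refl s * refl t = refl t * refl s := by
  by_cases hst : s = t
  · rw [hst]
  have h1 : refl s t = t := refl_of_orth (by rw [real_inner_comm]; exact h s hs t ht hst)
  have h2 := refl_conj (refl s) t
  rw [h1] at h2
  calc refl s * refl t = refl s * refl t * (refl s)⁻¹ * refl s := by group
    _ = refl t * refl s := by rw [← h2]

theorem RotM_comm_cox {A : List V} (h : RotM_orth A) {s : V} (hs : s ∈ A) :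
    ∀ M : List V, (∀ t ∈ M, t ∈ A) → refl s * cox M = cox M * refl s := by
  intro M
  induction M with
  | nil => intro _; rw [cox_nil, mul_one, one_mul]
  | cons t M ih =>
    intro hM
    rw [cox_cons, ← mul_assoc, RotM_comm h hs (hM t List.mem_cons_self), mul_assoc,
      ih (fun t ht => hM t (List.mem_cons_of_mem _ ht)), mul_assoc]

theorem RotM_invol {A : List V} (h : RotM_orth A) :
    ∀ M : List V, (∀ t ∈ M, t ∈ A) → cox M * cox M = 1 := by
  intro M
  induction M with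
  | nil => intro _; rw [cox_nil, mul_one]
  | cons s M ih =>
    intro hM
    have h1 := RotM_comm_cox h (hM s List.mem_cons_self) M
      (fun t ht => hM t (List.mem_cons_of_mem _ ht))
    calc cox (s :: M) * cox (s :: M) = refl s * (cox M * refl s) * cox M := by
          rw [cox_cons]; group
      _ = (refl s * refl s) * (cox M * cox M) := by rw [← h1]; group
      _ = 1 := by
          rw [refl_mul_refl, ih (fun t ht => hM t (List.mem_cons_of_mem _ ht)), mul_one]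

theorem RotM_inv {A : List V} (h : RotM_orth A) : (cox A)⁻¹ = cox A :=
  inv_eq_of_mul_eq_one_left (RotM_invol h A (fun _ ht => ht))

theorem RotM_neg {A : List V} (h : RotM_orth A) (hn : A.Nodup) {a : V} (ha : a ∈ A) :
    cox A a = -a := by
  obtain ⟨A₁, A₂, rfl⟩ := List.append_of_mem ha
  have hne : ∀ t, t ∈ A₁ ∨ t ∈ A₂ → a ≠ t := by
    rintro t ht rfl
    rw [List.nodup_append] at hn
    obtain ⟨-, hn2, hn3⟩ := hn
    rcases ht with ht | ht
    · exact hn3 a ht a List.mem_cons_self rfl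
    · exact (List.nodup_cons.mp hn2).1 ht
  have hm : ∀ t, t ∈ A₁ ∨ t ∈ A₂ → ⟪a, t⟫_ℝ = 0 := by
    intro t ht
    refine h a ha t ?_ (hne t ht)
    rw [List.mem_append, List.mem_cons]
    tauto
  rw [cox_append, cox_cons, mulE_apply, mulE_apply, cox_of_orth (fun t ht => hm t (Or.inr ht)),
    refl_self, map_neg, cox_of_orth (fun t ht => hm t (Or.inl ht))]

theorem RotM_pos {Φ : Set V} {L : List V} (h : RS Φ L) {A : List V} (hA : RotM_orth A)
    (hAL : ∀ s ∈ A, s ∈ L) : ∀ M : List V, (∀ t ∈ M, t ∈ A) → ∀ b ∈ Pos Φ L, b ∉ A →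
      cox M b ∈ Pos Φ L ∧ cox M b ∉ A := by
  intro M
  induction M with
  | nil => intro _ b hb hbA; rw [cox_nil, oneE_apply]; exact ⟨hb, hbA⟩
  | cons s M ih =>
    intro hM b hb hbA
    obtain ⟨h1, h2⟩ := ih (fun t ht => hM t (List.mem_cons_of_mem _ ht)) b hb hbA
    have hs : s ∈ A := hM s List.mem_cons_self
    rw [cox_cons, mulE_apply]
    have hne : cox M b ≠ s := fun he => h2 (he ▸ hs)
    refine ⟨h.refl_pos (hAL s hs) h1 hne, ?_⟩
    intro h3
    have h4 : cox M b = refl s (refl s (cox M b)) := (refl_refl _ _).symm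
    by_cases h5 : refl s (cox M b) = s
    · rw [h5, refl_self] at h4
      have h6 := h.not_pos_neg (h.simple_pos (hAL s hs))
      exact h6 (h4 ▸ h1)
    · have h6 : refl s (refl s (cox M b)) = refl s (cox M b) :=
        refl_of_orth (hA _ h3 _ hs h5)
      rw [h6] at h4
      exact h2 (h4 ▸ h3)

theorem RotM_notNeg {Φ : Set V} {L : List V} (h : RS Φ L) {b : V} (hb : b ∈ Pos Φ L) {M : List V}
    (hM : ∀ s ∈ M, s ∈ L) : -b ∉ M :=
  fun hc => h.not_pos_neg hb (h.simple_pos (hM _ hc))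

end

section
variable {V : Type*} [NormedAddCommGroup V] [InnerProductSpace ℝ V]

theorem RotM_rotR_pos {Φ : Set V} {P Q : List V} (hB : Bip Φ P Q) {b : V}
    (hb : b ∈ Pos Φ (P ++ Q)) (hbP : b ∉ P) :
    rotR P Q b = (cox (P ++ Q))⁻¹ b ∧
      ((cox (P ++ Q))⁻¹ b ∈ Pos Φ (P ++ Q) ∨ -((cox (P ++ Q))⁻¹ b) ∈ Q) := by
  have hP : RotM_orth P := RotM_orth_of hB.orthP
  have hQ : RotM_orth Q := RotM_orth_of hB.orthQ
  have hPL : ∀ s ∈ P, s ∈ P ++ Q := fun s hs => List.mem_append_left _ hs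
  have hQL : ∀ s ∈ Q, s ∈ P ++ Q := fun s hs => List.mem_append_right _ hs
  have hnd := hB.rs.nd
  rw [List.nodup_append] at hnd
  have hc : (cox (P ++ Q))⁻¹ b = cox Q (cox P b) := by
    rw [cox_append, mul_inv_rev, RotM_inv hP, RotM_inv hQ, mulE_apply]
  obtain ⟨h1, h2⟩ := RotM_pos hB.rs hP hPL P (fun _ ht => ht) b hb hbP
  rw [hc]
  constructor
  · unfold rotR tau
    rw [if_neg (RotM_notNeg hB.rs hb hQL), if_neg (RotM_notNeg hB.rs h1 hPL)]
  · by_cases h3 : cox P b ∈ Q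
    · right
      rw [RotM_neg hQ hnd.2.1 h3, neg_neg]
      exact h3
    · left
      exact (RotM_pos hB.rs hQ hQL Q (fun _ ht => ht) _ h1 h3).1

theorem RotM_rotR_P {Φ : Set V} {P Q : List V} (hB : Bip Φ P Q) {b : V} (hbP : b ∈ P) :
    rotR P Q b = -b := by
  have hP : RotM_orth P := RotM_orth_of hB.orthP
  have hPL : ∀ s ∈ P, s ∈ P ++ Q := fun s hs => List.mem_append_left _ hs
  have hQL : ∀ s ∈ Q, s ∈ P ++ Q := fun s hs => List.mem_append_right _ hs
  have hnd := hB.rs.nd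
  rw [List.nodup_append] at hnd
  have hb : b ∈ Pos Φ (P ++ Q) := hB.rs.simple_pos (hPL b hbP)
  unfold rotR tau
  rw [if_neg (RotM_notNeg hB.rs hb hQL), RotM_neg hP hnd.1 hbP, neg_neg, if_pos hbP]

theorem RotM_rotR_negQ {Φ : Set V} {P Q : List V} (hB : Bip Φ P Q) {s : V} (hs : s ∈ Q) :
    rotR P Q (-s) = s := by
  have hQ : RotM_orth Q := RotM_orth_of hB.orthQ
  have hnd := hB.rs.nd
  rw [List.nodup_append] at hnd
  have hsP : s ∉ P := fun h => hnd.2.2 s h s hs rfl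
  unfold rotR tau
  rw [neg_neg, if_pos hs, neg_neg, if_neg hsP, map_neg, RotM_neg hQ hnd.2.1 hs, neg_neg]

theorem RotM_rotR_negP {Φ : Set V} {P Q : List V} (hB : Bip Φ P Q) {s : V} (hs : s ∈ P) :
    rotR P Q (-s) ∈ Pos Φ (P ++ Q) := by
  have hP : RotM_orth P := RotM_orth_of hB.orthP
  have hQ : RotM_orth Q := RotM_orth_of hB.orthQ
  have hPL : ∀ s ∈ P, s ∈ P ++ Q := fun s hs => List.mem_append_left _ hs
  have hQL : ∀ s ∈ Q, s ∈ P ++ Q := fun s hs => List.mem_append_right _ hs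
  have hnd := hB.rs.nd
  rw [List.nodup_append] at hnd
  have hsQ : s ∉ Q := fun h => hnd.2.2 s hs s h rfl
  have hsp : s ∈ Pos Φ (P ++ Q) := hB.rs.simple_pos (hPL s hs)
  have h1 : rotR P Q (-s) = cox Q s := by
    unfold rotR tau
    rw [neg_neg, if_neg hsQ, map_neg, RotM_neg hP hnd.1 hs, neg_neg,
      if_neg (RotM_notNeg hB.rs hsp hPL), neg_neg]
  rw [h1]
  exact (RotM_pos hB.rs hQ hQL Q (fun _ ht => ht) _ hsp hsQ).1

theorem RotM_main : ∀ (Φ : Set V) (P Q : List V) (m : ℕ), Bip Φ P Q → 1 ≤ m →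
    (∀ a ∈ CAP Φ (P ++ Q) m, rotM Φ P Q m a ∈ CAP Φ (P ++ Q) m) ∧
    (∀ a ∈ CP Φ (P ++ Q) m, a.2 < m → rotM Φ P Q m a = (a.1, a.2 + 1)) ∧
    (∀ a ∈ CP Φ (P ++ Q) m, a.2 = m → a.1 ∈ P → rotM Φ P Q m a = (-a.1, 1)) ∧
    (∀ a ∈ CP Φ (P ++ Q) m, a.2 = m → a.1 ∉ P →
      rotM Φ P Q m a = ((cox (P ++ Q))⁻¹ a.1, 1) ∧
      ((cox (P ++ Q))⁻¹ a.1 ∈ Pos Φ (P ++ Q) ∨ -((cox (P ++ Q))⁻¹ a.1) ∈ Q)) := by
  intro Φ P Q m hB hm
  have c2 : ∀ a ∈ CP Φ (P ++ Q) m, a.2 < m → rotM Φ P Q m a = (a.1, a.2 + 1) := by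
    intro a ha ham
    unfold rotM
    rw [if_pos ⟨ha.1, ham⟩]
  have cm : ∀ a : V × ℕ, a.2 = m → rotM Φ P Q m a = (rotR P Q a.1, 1) := by
    intro a ham
    unfold rotM
    rw [if_neg]
    rintro ⟨-, h⟩
    omega
  have c3 : ∀ a ∈ CP Φ (P ++ Q) m, a.2 = m → a.1 ∈ P → rotM Φ P Q m a = (-a.1, 1) := by
    intro a _ ham haP
    rw [cm a ham, RotM_rotR_P hB haP]
  have c4 : ∀ a ∈ CP Φ (P ++ Q) m, a.2 = m → a.1 ∉ P →
      rotM Φ P Q m a = ((cox (P ++ Q))⁻¹ a.1, 1) ∧
      ((cox (P ++ Q))⁻¹ a.1 ∈ Pos Φ (P ++ Q) ∨ -((cox (P ++ Q))⁻¹ a.1) ∈ Q) := by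
    intro a ha ham haP
    obtain ⟨h1, h2⟩ := RotM_rotR_pos hB ha.1 haP
    refine ⟨?_, h2⟩
    rw [cm a ham, h1]
  refine ⟨?_, c2, c3, c4⟩
  rintro a (ha | ⟨ha, ha2⟩)
  · rcases lt_or_eq_of_le ha.2.2 with ham | ham
    · rw [c2 a ha ham]
      left
      exact ⟨ha.1, by simp, ham⟩
    · by_cases haP : a.1 ∈ P
      · rw [c3 a ha ham haP]
        right
        refine ⟨?_, rfl⟩
        show -(-a.1) ∈ P ++ Q
        rw [neg_neg]
        exact List.mem_append_left _ haP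
      · obtain ⟨h1, h2⟩ := c4 a ha ham haP
        rw [h1]
        rcases h2 with h2 | h2
        · left
          exact ⟨h2, le_refl 1, hm⟩
        · right
          exact ⟨List.mem_append_right _ h2, rfl⟩
  · have hneg : a.1 ∉ Pos Φ (P ++ Q) := fun h =>
      hB.rs.not_pos_neg h (hB.rs.simple_pos ha)
    have h1 : rotM Φ P Q m a = (rotR P Q a.1, 1) := by
      unfold rotM
      rw [if_neg]
      rintro ⟨h, -⟩
      exact hneg h
    rw [h1]
    left
    refine ⟨?_, le_refl 1, hm⟩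
    show rotR P Q a.1 ∈ Pos Φ (P ++ Q)
    have h2 : a.1 = -(-a.1) := (neg_neg _).symm
    rcases List.mem_append.mp ha with h3 | h3
    · rw [h2]
      exact RotM_rotR_negP hB h3
    · rw [h2, RotM_rotR_negQ hB h3]
      exact hB.rs.simple_pos ha

end

/-- The action of the coloured rotation. -/
theorem cRotM {V : Type*} [NormedAddCommGroup V] [InnerProductSpace ℝ V]
    [FiniteDimensional ℝ V] : Stmt_RotM V := RotM_main

/-- The rotation eventually leads to a negative simple root. -/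
theorem cRotHit {V : Type*} [NormedAddCommGroup V] [InnerProductSpace ℝ V]
    [FiniteDimensional ℝ V] (hR : Stmt_RotM V) (hF : Stmt_Fix V) : Stmt_RotHit V := by
  intro Φ P Q m hB hm a ha
  by_contra hcon
  push Not at hcon
  obtain ⟨r1, r2, r3, r4⟩ := hR Φ P Q m hB hm
  have hCAP : ∀ r : ℕ, (rotM Φ P Q m)^[r] a ∈ CAP Φ (P ++ Q) m := by
    intro r
    induction r with
    | zero => exact ha
    | succ r ih =>
      rw [Function.iterate_succ_apply']
      exact r1 _ ih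
  have hCP : ∀ r : ℕ, (rotM Φ P Q m)^[r] a ∈ CP Φ (P ++ Q) m := by
    intro r
    rcases hCAP r with h | h
    · exact h
    · exact absurd h.1 (hcon r)
  have step : ∀ t r : ℕ, m - ((rotM Φ P Q m)^[r] a).2 = t → ∃ r', ((rotM Φ P Q m)^[r'] a).1 =
      (cox (P ++ Q))⁻¹ ((rotM Φ P Q m)^[r] a).1 := by
    intro t
    induction t with
    | zero =>
      intro r hr
      have h2 : ((rotM Φ P Q m)^[r] a).2 = m := by
        have := (hCP r).2.2
        omega
      have h3 : ((rotM Φ P Q m)^[r] a).1 ∉ P := by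
        intro h4
        have h5 := r3 _ (hCP r) h2 h4
        apply hcon (r + 1)
        rw [Function.iterate_succ_apply', h5]
        show -(-((rotM Φ P Q m)^[r] a).1) ∈ P ++ Q
        rw [neg_neg]
        exact List.mem_append_left _ h4
      refine ⟨r + 1, ?_⟩
      rw [Function.iterate_succ_apply', (r4 _ (hCP r) h2 h3).1]
    | succ t ih =>
      intro r hr
      have h2 : ((rotM Φ P Q m)^[r] a).2 < m := by omega
      have h3 := r2 _ (hCP r) h2
      have h4 : (rotM Φ P Q m)^[r + 1] a =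
          (((rotM Φ P Q m)^[r] a).1, ((rotM Φ P Q m)^[r] a).2 + 1) := by
        rw [Function.iterate_succ_apply', h3]
      obtain ⟨r', hr'⟩ := ih (r + 1) (by rw [h4]; show m - (_ + 1) = t; omega)
      refine ⟨r', ?_⟩
      rw [hr', h4]
  have all : ∀ j : ℕ, ∃ r, ((rotM Φ P Q m)^[r] a).1 = ((cox (P ++ Q))⁻¹ ^ j) a.1 := by
    intro j
    induction j with
    | zero =>
      refine ⟨0, ?_⟩
      rw [pow_zero, oneE_apply]
      rfl
    | succ j ih =>
      obtain ⟨r, hr⟩ := ih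
      obtain ⟨r', hr'⟩ := step _ r rfl
      refine ⟨r', ?_⟩
      rw [hr', hr, pow_succ', mulE_apply]
  have h0 : a.1 = 0 := by
    apply hF Φ (P ++ Q) hB.rs a.1
    intro k
    obtain ⟨r, hr⟩ := all k
    rw [← hr]
    exact (hCP r).1.2
  exact hB.rs.ne0 a.1 (hCP 0).1.1 h0

end Pool.Agent.CPF
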