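import Pool.Agent.CPF.Basic

/-!
The group `W_p` for `p = c_• t_a c_∘`.
-/

namespace Pool.Agent.CPF

open scoped InnerProductSpace NNReal

section
variable {V : Type*} [NormedAddCommGroup V] [InnerProductSpace ℝ V]

theorem single_comm {a b : V} (h : ⟪a, b⟫_ℝ = 0) : refl a * refl b = refl b * refl a := by
  have h1 : refl b a = a := refl_of_orth h
  have h2 : refl (refl b a) = refl b * refl a * (refl b)⁻¹ := refl_conj (refl b) a
  rw [h1] at h2
  calc refl a * refl b = refl b * refl a * (refl b)⁻¹ * refl b := by rw [← h2]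
    _ = refl b * refl a := by group

theorem single_comm_list {a : V} {l : List V} (h : ∀ b ∈ l, ⟪a, b⟫_ℝ = 0) :
    refl a * cox l = cox l * refl a := by
  induction l with
  | nil => rw [cox_nil, mul_one, one_mul]
  | cons b l ih =>
    have h1 := single_comm (h b List.mem_cons_self)
    have h2 := ih fun c hc => h c (List.mem_cons_of_mem _ hc)
    rw [cox_cons, ← mul_assoc, h1, mul_assoc, h2, mul_assoc]

theorem single_invol {l : List V} (h : l.Pairwise (fun a b => ⟪a, b⟫_ℝ = 0)) :
    cox l * cox l = 1 := by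
  induction l with
  | nil => rw [cox_nil, mul_one]
  | cons a l ih =>
    rw [List.pairwise_cons] at h
    have h1 := single_comm_list h.1
    calc cox (a :: l) * cox (a :: l) = refl a * (cox l * refl a) * cox l := by
          rw [cox_cons]; group
      _ = refl a * (refl a * cox l) * cox l := by rw [h1]
      _ = (refl a * refl a) * (cox l * cox l) := by group
      _ = 1 := by rw [refl_mul_refl, ih h.2, one_mul]

theorem single_invol_apply {l : List V} (h : l.Pairwise (fun a b => ⟪a, b⟫_ℝ = 0)) (v : V) :
    cox l (cox l v) = v := by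
  rw [← mulE_apply, single_invol h, oneE_apply]

end

theorem cSingle {V : Type*} [NormedAddCommGroup V] [InnerProductSpace ℝ V] [FiniteDimensional ℝ V]
    (hXv : Stmt_Xv V) (hBf : Stmt_Bf V) (hFix : Stmt_FixIndep V) : Stmt_Single V := by
  intro Φ P Q hB a ha
  have hrs := hB.rs
  set L := P ++ Q with hL
  have hnd := hrs.nd
  have hli := hrs.li
  have hsp : a ∈ Submodule.span ℝ {y : V | y ∈ L} := hrs.mem_span ha
  obtain ⟨hx1, hx2⟩ := (hXv L hnd hli).1 a hsp
  set x := xv L a with hx
  have hc : cox L = cox P * cox Q := by rw [hL, cox_append]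
  have hPi := single_invol_apply hB.orthP
  have hQi := single_invol_apply hB.orthQ
  have hcx : cox L x = cox P (cox Q x) := by rw [hc, mulE_apply]
  have haa : 0 < ⟪a, a⟫_ℝ := real_inner_self_pos.mpr (hrs.ne0 a ha)
  have hxa : ⟪x, a⟫_ℝ = ⟪a, a⟫_ℝ / 2 := by
    have h1 := (hBf L hnd hli a hsp a hsp).1
    have h2 : Bf L a a = ⟪x, a⟫_ℝ := rfl
    rw [h2] at h1
    linarith
  have hra : refl a x = x - a := by
    rw [refl_apply, hxa]
    have : 2 * (⟪a, a⟫_ℝ / 2) / ⟪a, a⟫_ℝ = 1 := by field_simp
    rw [this, one_smul]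
  have hcx' : cox P (cox Q x) = x - a := by
    rw [← hcx]
    have : cox L x = x - (x - cox L x) := by abel
    rw [this, hx2]
  have hQx : cox Q x = cox P (x - a) := by rw [← hcx', hPi]
  have hu : (cox P * refl a * cox Q) (cox Q x) = cox Q x := by
    rw [mulE_apply, mulE_apply, hQi, hra, hQx]
  refine ⟨?_, ?_⟩
  · have h1 : cox Q x - cox L (cox Q x) = -(cox P a) := by
      rw [hc, mulE_apply, hQi, hQx, map_sub]
      abel
    change cox Q x - cox L (cox Q x) ∈ Φ
    rw [h1]
    exact hrs.neg_mem (hrs.map_mem (cox_mem_Wg fun b hb => hrs.sub b (by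
      rw [hL]; exact List.mem_append_left _ hb)) ha)
  · intro h
    constructor
    · rintro ⟨h1, h2⟩
      exact ⟨h1, h2 _ hu⟩
    · rintro ⟨h1, h2⟩
      refine ⟨h1, fun v hv => ?_⟩
      set y := cox Q v with hy
      have hv' : v = cox Q y := by rw [hy, hQi]
      have h3 : cox P (refl a y) = v := by
        rw [mulE_apply, mulE_apply] at hv
        exact hv
      have h4 : refl a y = cox L y := by
        rw [hc, mulE_apply, ← hv', ← h3, hPi]
      have h5 : y - cox L y = (2 * ⟪y, a⟫_ℝ / ⟪a, a⟫_ℝ) • a := by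
        rw [← h4, refl_apply]
        abel
      set t := 2 * ⟪y, a⟫_ℝ / ⟪a, a⟫_ℝ with ht
      have h6 : cox L (y - t • x) = y - t • x := by
        have h7 : y - t • x - cox L (y - t • x) = 0 := by
          rw [map_sub, map_smul]
          have : y - t • x - (cox L y - t • cox L x) = (y - cox L y) - t • (x - cox L x) := by
            rw [smul_sub]
            abel
          rw [this, h5, hx2, sub_self]
        exact (sub_eq_zero.mp h7).symm
      have h8 : ∀ b ∈ L, ⟪y - t • x, b⟫_ℝ = 0 := (hFix L hnd hli (y - t • x)).mp h6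
      have h9 : h (y - t • x) = y - t • x := Wg_fix_orth h1 (hrs.orth_all h8)
      have h10 : cox Q (y - t • x) = y - t • x := cox_of_orth fun b hb => h8 b (by
        rw [hL]; exact List.mem_append_right _ hb)
      have h11 : v = (y - t • x) + t • cox Q x := by
        rw [← h10, map_sub, map_smul, ← hv']
        abel
      rw [h11, map_add, map_smul, h9, h2]

end Pool.Agent.CPF
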