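import Pool.Agent.CPF.Basic

/-!
Dominant vectors and stabilizers, for MP_b68fb8_co.
-/

namespace Pool.Agent.CPF

open scoped InnerProductSpace NNReal

theorem cH0 {V : Type*} [NormedAddCommGroup V] [InnerProductSpace ℝ V] [FiniteDimensional ℝ V]
    (h1 : Stmt_WDom V) (h2 : Stmt_WK V) : Stmt_H0 V := by
  intro Φ L hRS x hx w hw
  obtain ⟨w', hw', hd, hc⟩ := h1 Φ L hRS (w x)
  have h3 := (h2 Φ L hRS x (w' (w x)) hx hd (w' * w) ((Wg Φ).mul_mem hw' hw)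
    (mulE_apply w' w x)).1
  rwa [← h3] at hc

theorem cStab {V : Type*} [NormedAddCommGroup V] [InnerProductSpace ℝ V] [FiniteDimensional ℝ V]
    (h1 : Stmt_WDom V) (h2 : Stmt_WK V) : Stmt_Stab V := by
  intro Φ L hRS x w hw hwx
  obtain ⟨g, hg, hd, -⟩ := h1 Φ L hRS x
  have hfix : (g * w * g⁻¹) (g x) = g x := by
    rw [mulE_apply, mulE_apply, invE_apply_self, hwx]
  have hmem : g * w * g⁻¹ ∈ Wg Φ := (Wg Φ).mul_mem ((Wg Φ).mul_mem hg hw) ((Wg Φ).inv_mem hg)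
  have h3 := (h2 Φ L hRS (g x) (g x) hd hd (g * w * g⁻¹) hmem hfix).2
  have hle : Subgroup.closure (refl '' {b : V | b ∈ L ∧ ⟪g x, b⟫_ℝ = 0}) ≤
      (Wg (perp Φ x)).comap (MulAut.conj g⁻¹).toMonoidHom := by
    rw [Subgroup.closure_le]
    rintro _ ⟨b, ⟨hb, hb0⟩, rfl⟩
    have h4 : (MulAut.conj g⁻¹).toMonoidHom (refl b) = refl (g⁻¹ b) := by
      rw [refl_conj]
      rfl
    change (MulAut.conj g⁻¹).toMonoidHom (refl b) ∈ Wg (perp Φ x)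
    rw [h4]
    refine refl_mem_Wg ⟨hRS.map_mem ((Wg Φ).inv_mem hg) (hRS.sub b hb), ?_⟩
    rw [real_inner_comm, inner_invE, real_inner_comm]
    exact hb0
  have h5 : (MulAut.conj g⁻¹).toMonoidHom (g * w * g⁻¹) ∈ Wg (perp Φ x) := hle h3
  have h6 : (MulAut.conj g⁻¹).toMonoidHom (g * w * g⁻¹) = w := by
    change g⁻¹ * (g * w * g⁻¹) * (g⁻¹)⁻¹ = w
    group
  rwa [h6] at h5

end Pool.Agent.CPF
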