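import Pool.Agent.CPF.Basic

/-!
The T-lemma for MP_b68fb8_co: roots orthogonal to a vector of `VV Φ L`.
-/

namespace Pool.Agent.CPF

open scoped InnerProductSpace NNReal

/-- The base case: `v - c v = a`, the head of the list. -/
theorem T_base {V : Type*} [NormedAddCommGroup V] [InnerProductSpace ℝ V] [FiniteDimensional ℝ V]
    (hFI : Stmt_FixIndep V) {Φ : Set V} {a : V} {L₁ : List V} (h : RS Φ (a :: L₁)) {v : V}
    (hv : v - cox (a :: L₁) v = a) :
    RS (perp Φ v) L₁ := by
  have ha0 : a ≠ 0 := h.ne0 a (h.sub a List.mem_cons_self)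
  have haa : ⟪a, a⟫_ℝ ≠ 0 := fun h0 => ha0 (inner_self_eq_zero.mp h0)
  rw [cox_cons, mulE_apply] at hv
  have h1 : refl a v - cox L₁ v = -a := by
    have := congrArg (refl a) hv
    rw [map_sub, refl_refl, refl_self] at this
    exact this
  have h2 : v - cox L₁ v = (2 * ⟪v, a⟫_ℝ / ⟪a, a⟫_ℝ - 1) • a := by
    rw [refl_apply] at h1
    have : v - cox L₁ v = (v - (2 * ⟪v, a⟫_ℝ / ⟪a, a⟫_ℝ) • a - cox L₁ v) +
      (2 * ⟪v, a⟫_ℝ / ⟪a, a⟫_ℝ) • a := by abel
    rw [this, h1, sub_smul, one_smul]
    abel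
  have h3 : 2 * ⟪v, a⟫_ℝ / ⟪a, a⟫_ℝ - 1 = 0 := by
    by_contra hne
    apply h.head_notMem_span
    have hm := sub_cox_mem_span L₁ v
    rw [h2] at hm
    exact (Submodule.smul_mem_iff _ hne).mp hm
  have h4 : cox L₁ v = v := by
    rw [h3, zero_smul] at h2
    exact (sub_eq_zero.mp h2).symm
  have hva : ⟪v, a⟫_ℝ ≠ 0 := by
    intro h0
    rw [h0] at h3
    norm_num at h3
  have hnd : L₁.Nodup := (List.nodup_cons.mp h.nd).2
  have hli : LinearIndepOn ℝ id {x : V | x ∈ L₁} :=
    h.li.mono (fun x hx => List.mem_cons_of_mem _ hx)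
  have hort := (hFI L₁ hnd hli v).mp h4
  obtain ⟨φ, hφa, hφ0, -, -, hφ5⟩ := h.coef
  refine ⟨h.fin.subset (fun b hb => hb.1), fun b hb => h.ne0 b hb.1,
    fun b hb r hr => h.red b hb.1 r hr.1, perp_cl h.cl v,
    fun b hb => ⟨h.sub b (List.mem_cons_of_mem _ hb), hort b hb⟩, hnd, hli, ?_⟩
  intro b hb
  apply hφ5 b hb.1
  have hsp := h.mem_span hb.1
  rw [set_cons, Submodule.mem_span_insert] at hsp
  obtain ⟨r, e, he, hbe⟩ := hsp
  have hve : ⟪v, e⟫_ℝ = 0 := by
    have : ∀ e ∈ Submodule.span ℝ {x : V | x ∈ L₁}, ⟪v, e⟫_ℝ = 0 := by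
      intro e he
      induction he using Submodule.span_induction with
      | mem x hx => exact hort x hx
      | zero => simp
      | add x y _ _ hx hy => rw [inner_add_right, hx, hy, add_zero]
      | smul r x _ hx => rw [inner_smul_right, hx, mul_zero]
    exact this e he
  have hb2 := hb.2
  rw [hbe, inner_add_right, inner_smul_right, hve, add_zero] at hb2
  have hr : r = 0 := by
    rcases mul_eq_zero.mp hb2 with hr | hr
    · exact hr
    · exact absurd hr hva
  rw [hbe, map_add, map_smul, hφa, hφ0 e he, hr]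
  simp

theorem cT {V : Type*} [NormedAddCommGroup V] [InnerProductSpace ℝ V] [FiniteDimensional ℝ V]
    (hRR : Stmt_RotRoot V) (hFI : Stmt_FixIndep V) : Stmt_T V := by
  intro Φ L v h hv
  have key : ∀ x ∈ Pos Φ L, ∀ v : V, v - cox L v = x →
      ∃ D : List V, RS (perp Φ v) D ∧ D.length + 1 = L.length ∧
        ∀ d ∈ D, d ∈ cone {x : V | x ∈ L} := by
    refine hRR Φ L h (fun L' x => ∀ v : V, v - cox L' v = x →
      ∃ D : List V, RS (perp Φ v) D ∧ D.length + 1 = L'.length ∧
        ∀ d ∈ D, d ∈ cone {x : V | x ∈ L'}) ?_ ?_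
    · intro a L₁ h1 _ v hv
      exact ⟨L₁, T_base hFI h1 hv, by simp,
        fun d hd => mem_cone_list (List.mem_cons_of_mem _ hd)⟩
    · intro a L₁ x h1 _ hx hxa ih v hv
      have h2 := sub_cox_rot a L₁ v
      rw [hv] at h2
      obtain ⟨D', hD1, hD2, hD3⟩ := ih (refl a v) h2
      rw [set_rot] at hD3
      have hlen : D'.length + 1 = (a :: L₁).length := by
        rw [hD2]; simp
      by_cases hva : ⟪v, a⟫_ℝ = 0
      · rw [refl_of_orth hva] at hD1
        exact ⟨D', hD1, hlen, hD3⟩
      · have hperp : perp Φ v = refl a '' perp Φ (refl a v) := by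
          have haΦ : a ∈ Φ := h1.sub a List.mem_cons_self
          have := perp_map (refl a) (fun b hb => h1.cl a haΦ b hb)
            (fun b hb => by rw [refl_inv]; exact h1.cl a haΦ b hb) (refl a v)
          rwa [refl_refl] at this
        refine ⟨D'.map (refl a), ?_, by rw [List.length_map]; exact hlen, ?_⟩
        · rw [hperp]
          exact hD1.map (refl a)
        · intro d hd
          obtain ⟨d', hd', rfl⟩ := List.mem_map.mp hd
          have hd1 := hD1.sub d' hd'
          have hne : d' ≠ a := by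
            rintro rfl
            have h5 := hd1.2
            rw [inner_refl_self] at h5
            exact hva (neg_eq_zero.mp h5)
          exact (h1.refl_pos List.mem_cons_self ⟨hd1.1, hD3 d' hd'⟩ hne).2
  rcases h.pos_or hv with hp | hp
  · exact key _ hp v rfl
  · have hneg : perp Φ (-v) = perp Φ v := by
      ext b
      simp [perp]
    have := key _ hp (-v) (by rw [map_neg]; abel)
    rwa [hneg] at this

end Pool.Agent.CPF
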