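import Pool.Agent.CPF.Basic

/-!
MP_b68fb8_co, module WFin: the group `Wg Φ` is finite, and every vector is conjugate to a dominant
vector above it.
-/

namespace Pool.Agent.CPF

open scoped InnerProductSpace NNReal

section
variable {V : Type*} [NormedAddCommGroup V] [InnerProductSpace ℝ V]

/-- An element of `Wg Φ` fixing all roots is trivial. -/
theorem WFin_eq_one {Φ : Set V} {u : V ≃ₗᵢ[ℝ] V} (hu : u ∈ Wg Φ) (h : ∀ b ∈ Φ, u b = b) :
    u = 1 := by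
  apply LinearIsometryEquiv.ext
  intro v
  rw [oneE_apply]
  have h1 : v - u v ∈ Submodule.span ℝ Φ := Wg_sub_mem_span hu v
  have h2 : ∀ b ∈ Φ, ⟪v - u v, b⟫_ℝ = 0 := by
    intro b hb
    have h3 : ⟪u v, b⟫_ℝ = ⟪v, b⟫_ℝ := by
      have h4 := inner_mapE u v b
      rw [h b hb] at h4
      exact h4
    rw [inner_sub_left, h3, sub_self]
  have h5 : ∀ y ∈ Submodule.span ℝ Φ, ⟪v - u v, y⟫_ℝ = 0 := by
    intro y hy
    induction hy using Submodule.span_induction with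
    | mem y hy => exact h2 y hy
    | zero => exact inner_zero_right _
    | add y z _ _ h6 h7 => rw [inner_add_right, h6, h7, add_zero]
    | smul r y _ h6 => rw [inner_smul_right, h6, mul_zero]
  have h8 : v - u v = 0 := by
    have h9 := h5 _ h1
    exact inner_self_eq_zero.mp h9
  exact (sub_eq_zero.mp h8).symm

theorem WFin_finite {Φ : Set V} (hf : Φ.Finite) (cl : ∀ a ∈ Φ, ∀ b ∈ Φ, refl a b ∈ Φ) :
    (Wg Φ : Set (V ≃ₗᵢ[ℝ] V)).Finite := by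
  have hfin : Finite Φ := hf
  have hT : (Set.pi Set.univ (fun _ : Φ => Φ) : Set (Φ → V)).Finite :=
    Set.Finite.pi' (fun _ => hf) |>.subset (by
      intro g hg i
      exact hg i (Set.mem_univ i))
  refine Set.Finite.of_injOn (f := fun (w : V ≃ₗᵢ[ℝ] V) (b : Φ) => w b.1)
    (t := Set.pi Set.univ (fun _ : Φ => Φ)) ?_ ?_ hT
  · intro w hw b _
    exact Wg_map_mem cl hw b.2
  · intro w hw w' hw' he
    have h1 : w'⁻¹ * w ∈ Wg Φ := (Wg Φ).mul_mem ((Wg Φ).inv_mem hw') hw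
    have h2 : w'⁻¹ * w = 1 := by
      refine WFin_eq_one h1 ?_
      intro b hb
      have h3 : w b = w' b := congrFun he ⟨b, hb⟩
      rw [mulE_apply, h3, invE_apply_self]
    have h3 : w' * (w'⁻¹ * w) = w' := by rw [h2, mul_one]
    rw [mul_inv_cancel_left] at h3
    exact h3

end

theorem cWFin {V : Type*} [NormedAddCommGroup V] [InnerProductSpace ℝ V]
    [FiniteDimensional ℝ V] : Stmt_WFin V := fun _ hf cl => WFin_finite hf cl

theorem cWDom {V : Type*} [NormedAddCommGroup V] [InnerProductSpace ℝ V]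
    [FiniteDimensional ℝ V] (hW : Stmt_WFin V) : Stmt_WDom V := by
  intro Φ L h x
  obtain ⟨ρ, hρ, -⟩ := h.exists_rho
  have hfin : {w : V ≃ₗᵢ[ℝ] V | w ∈ Wg Φ ∧ w x - x ∈ cone {y : V | y ∈ L}}.Finite :=
    (hW Φ h.fin h.cl).subset (fun w hw => hw.1)
  have hne : {w : V ≃ₗᵢ[ℝ] V | w ∈ Wg Φ ∧ w x - x ∈ cone {y : V | y ∈ L}}.Nonempty := by
    refine ⟨1, (Wg Φ).one_mem, ?_⟩
    rw [oneE_apply, sub_self]
    exact cone_zero _
  obtain ⟨w, ⟨hw, hwx⟩, hmax⟩ := Set.exists_max_image _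
    (fun w : V ≃ₗᵢ[ℝ] V => ⟪ρ, w x⟫_ℝ) hfin hne
  refine ⟨w, hw, ?_, hwx⟩
  intro a ha
  by_contra hneg
  rw [not_le] at hneg
  have haΦ : a ∈ Φ := h.sub a ha
  have ha0 : a ≠ 0 := h.ne0 a haΦ
  have haa : 0 < ⟪a, a⟫_ℝ := real_inner_self_pos.mpr ha0
  have hr : 0 < -(2 * ⟪w x, a⟫_ℝ / ⟪a, a⟫_ℝ) := by
    rw [neg_pos]
    exact div_neg_of_neg_of_pos (by linarith) haa
  have hra : (refl a * w) x = w x + (-(2 * ⟪w x, a⟫_ℝ / ⟪a, a⟫_ℝ)) • a := by
    rw [mulE_apply, refl_apply, neg_smul, sub_eq_add_neg]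
  have hmem : refl a * w ∈ {w : V ≃ₗᵢ[ℝ] V | w ∈ Wg Φ ∧ w x - x ∈ cone {y : V | y ∈ L}} := by
    refine ⟨(Wg Φ).mul_mem (refl_mem_Wg haΦ) hw, ?_⟩
    rw [hra, add_sub_right_comm]
    exact cone_add hwx (cone_smul hr.le (mem_cone_list ha))
  have h1 := hmax _ hmem
  have h2 : ⟪ρ, (refl a * w) x⟫_ℝ
      = ⟪ρ, w x⟫_ℝ + (-(2 * ⟪w x, a⟫_ℝ / ⟪a, a⟫_ℝ)) * ⟪ρ, a⟫_ℝ := by
    rw [hra, inner_add_right, inner_smul_right]
  have h3 := mul_pos hr (hρ a ha)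
  rw [h2] at h1
  linarith

end Pool.Agent.CPF
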