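import Pool.Agent.CPF.Basic

/-!
The modules Xv and Bf for MP_b68fb8_co.
-/

namespace Pool.Agent.CPF

open scoped InnerProductSpace NNReal

section
variable {V : Type*} [NormedAddCommGroup V] [InnerProductSpace ℝ V]

theorem xvbf_orth_span {L : List V} {v : V} (h : ∀ a ∈ L, ⟪v, a⟫_ℝ = 0) {x : V}
    (hx : x ∈ Submodule.span ℝ {y : V | y ∈ L}) : ⟪v, x⟫_ℝ = 0 := by
  induction hx using Submodule.span_induction with
  | mem y hy => exact h y hy
  | zero => exact inner_zero_right v
  | add y z _ _ hy hz => rw [inner_add_right, hy, hz, add_zero]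
  | smul r y _ hy => rw [inner_smul_right, hy, mul_zero]

theorem xvbf_inj [FiniteDimensional ℝ V] (hF : Stmt_FixIndep V) {L : List V} (hn : L.Nodup)
    (hl : LinearIndepOn ℝ id {x : V | x ∈ L}) {x : V}
    (hx : x ∈ Submodule.span ℝ {y : V | y ∈ L}) (h : x - cox L x = 0) : x = 0 := by
  have h1 : cox L x = x := (sub_eq_zero.1 h).symm
  have h2 := (hF L hn hl x).1 h1
  have h3 := xvbf_orth_span h2 hx
  exact inner_self_eq_zero.1 h3

theorem xvbf_exists [FiniteDimensional ℝ V] (hF : Stmt_FixIndep V) {L : List V} (hn : L.Nodup)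
    (hl : LinearIndepOn ℝ id {x : V | x ∈ L}) {a : V}
    (ha : a ∈ Submodule.span ℝ {y : V | y ∈ L}) :
    ∃ x ∈ Submodule.span ℝ {y : V | y ∈ L}, x - cox L x = a := by
  set S := Submodule.span ℝ {y : V | y ∈ L} with hS
  let f : V →ₗ[ℝ] V := LinearMap.id - (cox L).toLinearEquiv.toLinearMap
  have hf : ∀ x, f x = x - cox L x := fun x => rfl
  let g : S →ₗ[ℝ] S := (f.comp S.subtype).codRestrict S (by
    intro x
    show f x ∈ S
    rw [hf]
    exact sub_cox_mem_span L x)
  have hg : ∀ x : S, ((g x : S) : V) = (x : V) - cox L x := fun x => rfl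
  have hinj : Function.Injective g := by
    rw [injective_iff_map_eq_zero]
    intro x hx
    have h1 : (x : V) - cox L x = 0 := by
      rw [← hg, hx]
      rfl
    have h2 := xvbf_inj hF hn hl x.2 h1
    exact Subtype.ext h2
  have hsurj : Function.Surjective g := LinearMap.surjective_of_injective hinj
  obtain ⟨x, hx⟩ := hsurj ⟨a, ha⟩
  refine ⟨x, x.2, ?_⟩
  rw [← hg, hx]

theorem xvbf_uniq [FiniteDimensional ℝ V] (hF : Stmt_FixIndep V) {L : List V} (hn : L.Nodup)
    (hl : LinearIndepOn ℝ id {x : V | x ∈ L}) {x y : V}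
    (hx : x ∈ Submodule.span ℝ {y : V | y ∈ L}) (hy : y ∈ Submodule.span ℝ {y : V | y ∈ L})
    (h : x - cox L x = y - cox L y) : x = y := by
  have h1 : x - y = 0 := by
    apply xvbf_inj hF hn hl (Submodule.sub_mem _ hx hy)
    rw [map_sub]
    have : x - y - (cox L x - cox L y) = (x - cox L x) - (y - cox L y) := by abel
    rw [this, h, sub_self]
  exact sub_eq_zero.1 h1

/-- Existence, uniqueness and linearity of `xv`. -/
theorem cXv [FiniteDimensional ℝ V] (hF : Stmt_FixIndep V) : Stmt_Xv V := by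
  intro L hn hl
  have h1 : ∀ a ∈ Submodule.span ℝ {y : V | y ∈ L},
      xv L a ∈ Submodule.span ℝ {y : V | y ∈ L} ∧ xv L a - cox L (xv L a) = a := by
    intro a ha
    have hex := xvbf_exists hF hn hl ha
    have : xv L a = hex.choose := by
      unfold xv
      rw [dif_pos hex]
    rw [this]
    exact hex.choose_spec
  have h2 : ∀ x ∈ Submodule.span ℝ {y : V | y ∈ L}, xv L (x - cox L x) = x := by
    intro x hx
    obtain ⟨h3, h4⟩ := h1 _ (sub_cox_mem_span L x)
    exact xvbf_uniq hF hn hl h3 hx h4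
  refine ⟨h1, h2, ?_, ?_⟩
  · intro a ha b hb
    obtain ⟨h3, h4⟩ := h1 a ha
    obtain ⟨h5, h6⟩ := h1 b hb
    have h7 := h2 _ (Submodule.add_mem _ h3 h5)
    have h8 : xv L a + xv L b - cox L (xv L a + xv L b) = a + b := by
      rw [map_add]
      have : xv L a + xv L b - (cox L (xv L a) + cox L (xv L b)) =
        (xv L a - cox L (xv L a)) + (xv L b - cox L (xv L b)) := by abel
      rw [this, h4, h6]
    rw [h8] at h7
    exact h7
  · intro r a ha
    obtain ⟨h3, h4⟩ := h1 a ha
    have h7 := h2 _ (Submodule.smul_mem _ r h3)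
    have h8 : r • xv L a - cox L (r • xv L a) = r • a := by
      rw [map_smul, ← smul_sub, h4]
    rw [h8] at h7
    exact h7

/-- The identities for `B`. -/
theorem cBf [FiniteDimensional ℝ V] (hX : Stmt_Xv V) : Stmt_Bf V := by
  intro L hn hl a ha b hb
  obtain ⟨h1, h2, _, _⟩ := hX L hn hl
  obtain ⟨hx, hxa⟩ := h1 a ha
  obtain ⟨hy, hyb⟩ := h1 b hb
  set x := xv L a with hxdef
  set y := xv L b with hydef
  have hcx : cox L x = x - a := by
    rw [← hxa]
    abel
  have hcy : cox L y = y - b := by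
    rw [← hyb]
    abel
  have h3 : ⟪x, b⟫_ℝ + ⟪y, a⟫_ℝ = ⟪a, b⟫_ℝ := by
    have h4 := inner_mapE (cox L) x y
    rw [hcx, hcy, inner_sub_left, inner_sub_right, inner_sub_right] at h4
    rw [real_inner_comm a y]
    linarith
  refine ⟨h3, ?_, ?_⟩
  · have h5 : xv L (cox L a) = cox L x := by
      have h6 : cox L x ∈ Submodule.span ℝ {y : V | y ∈ L} := by
        rw [hcx]
        exact Submodule.sub_mem _ hx ha
      have h7 := h2 _ h6
      have h8 : cox L x - cox L (cox L x) = cox L a := by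
        rw [← map_sub, hxa]
      rw [h8] at h7
      exact h7
    show ⟪xv L (cox L a), cox L b⟫_ℝ = ⟪x, b⟫_ℝ
    rw [h5]
    exact inner_mapE (cox L) x b
  · show ⟪x, (cox L)⁻¹ b⟫_ℝ = -⟪y, a⟫_ℝ
    rw [real_inner_comm, inner_invE, real_inner_comm, hcx, inner_sub_left]
    linarith

end

end Pool.Agent.CPF
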