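import Pool.Agent.CPF.Basic
import Pool.Agent.CPF.FixInd
import Pool.Agent.CPF.Rot
import Pool.Agent.CPF.TLem
import Pool.Agent.CPF.RankY
import Pool.Agent.CPF.LemX
import Pool.Agent.CPF.WFin
import Pool.Agent.CPF.GenK
import Pool.Agent.CPF.StabH
import Pool.Agent.CPF.OrbDom
import Pool.Agent.CPF.OrbHelly
import Pool.Agent.CPF.XvBf
import Pool.Agent.CPF.BfSimple
import Pool.Agent.CPF.BfList
import Pool.Agent.CPF.FixRoot
import Pool.Agent.CPF.Carter
import Pool.Agent.CPF.NCList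
import Pool.Agent.CPF.NCUniq
import Pool.Agent.CPF.NCStab
import Pool.Agent.CPF.HellyPF
import Pool.Agent.CPF.RotM
import Pool.Agent.CPF.Listing
import Pool.Agent.CPF.Listing2
import Pool.Agent.CPF.Single
import Pool.Agent.CPF.ProdUniq
import Pool.Agent.CPF.Flag

/-!
MP_b68fb8_co: assembly.
-/

namespace Pool.Agent.CPF

variable (V : Type*) [NormedAddCommGroup V] [InnerProductSpace ℝ V] [FiniteDimensional ℝ V]

theorem all_FixIndep : Stmt_FixIndep V := cFixIndep
theorem all_Fix : Stmt_Fix V := cFix (all_FixIndep V)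
theorem all_RotInd : Stmt_RotInd V := cRotInd (all_Fix V)
theorem all_RotRoot : Stmt_RotRoot V := cRotRoot (all_RotInd V)
theorem all_T : Stmt_T V := cT (all_RotRoot V) (all_FixIndep V)
theorem all_Rank : Stmt_Rank V := cRank
theorem all_Y : Stmt_Y V := cY (all_T V) (all_Rank V)
theorem all_X : Stmt_X V := cX (all_Rank V) (all_Y V) (all_RotInd V)
theorem all_WFin : Stmt_WFin V := cWFin
theorem all_WDom : Stmt_WDom V := cWDom (all_WFin V)
theorem all_Gen : Stmt_Gen V := cGen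
theorem all_WK : Stmt_WK V := cWK (all_Gen V)
theorem all_H0 : Stmt_H0 V := cH0 (all_WDom V) (all_WK V)
theorem all_Stab : Stmt_Stab V := cStab (all_WDom V) (all_WK V)
theorem all_OrbDom : Stmt_OrbDom V :=
  cOrbDom (all_T V) (all_H0 V) (all_Stab V) (all_X V) (all_WFin V)
theorem all_Orb : Stmt_Orb V := cOrb (all_RotRoot V) (all_OrbDom V) (all_FixIndep V)
theorem all_Helly : Stmt_Helly V := cHelly (all_Orb V)
theorem all_Xv : Stmt_Xv V := cXv (all_FixIndep V)
theorem all_Bf : Stmt_Bf V := cBf (all_Xv V)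
theorem all_BfSimple : Stmt_BfSimple V := cBfSimple (all_Xv V) (all_Bf V)
theorem all_BfSwap : Stmt_BfSwap V := cBfSwap (all_Xv V) (all_Bf V)
theorem all_BfIndep : Stmt_BfIndep V := cBfIndep (all_Xv V) (all_Bf V)
theorem all_BfProd : Stmt_BfProd V := cBfProd (all_Xv V) (all_Bf V)
theorem all_FixRoot : Stmt_FixRoot V := cFixRoot (all_Stab V)
theorem all_Carter : Stmt_Carter V := cCarter (all_FixRoot V)
theorem all_Reduced : Stmt_Reduced V := cReduced (all_Carter V) (all_FixIndep V)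
theorem all_NCList : Stmt_NCList V :=
  cNCList (all_Carter V) (all_Reduced V) (all_BfIndep V) (all_BfProd V) (all_Xv V) (all_FixIndep V)
theorem all_NCUniq : Stmt_NCUniq V := cNCUniq (all_Carter V) (all_Reduced V) (all_FixIndep V)
theorem all_NCStab : Stmt_NCStab V := cNCStab (all_Carter V) (all_Reduced V) (all_FixIndep V)
theorem all_HellyPF : Stmt_HellyPF V := cHellyPF (all_WFin V) (all_NCStab V) (all_Helly V)
theorem all_RotM : Stmt_RotM V := cRotM
theorem all_RotHit : Stmt_RotHit V := cRotHit (all_RotM V) (all_Fix V)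
theorem all_Listing : Stmt_Listing V :=
  cListing (all_RotM V) (all_RotHit V) (all_Bf V) (all_BfSimple V) (all_Xv V)
theorem all_Listing2 : Stmt_Listing2 V := cListing2 (all_Listing V) (all_BfSwap V)
theorem all_Single : Stmt_Single V := cSingle (all_Xv V) (all_Bf V) (all_FixIndep V)
theorem all_ProdUniq : Stmt_ProdUniq V :=
  cProdUniq (all_Listing2 V) (all_NCList V) (all_Reduced V) (all_FixIndep V) (all_NCUniq V)
theorem all_Flag : Stmt_Flag V :=
  cFlag (all_Listing2 V) (all_NCList V) (all_BfProd V) (all_BfIndep V) (all_Single V) (all_Helly V)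

variable {V}

theorem main_flag (Φ : Set V) (P Q P' Q' : List V) (m : ℕ) (h : Bip Φ P Q) (hm : 1 ≤ m)
    (hPQ : (P' = P ∧ Q' = Q) ∨ (P' = Q ∧ Q' = P)) :
    FlagE (CPF Φ P Q P' Q' m) ∧ FlagE (CPFpos Φ P Q P' Q' m) :=
  all_Flag V Φ P Q P' Q' m h hm hPQ

theorem main_helly (Φ : Set V) (L : List V) (h : RS Φ L) (A : Set (Set (V ≃ₗᵢ[ℝ] V)))
    (hA : A ⊆ PF Φ (cox L)) (hp : ∀ C ∈ A, ∀ D ∈ A, (C ∩ D).Nonempty) :
    ∃ w ∈ Wg Φ, ∀ C ∈ A, w ∈ C :=
  all_HellyPF V Φ L h A hA hp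

end Pool.Agent.CPF
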