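import Pool.Agent.CPF.Stmts

/-!
Basic library for MP_b68fb8_co.
-/

namespace Pool.Agent.CPF

open scoped InnerProductSpace NNReal

section refl
variable {V : Type*} [NormedAddCommGroup V] [InnerProductSpace ℝ V]

theorem refl_apply (a v : V) : refl a v = v - (2 * ⟪v, a⟫_ℝ / ⟪a, a⟫_ℝ) • a := by
  unfold refl
  rw [Submodule.reflection_orthogonal_apply, Submodule.reflection_singleton_apply]
  rw [real_inner_comm v a, real_inner_self_eq_norm_sq, neg_sub]
  simp only [RCLike.ofReal_real_eq_id, id_eq, two_smul, ← add_smul]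
  congr 2
  ring

theorem refl_self (a : V) : refl a a = -a := by
  unfold refl
  exact Submodule.reflection_orthogonalComplement_singleton_eq_neg a

theorem refl_refl (a v : V) : refl a (refl a v) = v := by
  unfold refl
  exact Submodule.reflection_reflection _ v

theorem mulE_apply (g h : V ≃ₗᵢ[ℝ] V) (v : V) : (g * h) v = g (h v) := rfl

theorem oneE_apply (v : V) : (1 : V ≃ₗᵢ[ℝ] V) v = v := rfl

theorem invE_apply_self (g : V ≃ₗᵢ[ℝ] V) (v : V) : g⁻¹ (g v) = v := g.symm_apply_apply v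

theorem applyE_inv_self (g : V ≃ₗᵢ[ℝ] V) (v : V) : g (g⁻¹ v) = v := g.apply_symm_apply v

theorem refl_mul_refl (a : V) : refl a * refl a = 1 := by
  ext v
  exact refl_refl a v

theorem refl_inv (a : V) : (refl a)⁻¹ = refl a :=
  inv_eq_of_mul_eq_one_left (refl_mul_refl a)

theorem refl_smul {r : ℝ} (hr : r ≠ 0) (a : V) : refl (r • a) = refl a := by
  ext v
  rw [refl_apply, refl_apply, smul_smul]
  congr 2
  rw [inner_smul_right, inner_smul_left, inner_smul_right]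
  simp only [conj_trivial]
  by_cases h : ⟪a, a⟫_ℝ = 0
  · rw [h]; simp
  · field_simp

theorem refl_neg (a : V) : refl (-a) = refl a := by
  have := refl_smul (r := -1) (by norm_num) a
  rwa [neg_one_smul] at this

theorem refl_of_orth {a v : V} (h : ⟪v, a⟫_ℝ = 0) : refl a v = v := by
  rw [refl_apply, h]; simp

theorem refl_eq_self_iff {a v : V} : refl a v = v ↔ ⟪v, a⟫_ℝ = 0 := by
  constructor
  · intro h
    rw [refl_apply, sub_eq_self, smul_eq_zero] at h
    rcases h with h | h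
    · rw [div_eq_zero_iff] at h
      rcases h with h | h
      · linarith
      · rw [inner_self_eq_zero] at h
        rw [h, inner_zero_right]
    · rw [h, inner_zero_right]
  · exact refl_of_orth

theorem inner_mapE (g : V ≃ₗᵢ[ℝ] V) (v w : V) : ⟪g v, g w⟫_ℝ = ⟪v, w⟫_ℝ :=
  g.inner_map_map v w

theorem inner_invE (g : V ≃ₗᵢ[ℝ] V) (v w : V) : ⟪g⁻¹ v, w⟫_ℝ = ⟪v, g w⟫_ℝ := by
  rw [← inner_mapE g (g⁻¹ v) w, applyE_inv_self]

theorem inner_refl (a v w : V) : ⟪refl a v, w⟫_ℝ = ⟪v, refl a w⟫_ℝ := by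
  rw [← inner_mapE (refl a) (refl a v) w, refl_refl]

theorem inner_refl_self (a v : V) : ⟪refl a v, a⟫_ℝ = -⟪v, a⟫_ℝ := by
  rw [inner_refl, refl_self, inner_neg_right]

theorem refl_conj (g : V ≃ₗᵢ[ℝ] V) (a : V) : refl (g a) = g * refl a * g⁻¹ := by
  ext v
  rw [mulE_apply, mulE_apply, refl_apply, refl_apply, map_sub, map_smul, applyE_inv_self,
    inner_invE, inner_mapE]

theorem refl_sub_of_norm {a v w : V} (h : w = v - a) (hn : ⟪w, w⟫_ℝ = ⟪v, v⟫_ℝ) :
    refl a v = w := by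
  subst h
  have h1 : 2 * ⟪v, a⟫_ℝ = ⟪a, a⟫_ℝ := by
    rw [inner_sub_left, inner_sub_right, inner_sub_right, real_inner_comm v a] at hn
    have := real_inner_comm v a
    linarith
  rw [refl_apply, h1]
  by_cases ha : ⟪a, a⟫_ℝ = 0
  · rw [inner_self_eq_zero] at ha
    subst ha
    simp
  · rw [div_self ha, one_smul]

theorem cox_nil : cox ([] : List V) = 1 := rfl

theorem cox_cons (a : V) (L : List V) : cox (a :: L) = refl a * cox L := by
  simp [cox]

theorem cox_append (L M : List V) : cox (L ++ M) = cox L * cox M := by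
  simp [cox]

theorem cox_singleton (a : V) : cox [a] = refl a := by
  simp [cox]

theorem cox_reverse (L : List V) : cox L.reverse = (cox L)⁻¹ := by
  induction L with
  | nil => simp [cox]
  | cons a L ih =>
    rw [List.reverse_cons, cox_append, ih, cox_singleton, cox_cons, mul_inv_rev, refl_inv]

theorem sub_cox_mem_span (L : List V) (v : V) :
    v - cox L v ∈ Submodule.span ℝ {x : V | x ∈ L} := by
  induction L with
  | nil =>
    rw [cox_nil, oneE_apply, sub_self]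
    exact Submodule.zero_mem _
  | cons a L ih =>
    rw [cox_cons, mulE_apply, refl_apply]
    have h1 : v - (cox L v - (2 * ⟪cox L v, a⟫_ℝ / ⟪a, a⟫_ℝ) • a) =
        (v - cox L v) + (2 * ⟪cox L v, a⟫_ℝ / ⟪a, a⟫_ℝ) • a := by abel
    rw [h1]
    apply Submodule.add_mem
    · refine Submodule.span_mono ?_ ih
      intro x hx
      exact List.mem_cons_of_mem a hx
    · apply Submodule.smul_mem
      apply Submodule.subset_span
      exact List.mem_cons_self

theorem cox_of_orth {L : List V} {v : V} (h : ∀ a ∈ L, ⟪v, a⟫_ℝ = 0) : cox L v = v := by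
  induction L with
  | nil => rfl
  | cons a L ih =>
    rw [cox_cons, mulE_apply, ih (fun b hb => h b (List.mem_cons_of_mem a hb))]
    exact refl_of_orth (h a List.mem_cons_self)

theorem cox_rot (a : V) (L₁ : List V) : cox (L₁ ++ [a]) = refl a * cox (a :: L₁) * refl a := by
  rw [cox_append, cox_singleton, cox_cons, ← mul_assoc, refl_mul_refl, one_mul]

theorem sub_cox_rot (a : V) (L₁ : List V) (v : V) :
    refl a v - cox (L₁ ++ [a]) (refl a v) = refl a (v - cox (a :: L₁) v) := by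
  rw [cox_rot, mulE_apply, mulE_apply, refl_refl, map_sub]

theorem VV_rot {Φ : Set V} {a : V} {L₁ : List V} (cl : ∀ b ∈ Φ, refl a b ∈ Φ) {v : V}
    (hv : v ∈ VV Φ (a :: L₁)) : refl a v ∈ VV Φ (L₁ ++ [a]) := by
  show refl a v - cox (L₁ ++ [a]) (refl a v) ∈ Φ
  rw [sub_cox_rot]
  exact cl _ hv

/-! group `Wg Φ` -/
theorem refl_mem_Wg {Φ : Set V} {a : V} (h : a ∈ Φ) : refl a ∈ Wg Φ :=
  Subgroup.subset_closure ⟨a, h, rfl⟩

theorem cox_mem_Wg {Φ : Set V} {L : List V} (h : ∀ a ∈ L, a ∈ Φ) : cox L ∈ Wg Φ := by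
  induction L with
  | nil => exact (Wg Φ).one_mem
  | cons a L ih =>
    rw [cox_cons]
    exact (Wg Φ).mul_mem (refl_mem_Wg (h a List.mem_cons_self))
      (ih (fun b hb => h b (List.mem_cons_of_mem a hb)))

theorem Wg_mem_iff {Φ : Set V} {w : V ≃ₗᵢ[ℝ] V} :
    w ∈ Wg Φ ↔ ∃ l : List V, (∀ a ∈ l, a ∈ Φ) ∧ cox l = w := by
  constructor
  · intro h
    induction h using Subgroup.closure_induction with
    | mem x hx =>
      obtain ⟨a, ha, rfl⟩ := hx
      exact ⟨[a], by simpa using ha, cox_singleton a⟩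
    | one => exact ⟨[], by simp, rfl⟩
    | mul x y _ _ hx hy =>
      obtain ⟨l, hl, rfl⟩ := hx
      obtain ⟨m, hm, rfl⟩ := hy
      refine ⟨l ++ m, ?_, cox_append l m⟩
      intro a ha
      rcases List.mem_append.1 ha with h | h
      · exact hl a h
      · exact hm a h
    | inv x _ hx =>
      obtain ⟨l, hl, rfl⟩ := hx
      exact ⟨l.reverse, fun a ha => hl a (List.mem_reverse.1 ha), cox_reverse l⟩
  · rintro ⟨l, hl, rfl⟩
    exact cox_mem_Wg hl

theorem Wg_mono {Φ Ψ : Set V} (h : Φ ⊆ Ψ) : Wg Φ ≤ Wg Ψ :=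
  Subgroup.closure_mono (Set.image_mono h)

theorem Wg_map_mem {Φ : Set V} (cl : ∀ a ∈ Φ, ∀ b ∈ Φ, refl a b ∈ Φ) {w : V ≃ₗᵢ[ℝ] V}
    (hw : w ∈ Wg Φ) {b : V} (hb : b ∈ Φ) : w b ∈ Φ := by
  obtain ⟨l, hl, rfl⟩ := Wg_mem_iff.1 hw
  clear hw
  induction l with
  | nil => exact hb
  | cons a l ih =>
    rw [cox_cons, mulE_apply]
    exact cl a (hl a List.mem_cons_self) _ (ih (fun c hc => hl c (List.mem_cons_of_mem a hc)))

theorem Wg_fix_orth {Φ : Set V} {w : V ≃ₗᵢ[ℝ] V} (hw : w ∈ Wg Φ) {v : V}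
    (h : ∀ a ∈ Φ, ⟪v, a⟫_ℝ = 0) : w v = v := by
  obtain ⟨l, hl, rfl⟩ := Wg_mem_iff.1 hw
  exact cox_of_orth (fun a ha => h a (hl a ha))

theorem Wg_sub_mem_span {Φ : Set V} {w : V ≃ₗᵢ[ℝ] V} (hw : w ∈ Wg Φ) (v : V) :
    v - w v ∈ Submodule.span ℝ Φ := by
  obtain ⟨l, hl, rfl⟩ := Wg_mem_iff.1 hw
  exact Submodule.span_mono (fun a ha => hl a ha) (sub_cox_mem_span l v)

/-! cones -/
theorem subset_cone {S : Set V} {v : V} (h : v ∈ S) : v ∈ cone S := Submodule.subset_span h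

theorem cone_mono {S T : Set V} (h : S ⊆ T) {v : V} (hv : v ∈ cone S) : v ∈ cone T :=
  Submodule.span_mono h hv

theorem cone_le {S T : Set V} (h : ∀ s ∈ S, s ∈ cone T) {v : V} (hv : v ∈ cone S) :
    v ∈ cone T := Submodule.span_le.2 h hv

theorem cone_add {S : Set V} {v w : V} (hv : v ∈ cone S) (hw : w ∈ cone S) :
    v + w ∈ cone S := Submodule.add_mem _ hv hw

theorem cone_zero (S : Set V) : (0 : V) ∈ cone S := Submodule.zero_mem _

theorem cone_smul {S : Set V} {v : V} {r : ℝ} (hr : 0 ≤ r) (hv : v ∈ cone S) :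
    r • v ∈ cone S := by
  have h := Submodule.smul_mem (cone S) (⟨r, hr⟩ : ℝ≥0) hv
  exact h

theorem cone_sum {S : Set V} {ι : Type*} (s : Finset ι) (f : ι → V) (h : ∀ i ∈ s, f i ∈ cone S) :
    ∑ i ∈ s, f i ∈ cone S := Submodule.sum_mem _ h

theorem cone_ind {S : Set V} {p : V → Prop} (h0 : p 0)
    (h1 : ∀ (r : ℝ) (s v : V), 0 ≤ r → s ∈ S → v ∈ cone S → p v → p (r • s + v)) {v : V}
    (hv : v ∈ cone S) : p v := by
  have key : ∀ u ∈ cone S, p u → p (v + u) := by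
    unfold cone at hv
    induction hv using Submodule.closure_induction with
    | zero => intro u _ hu; rwa [zero_add]
    | add x y hx hy h2 h3 =>
      intro u hu hpu
      rw [add_assoc]
      exact h2 _ (cone_add hy hu) (h3 u hu hpu)
    | smul_mem r x hx =>
      intro u hu hpu
      exact h1 r x u r.2 hx hu hpu
  have := key 0 (cone_zero S) h0
  rwa [add_zero] at this

theorem cone_mem_span {S : Set V} {v : V} (hv : v ∈ cone S) : v ∈ Submodule.span ℝ S := by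
  refine cone_ind (p := fun v => v ∈ Submodule.span ℝ S) (Submodule.zero_mem _) ?_ hv
  intro r s v _ hs _ hv
  exact Submodule.add_mem _ (Submodule.smul_mem _ _ (Submodule.subset_span hs)) hv

theorem cone_map {S T : Set V} (g : V →ₗ[ℝ] V) (h : ∀ s ∈ S, g s ∈ cone T) {v : V}
    (hv : v ∈ cone S) : g v ∈ cone T := by
  refine cone_ind (p := fun v => g v ∈ cone T) ?_ ?_ hv
  · show g 0 ∈ cone T
    rw [map_zero]; exact cone_zero T
  · intro r s v hr hs _ hv
    show g (r • s + v) ∈ cone T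
    rw [map_add, map_smul]
    exact cone_add (cone_smul hr (h s hs)) hv

theorem cone_mapE {S T : Set V} (g : V ≃ₗᵢ[ℝ] V) (h : ∀ s ∈ S, g s ∈ cone T) {v : V}
    (hv : v ∈ cone S) : g v ∈ cone T :=
  cone_map (g.toLinearEquiv : V →ₗ[ℝ] V) h hv

theorem cone_nonneg {S : Set V} (φ : V →ₗ[ℝ] ℝ) (h : ∀ s ∈ S, 0 ≤ φ s) {v : V}
    (hv : v ∈ cone S) : 0 ≤ φ v := by
  refine cone_ind (p := fun v => 0 ≤ φ v) (by simp) ?_ hv
  intro r s v hr hs _ hv
  rw [map_add, map_smul, smul_eq_mul]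
  exact add_nonneg (mul_nonneg hr (h s hs)) hv

theorem cone_inner_nonneg {S : Set V} {x : V} (h : ∀ s ∈ S, 0 ≤ ⟪x, s⟫_ℝ) {v : V}
    (hv : v ∈ cone S) : 0 ≤ ⟪x, v⟫_ℝ :=
  cone_nonneg (innerₗ V x) (fun s hs => h s hs) hv

theorem cone_insert {S : Set V} {a v : V} (hv : v ∈ cone (insert a S)) :
    ∃ e ∈ cone S, ∃ r : ℝ, 0 ≤ r ∧ v = e + r • a := by
  refine cone_ind (p := fun v => ∃ e ∈ cone S, ∃ r : ℝ, 0 ≤ r ∧ v = e + r • a) ?_ ?_ hv
  · exact ⟨0, cone_zero S, 0, le_refl _, by simp⟩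
  · rintro r s v hr hs _ ⟨e, he, t, ht, rfl⟩
    rcases Set.mem_insert_iff.1 hs with rfl | hs
    · refine ⟨e, he, r + t, add_nonneg hr ht, ?_⟩
      rw [add_smul]; abel
    · refine ⟨r • s + e, cone_add (cone_smul hr (subset_cone hs)) he, t, ht, ?_⟩
      abel

theorem cone_inter_of_face {S : Set V} (φ : V →ₗ[ℝ] ℝ) (h : ∀ s ∈ S, 0 ≤ φ s) {v : V}
    (hv : v ∈ cone S) (h0 : φ v = 0) : v ∈ cone {s : V | s ∈ S ∧ φ s = 0} := by
  have key : φ v = 0 → v ∈ cone {s : V | s ∈ S ∧ φ s = 0} := by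
    refine cone_ind (p := fun v => φ v = 0 → v ∈ cone {s : V | s ∈ S ∧ φ s = 0}) ?_ ?_ hv
    · intro _; exact cone_zero _
    · intro r s v hr hs hv ih h2
      rw [map_add, map_smul, smul_eq_mul] at h2
      have h3 := mul_nonneg hr (h s hs)
      have h4 := cone_nonneg φ h hv
      have h5 : φ v = 0 := by linarith
      have h6 : r * φ s = 0 := by linarith
      refine cone_add ?_ (ih h5)
      rcases mul_eq_zero.1 h6 with h7 | h7
      · rw [h7, zero_smul]; exact cone_zero _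
      · exact cone_smul hr (subset_cone ⟨hs, h7⟩)
  exact key h0

theorem mem_cone_list {L : List V} {a : V} (h : a ∈ L) : a ∈ cone {x : V | x ∈ L} :=
  subset_cone h

theorem set_perm {L L' : List V} (h : L.Perm L') : {x : V | x ∈ L} = {x : V | x ∈ L'} := by
  ext x
  exact h.mem_iff

theorem set_rot (a : V) (L₁ : List V) : {x : V | x ∈ L₁ ++ [a]} = {x : V | x ∈ a :: L₁} :=
  set_perm (List.perm_append_singleton a L₁)

theorem set_cons (a : V) (L₁ : List V) :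
    {x : V | x ∈ a :: L₁} = insert a {x : V | x ∈ L₁} := by
  ext x
  exact List.mem_cons

end refl

section RS
variable {V : Type*} [NormedAddCommGroup V] [InnerProductSpace ℝ V]

theorem RS.neg_mem {Φ : Set V} {L : List V} (h : RS Φ L) {a : V} (ha : a ∈ Φ) : -a ∈ Φ := by
  have := h.cl a ha a ha
  rwa [refl_self] at this

theorem RS.perm {Φ : Set V} {L L' : List V} (h : RS Φ L) (hp : L.Perm L') : RS Φ L' where
  fin := h.fin
  ne0 := h.ne0
  red := h.red
  cl := h.cl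
  sub := fun a ha => h.sub a (hp.mem_iff.2 ha)
  nd := hp.nodup_iff.1 h.nd
  li := by rw [← set_perm hp]; exact h.li
  pm := by rw [← set_perm hp]; exact h.pm

theorem RS.rot {Φ : Set V} {a : V} {L₁ : List V} (h : RS Φ (a :: L₁)) : RS Φ (L₁ ++ [a]) :=
  h.perm (List.perm_append_singleton a L₁).symm

theorem RS.map_mem {Φ : Set V} {L : List V} (h : RS Φ L) {w : V ≃ₗᵢ[ℝ] V} (hw : w ∈ Wg Φ) {b : V}
    (hb : b ∈ Φ) : w b ∈ Φ := Wg_map_mem h.cl hw hb

theorem RS.cox_mem {Φ : Set V} {L : List V} (h : RS Φ L) : cox L ∈ Wg Φ := cox_mem_Wg h.sub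

theorem RS.mem_span {Φ : Set V} {L : List V} (h : RS Φ L) {b : V} (hb : b ∈ Φ) :
    b ∈ Submodule.span ℝ {x : V | x ∈ L} := by
  rcases h.pm b hb with h1 | h1
  · exact cone_mem_span h1
  · have := Submodule.neg_mem _ (cone_mem_span h1)
    rwa [neg_neg] at this

theorem RS.span_eq {Φ : Set V} {L : List V} (h : RS Φ L) :
    Submodule.span ℝ Φ = Submodule.span ℝ {x : V | x ∈ L} := by
  apply le_antisymm
  · exact Submodule.span_le.2 (fun b hb => h.mem_span hb)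
  · exact Submodule.span_mono (fun b hb => h.sub b hb)

theorem orth_span {S : Set V} {v : V} (hv : ∀ a ∈ S, ⟪v, a⟫_ℝ = 0) {b : V}
    (hb : b ∈ Submodule.span ℝ S) : ⟪v, b⟫_ℝ = 0 := by
  induction hb using Submodule.span_induction with
  | mem x hx => exact hv x hx
  | zero => exact inner_zero_right _
  | add x y _ _ hx hy => rw [inner_add_right, hx, hy, add_zero]
  | smul r x _ hx => rw [inner_smul_right, hx, mul_zero]

theorem RS.orth_all {Φ : Set V} {L : List V} (h : RS Φ L) {v : V}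
    (hv : ∀ a ∈ L, ⟪v, a⟫_ℝ = 0) : ∀ b ∈ Φ, ⟪v, b⟫_ℝ = 0 := fun b hb =>
  orth_span (S := {x : V | x ∈ L}) hv (h.mem_span hb)

/-- extension of a functional from a linearly independent list -/
theorem li_functional {S : Set V} (h : LinearIndepOn ℝ id S) (f : V → ℝ) :
    ∃ φ : V →ₗ[ℝ] ℝ, ∀ a ∈ S, φ a = f a := by
  refine ⟨(Module.Basis.extend h).constr ℝ (fun x => f (x : V)), ?_⟩
  intro a ha
  have h1 := (Module.Basis.extend h).constr_basis ℝ (fun x => f (x : V))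
    ⟨a, Module.Basis.subset_extend h ha⟩
  rw [Module.Basis.extend_apply_self] at h1
  exact h1

theorem RS.pointed {Φ : Set V} {L : List V} (h : RS Φ L) {v : V}
    (h1 : v ∈ cone {x : V | x ∈ L}) (h2 : -v ∈ cone {x : V | x ∈ L}) : v = 0 := by
  obtain ⟨φ, hφ⟩ := li_functional h.li (fun _ => 1)
  have h3 : 0 ≤ φ v := cone_nonneg φ (fun s hs => by rw [hφ s hs]; norm_num) h1
  have h4 : 0 ≤ φ (-v) := cone_nonneg φ (fun s hs => by rw [hφ s hs]; norm_num) h2
  rw [map_neg] at h4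
  have h5 : φ v = 0 := by linarith
  have h6 := cone_inter_of_face φ (fun s hs => by rw [hφ s hs]; norm_num) h1 h5
  have h7 : {s : V | s ∈ {x : V | x ∈ L} ∧ φ s = 0} = ∅ := by
    ext s
    simp only [Set.mem_ofPred_eq, Set.mem_empty_iff_false, iff_false, not_and]
    intro hs
    rw [hφ s hs]; norm_num
  rw [h7] at h6
  simpa [cone] using h6

theorem RS.not_pos_neg {Φ : Set V} {L : List V} (h : RS Φ L) {b : V} (hb : b ∈ Pos Φ L) :
    -b ∉ Pos Φ L := fun h2 => h.ne0 b hb.1 (h.pointed hb.2 h2.2)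

theorem RS.pos_or {Φ : Set V} {L : List V} (h : RS Φ L) {b : V} (hb : b ∈ Φ) :
    b ∈ Pos Φ L ∨ -b ∈ Pos Φ L := by
  rcases h.pm b hb with h1 | h1
  · exact Or.inl ⟨hb, h1⟩
  · exact Or.inr ⟨h.neg_mem hb, h1⟩

theorem RS.simple_pos {Φ : Set V} {L : List V} (h : RS Φ L) {a : V} (ha : a ∈ L) :
    a ∈ Pos Φ L := ⟨h.sub a ha, mem_cone_list ha⟩

theorem RS.coef0 {Φ : Set V} {a : V} {L₁ : List V} (h : RS Φ (a :: L₁)) :
    ∃ φ : V →ₗ[ℝ] ℝ, φ a = 1 ∧ (∀ b ∈ Submodule.span ℝ {x : V | x ∈ L₁}, φ b = 0) := by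
  classical
  obtain ⟨φ, hφ⟩ := li_functional h.li (fun x => if x = a then 1 else 0)
  refine ⟨φ, ?_, ?_⟩
  · rw [hφ a List.mem_cons_self]; simp
  · intro b hb
    induction hb using Submodule.span_induction with
    | mem x hx =>
      rw [hφ x (List.mem_cons_of_mem a hx)]
      have : x ≠ a := by
        rintro rfl
        exact (List.nodup_cons.1 h.nd).1 hx
      simp [this]
    | zero => exact map_zero φ
    | add x y _ _ hx hy => rw [map_add, hx, hy, add_zero]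
    | smul r x _ hx => rw [map_smul, hx, smul_zero]

theorem RS.head_notMem_span {Φ : Set V} {a : V} {L₁ : List V} (h : RS Φ (a :: L₁)) :
    a ∉ Submodule.span ℝ {x : V | x ∈ L₁} := by
  obtain ⟨φ, h1, h2⟩ := h.coef0
  intro h3
  rw [h2 a h3] at h1
  norm_num at h1

theorem RS.coef {Φ : Set V} {a : V} {L₁ : List V} (h : RS Φ (a :: L₁)) :
    ∃ φ : V →ₗ[ℝ] ℝ, φ a = 1 ∧ (∀ b ∈ Submodule.span ℝ {x : V | x ∈ L₁}, φ b = 0) ∧
      (∀ v ∈ cone {x : V | x ∈ a :: L₁}, 0 ≤ φ v) ∧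
      (∀ v ∈ cone {x : V | x ∈ a :: L₁}, φ v = 0 → v ∈ cone {x : V | x ∈ L₁}) ∧
      (∀ b ∈ Φ, φ b = 0 → b ∈ cone {x : V | x ∈ L₁} ∨ -b ∈ cone {x : V | x ∈ L₁}) := by
  obtain ⟨φ, h1, h2⟩ := h.coef0
  have h3 : ∀ s ∈ {x : V | x ∈ a :: L₁}, 0 ≤ φ s := by
    intro s hs
    rcases List.mem_cons.1 hs with rfl | hs
    · rw [h1]; norm_num
    · rw [h2 s (Submodule.subset_span hs)]
  have h4 : ∀ v ∈ cone {x : V | x ∈ a :: L₁}, φ v = 0 → v ∈ cone {x : V | x ∈ L₁} := by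
    intro v hv h0
    have h5 := cone_inter_of_face φ h3 hv h0
    refine cone_mono ?_ h5
    rintro s ⟨hs, hs0⟩
    rcases List.mem_cons.1 hs with rfl | hs
    · rw [h1] at hs0; norm_num at hs0
    · exact hs
  refine ⟨φ, h1, h2, fun v hv => cone_nonneg φ h3 hv, h4, ?_⟩
  intro b hb h0
  rcases h.pm b hb with h5 | h5
  · exact Or.inl (h4 b h5 h0)
  · exact Or.inr (h4 (-b) h5 (by rw [map_neg, h0, neg_zero]))

/-- a nonzero vector of the cone of `L` that is not a multiple of `a` has a functional -/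
theorem RS.exists_coef_ne {Φ : Set V} {L : List V} (h : RS Φ L) {a b : V} (ha : a ∈ L)
    (hb : b ∈ Pos Φ L) (hne : b ≠ a) :
    ∃ φ : V →ₗ[ℝ] ℝ, φ a = 0 ∧ (∀ s ∈ L, 0 ≤ φ s) ∧ 0 < φ b := by
  classical
  obtain ⟨φ, hφ⟩ := li_functional h.li (fun x => if x = a then 0 else 1)
  have h1 : ∀ s ∈ {x : V | x ∈ L}, 0 ≤ φ s := by
    intro s hs
    rw [hφ s hs]
    split_ifs <;> norm_num
  refine ⟨φ, ?_, h1, ?_⟩
  · rw [hφ a ha]; simp
  · refine lt_of_le_of_ne (cone_nonneg φ h1 hb.2) ?_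
    intro h0
    have h2 := cone_inter_of_face φ h1 hb.2 h0.symm
    have h3 : {s : V | s ∈ {x : V | x ∈ L} ∧ φ s = 0} ⊆ {a} := by
      rintro s ⟨hs, hs0⟩
      rw [hφ s hs] at hs0
      by_contra hne2
      have hne3 : s ≠ a := hne2
      rw [if_neg hne3] at hs0
      norm_num at hs0
    have h4 := cone_mem_span (cone_mono h3 h2)
    obtain ⟨r, hr⟩ := Submodule.mem_span_singleton.1 h4
    have h5 : r = 1 ∨ r = -1 := h.red a (h.sub a ha) r (by rw [hr]; exact hb.1)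
    rcases h5 with rfl | rfl
    · apply hne; rw [← hr, one_smul]
    · have h6 : b = -a := by rw [← hr, neg_one_smul]
      apply h.not_pos_neg hb
      rw [h6, neg_neg]
      exact h.simple_pos ha

theorem RS.refl_pos {Φ : Set V} {L : List V} (h : RS Φ L) {a b : V} (ha : a ∈ L)
    (hb : b ∈ Pos Φ L) (hne : b ≠ a) : refl a b ∈ Pos Φ L := by
  obtain ⟨φ, h0, h1, h2⟩ := h.exists_coef_ne ha hb hne
  have h3 : refl a b ∈ Φ := h.cl a (h.sub a ha) b hb.1
  rcases h.pos_or h3 with h4 | h4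
  · exact h4
  · exfalso
    have h5 : 0 ≤ φ (-(refl a b)) := cone_nonneg φ h1 h4.2
    rw [map_neg, refl_apply, map_sub, map_smul, h0, smul_zero, sub_zero] at h5
    linarith

theorem RS.map {Φ : Set V} {L : List V} (h : RS Φ L) (g : V ≃ₗᵢ[ℝ] V) :
    RS (g '' Φ) (L.map g) := by
  have hset : {x : V | x ∈ L.map g} = g '' {x : V | x ∈ L} := by
    ext x; simp
  have hc : ∀ b : V, b ∈ cone {x : V | x ∈ L} → g b ∈ cone {x : V | x ∈ L.map g} := by
    intro b hb
    refine cone_mapE g ?_ hb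
    intro s hs
    exact subset_cone (List.mem_map.2 ⟨s, hs, rfl⟩)
  refine ⟨h.fin.image g, ?_, ?_, ?_, ?_, h.nd.map g.injective, ?_, ?_⟩
  · rintro _ ⟨a, ha, rfl⟩ h0
    exact h.ne0 a ha (by simpa using h0)
  · rintro _ ⟨a, ha, rfl⟩ r ⟨b, hb, hr⟩
    apply h.red a ha r
    have : b = r • a := by
      apply g.injective
      rw [hr, map_smul]
    rwa [← this]
  · rintro _ ⟨a, ha, rfl⟩ _ ⟨b, hb, rfl⟩
    refine ⟨refl a b, h.cl a ha b hb, ?_⟩
    rw [refl_conj, mulE_apply, mulE_apply, invE_apply_self]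
  · intro x hx
    obtain ⟨a, ha, rfl⟩ := List.mem_map.1 hx
    exact ⟨a, h.sub a ha, rfl⟩
  · rw [hset]
    have h1 := h.li
    have h2 : LinearIndepOn ℝ (g ∘ id) {x : V | x ∈ L} :=
      h1.map_injOn (g.toLinearEquiv : V →ₗ[ℝ] V) (g.injective.injOn)
    have h3 := h2.id_image
    simpa using h3
  · rintro _ ⟨a, ha, rfl⟩
    rcases h.pm a ha with h1 | h1
    · exact Or.inl (hc a h1)
    · right
      have := hc _ h1
      rwa [map_neg] at this

/-- the roots orthogonal to a vector are closed under their reflections -/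
theorem perp_cl {Φ : Set V} (cl : ∀ a ∈ Φ, ∀ b ∈ Φ, refl a b ∈ Φ) (v : V) :
    ∀ a ∈ perp Φ v, ∀ b ∈ perp Φ v, refl a b ∈ perp Φ v := by
  rintro a ⟨ha, ha0⟩ b ⟨hb, hb0⟩
  refine ⟨cl a ha b hb, ?_⟩
  rw [← inner_refl, refl_of_orth ha0]
  exact hb0

theorem perp_map {Φ : Set V} (g : V ≃ₗᵢ[ℝ] V) (hg : ∀ b ∈ Φ, g b ∈ Φ) (hg' : ∀ b ∈ Φ, g⁻¹ b ∈ Φ)
    (v : V) : perp Φ (g v) = g '' perp Φ v := by
  ext b
  constructor
  · rintro ⟨hb, hb0⟩
    refine ⟨g⁻¹ b, ⟨hg' b hb, ?_⟩, applyE_inv_self g b⟩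
    rw [← inner_mapE g, applyE_inv_self]
    exact hb0
  · rintro ⟨a, ⟨ha, ha0⟩, rfl⟩
    refine ⟨hg a ha, ?_⟩
    rw [inner_mapE]
    exact ha0

end RS

section fd
variable {V : Type*} [NormedAddCommGroup V] [InnerProductSpace ℝ V] [FiniteDimensional ℝ V]

/-- prescribing inner products with a linearly independent set -/
theorem li_exists_inner {S : Set V} (h : LinearIndepOn ℝ id S) (f : V → ℝ) :
    ∃ y ∈ Submodule.span ℝ S, ∀ a ∈ S, ⟪y, a⟫_ℝ = f a := by
  obtain ⟨φ, hφ⟩ := li_functional h f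
  set U := Submodule.span ℝ S
  set y₀ := (InnerProductSpace.toDual ℝ V).symm (LinearMap.toContinuousLinearMap φ) with hy0
  have h1 : ∀ v, ⟪y₀, v⟫_ℝ = φ v := by
    intro v
    rw [hy0, InnerProductSpace.toDual_symm_apply]
    rfl
  refine ⟨U.starProjection y₀, Submodule.starProjection_apply_mem U y₀, ?_⟩
  intro a ha
  have ha' : a ∈ U := Submodule.subset_span ha
  have h2 : ⟪y₀ - U.starProjection y₀, a⟫_ℝ = 0 :=
    Submodule.starProjection_inner_eq_zero y₀ a ha'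
  rw [inner_sub_left] at h2
  rw [← hφ a ha, ← h1 a]
  linarith

/-- prescribing inner products with a list of simple roots -/
theorem RS.exists_inner {Φ : Set V} {L : List V} (h : RS Φ L) (f : V → ℝ) :
    ∃ y ∈ Submodule.span ℝ {x : V | x ∈ L}, ∀ a ∈ L, ⟪y, a⟫_ℝ = f a :=
  li_exists_inner h.li f

theorem RS.exists_rho {Φ : Set V} {L : List V} (h : RS Φ L) :
    ∃ ρ : V, (∀ a ∈ L, 0 < ⟪ρ, a⟫_ℝ) ∧ (∀ b ∈ Pos Φ L, 0 < ⟪ρ, b⟫_ℝ) := by
  obtain ⟨y, _, hy⟩ := h.exists_inner (fun _ => 1)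
  refine ⟨y, fun a ha => by rw [hy a ha]; norm_num, ?_⟩
  intro b hb
  have h1 : ∀ s ∈ {x : V | x ∈ L}, 0 ≤ (innerₗ V y) s := by
    intro s hs
    show 0 ≤ ⟪y, s⟫_ℝ
    rw [hy s hs]; norm_num
  refine lt_of_le_of_ne (cone_nonneg _ h1 hb.2) ?_
  intro h0
  have h6 := cone_inter_of_face _ h1 hb.2 h0.symm
  have h7 : {s : V | s ∈ {x : V | x ∈ L} ∧ (innerₗ V y) s = 0} = ∅ := by
    ext s
    simp only [Set.mem_ofPred_eq, Set.mem_empty_iff_false, iff_false, not_and]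
    intro hs
    show ¬ (⟪y, s⟫_ℝ = 0)
    rw [hy s hs]; norm_num
  rw [h7] at h6
  apply h.ne0 b hb.1
  simpa [cone] using h6
end fd

end Pool.Agent.CPF
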