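import Mathlib

/-!
Definitions for MP_b68fb8_co (cluster parking functions are flag).
-/

namespace Pool.Agent.CPF

open scoped InnerProductSpace NNReal

variable {V : Type*} [NormedAddCommGroup V] [InnerProductSpace ℝ V]

/-- `refl a` is the orthogonal reflection `t_a` of `V` in the hyperplane orthogonal to `a`. -/
noncomputable def refl (a : V) : V ≃ₗᵢ[ℝ] V := (Submodule.span ℝ {a})ᗮ.reflection

/-- The closed convex cone of all combinations of elements of `S` with coefficients `≥ 0`. -/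
noncomputable def cone (S : Set V) : Submodule ℝ≥0 V := Submodule.span ℝ≥0 S

/-- `RS Φ L`: `Φ` is a finite reduced root system in `V` (finite, without zero, meeting every line
through `0` in at most two opposite vectors, and closed under the reflections `t_a`, `a ∈ Φ`) and
the list `L` (without repetition) lists a system of simple roots of `Φ`: the elements of `L` are
roots, they are linearly independent, and every root is a combination of elements of `L` with all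
coefficients `≥ 0` or with all coefficients `≤ 0`. -/
structure RS (Φ : Set V) (L : List V) : Prop where
  fin : Φ.Finite
  ne0 : ∀ a ∈ Φ, a ≠ 0
  red : ∀ a ∈ Φ, ∀ r : ℝ, r • a ∈ Φ → r = 1 ∨ r = -1
  cl : ∀ a ∈ Φ, ∀ b ∈ Φ, refl a b ∈ Φ
  sub : ∀ a ∈ L, a ∈ Φ
  nd : L.Nodup
  li : LinearIndepOn ℝ id {x : V | x ∈ L}
  pm : ∀ b ∈ Φ, b ∈ cone {x : V | x ∈ L} ∨ -b ∈ cone {x : V | x ∈ L}

/-- The product `t_{a₁} t_{a₂} ⋯ t_{aₖ}` (composition of maps) for a list `L = [a₁, …, aₖ]`. -/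
noncomputable def cox (L : List V) : V ≃ₗᵢ[ℝ] V := (L.map refl).prod

/-- The positive roots with respect to the simple system `L`. -/
def Pos (Φ : Set V) (L : List V) : Set V := {b : V | b ∈ Φ ∧ b ∈ cone {x : V | x ∈ L}}

/-- The roots orthogonal to `v`. -/
def perp (Φ : Set V) (v : V) : Set V := {b : V | b ∈ Φ ∧ ⟪v, b⟫_ℝ = 0}

/-- `VV Φ L` is the set of the vectors `v` for which `v - c v` is a root, `c = cox L`. -/
def VV (Φ : Set V) (L : List V) : Set V := {v : V | v - cox L v ∈ Φ}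

/-- `v` is dominant with respect to `L`. -/
def Dom (L : List V) (v : V) : Prop := ∀ a ∈ L, 0 ≤ ⟪v, a⟫_ℝ

/-- The reflection group `W` generated by the reflections `t_a`, `a ∈ Φ`. -/
noncomputable def Wg (Φ : Set V) : Subgroup (V ≃ₗᵢ[ℝ] V) := Subgroup.closure (refl '' Φ)

/-- The fixed space of `g`. -/
def fixS (g : V ≃ₗᵢ[ℝ] V) : Submodule ℝ V where
  carrier := {v : V | g v = v}
  add_mem' := by
    intro a b ha hb
    simp only [Set.mem_ofPred_eq] at ha hb ⊢
    rw [map_add, ha, hb]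
  zero_mem' := by simp
  smul_mem' := by
    intro c x hx
    simp only [Set.mem_ofPred_eq] at hx ⊢
    rw [map_smul, hx]

/-- The reflection length: the least `k` such that `w` is a product of `k` reflections
`t_a`, `a ∈ Φ`. -/
noncomputable def lenT (Φ : Set V) (w : V ≃ₗᵢ[ℝ] V) : ℕ :=
  sInf {k : ℕ | ∃ l : List V, l.length = k ∧ (∀ a ∈ l, a ∈ Φ) ∧ cox l = w}

/-- The interval `NC = [e, c]` in the absolute order of `W`. -/
def NC (Φ : Set V) (c : V ≃ₗᵢ[ℝ] V) : Set (V ≃ₗᵢ[ℝ] V) :=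
  {p | p ∈ Wg Φ ∧ lenT Φ p + lenT Φ (p⁻¹ * c) = lenT Φ c}

/-- The parabolic subgroup `W_g` of all elements of `W` fixing the fixed space of `g` pointwise. -/
def Wfix (Φ : Set V) (g : V ≃ₗᵢ[ℝ] V) : Set (V ≃ₗᵢ[ℝ] V) :=
  {h | h ∈ Wg Φ ∧ ∀ v : V, g v = v → h v = v}

/-- The left coset `w X`. -/
def lcoset (w : V ≃ₗᵢ[ℝ] V) (X : Set (V ≃ₗᵢ[ℝ] V)) : Set (V ≃ₗᵢ[ℝ] V) :=
  {g | ∃ h ∈ X, g = w * h}

/-! ### The generalized cluster complex -/

/-- A bipartite simple system: `P ++ Q` lists the simple roots, `P` lists the class `Π_•` and `Q`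
lists the class `Π_∘`; the roots in each class are pairwise orthogonal. -/
structure Bip (Φ : Set V) (P Q : List V) : Prop where
  rs : RS Φ (P ++ Q)
  orthP : P.Pairwise (fun a b => ⟪a, b⟫_ℝ = 0)
  orthQ : Q.Pairwise (fun a b => ⟪a, b⟫_ℝ = 0)

/-- The coloured positive roots `Φ_+ × {1, …, m}` . -/
def CP (Φ : Set V) (L : List V) (m : ℕ) : Set (V × ℕ) :=
  {a | a.1 ∈ Pos Φ L ∧ 1 ≤ a.2 ∧ a.2 ≤ m}

/-- The coloured almost positive roots `Φ_+ × {1, …, m} ∪ {(-α)^1 : α ∈ Π}`. -/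
def CAP (Φ : Set V) (L : List V) (m : ℕ) : Set (V × ℕ) :=
  {a | a ∈ CP Φ L m ∨ (-a.1 ∈ L ∧ a.2 = 1)}

open Classical in
/-- The involution `τ` attached to the class `P` on almost positive roots: it fixes the negative
simple roots of the other class `Q` and acts by `∏_{α ∈ P} t_α` otherwise. -/
noncomputable def tau (P Q : List V) (a : V) : V := if -a ∈ Q then a else cox P a

/-- The rotation `R = τ_Q τ_P` of almost positive roots (`τ_P` is applied first). -/
noncomputable def rotR (P Q : List V) (a : V) : V := tau Q P (tau P Q a)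

open Classical in
/-- The Fomin–Reading rotation of coloured almost positive roots: `α^k ↦ α^{k+1}` for `α > 0` and
`k < m`, and `α^k ↦ (R α)^1` otherwise. -/
noncomputable def rotM (Φ : Set V) (P Q : List V) (m : ℕ) (a : V × ℕ) : V × ℕ :=
  if a.1 ∈ Pos Φ (P ++ Q) ∧ a.2 < m then (a.1, a.2 + 1) else (rotR P Q a.1, 1)

/-- One half of compatibility: whenever a power of the rotation sends `a` to a negative simple
root `(-s)^1`, the same power sends `b` to a root whose expansion in simple roots does not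
involve `s`. -/
def Comp1 (Φ : Set V) (P Q : List V) (m : ℕ) (a b : V × ℕ) : Prop :=
  ∀ r : ℕ, ∀ s ∈ P ++ Q, (rotM Φ P Q m)^[r] a = (-s, 1) →
    ((rotM Φ P Q m)^[r] b).1 ∈ Submodule.span ℝ {x : V | x ∈ P ++ Q ∧ x ≠ s}

/-- Compatibility of coloured almost positive roots. -/
def Comp (Φ : Set V) (P Q : List V) (m : ℕ) (a b : V × ℕ) : Prop :=
  Comp1 Φ P Q m a b ∧ Comp1 Φ P Q m b a

/-- The faces of the generalized cluster complex: the finite sets of pairwise compatible coloured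
almost positive roots. -/
def Face (Φ : Set V) (P Q : List V) (m : ℕ) (f : Finset (V × ℕ)) : Prop :=
  (∀ a ∈ f, a ∈ CAP Φ (P ++ Q) m) ∧ ∀ a ∈ f, ∀ b ∈ f, a ≠ b → Comp Φ P Q m a b

/-- `IsProd Φ c f p`: `p ∈ NC = [e, c]` and the face `f` can be listed as `α₁^{i₁}, …, α_k^{i_k}`
so that `p = t_{α₁} ⋯ t_{α_k}` is a reduced factorization (into `k` reflections). -/
def IsProd (Φ : Set V) (c : V ≃ₗᵢ[ℝ] V) (f : Finset (V × ℕ)) (p : V ≃ₗᵢ[ℝ] V) : Prop :=
  p ∈ NC Φ c ∧ ∃ l : List (V × ℕ), l.Nodup ∧ (∀ a, a ∈ l ↔ a ∈ f) ∧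
    cox (l.map Prod.fst) = p ∧ lenT Φ p = l.length

/-- The poset of `m`-cluster parking functions, as a set of pairs (coset, face).  Here
`c = c_• c_∘ = cox P * cox Q`, and the faces are those of the cluster complex defined by the rotation
`τ_{Q'} τ_{P'}`, where `(P', Q')` will be `(P, Q)` or `(Q, P)` (both possible conventions). -/
def CPF (Φ : Set V) (P Q P' Q' : List V) (m : ℕ) :
    Set (Set (V ≃ₗᵢ[ℝ] V) × Finset (V × ℕ)) :=
  {z | Face Φ P' Q' m z.2 ∧ ∃ p, IsProd Φ (cox P * cox Q) z.2 p ∧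
    ∃ w ∈ Wg Φ, z.1 = lcoset w (Wfix Φ (cox P * p * cox Q))}

/-- The subposet of the pairs whose face consists of coloured positive roots. -/
def CPFpos (Φ : Set V) (P Q P' Q' : List V) (m : ℕ) :
    Set (Set (V ≃ₗᵢ[ℝ] V) × Finset (V × ℕ)) :=
  {z | z ∈ CPF Φ P Q P' Q' m ∧ ∀ a ∈ z.2, a ∈ CP Φ (P ++ Q) m}

/-- The order: `(C', f') ≤ (C, f)` iff `f' ⊆ f` and `C' ⊇ C`. -/
def leE (x z : Set (V ≃ₗᵢ[ℝ] V) × Finset (V × ℕ)) : Prop := x.2 ⊆ z.2 ∧ z.1 ⊆ x.1

/-- The vertices of `X`: the elements of rank one. -/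
def vertsE (X : Set (Set (V ≃ₗᵢ[ℝ] V) × Finset (V × ℕ))) :
    Set (Set (V ≃ₗᵢ[ℝ] V) × Finset (V × ℕ)) := {x | x ∈ X ∧ x.2.card = 1}

/-- A set `S` of vertices is a face of the simplicial complex with face poset `X` if it is the set
of all vertices below some element of `X`. -/
def IsFaceE (X : Set (Set (V ≃ₗᵢ[ℝ] V) × Finset (V × ℕ)))
    (S : Set (Set (V ≃ₗᵢ[ℝ] V) × Finset (V × ℕ))) : Prop :=
  ∃ z ∈ X, {x | x ∈ vertsE X ∧ leE x z} = S

/-- Flagness of the simplicial complex with face poset `X`: every set of vertices that are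
pairwise joined by edges is a face. -/
def FlagE (X : Set (Set (V ≃ₗᵢ[ℝ] V) × Finset (V × ℕ))) : Prop :=
  ∀ S : Set (Set (V ≃ₗᵢ[ℝ] V) × Finset (V × ℕ)), S ⊆ vertsE X →
    (∀ x ∈ S, ∀ y ∈ S, x ≠ y → IsFaceE X {x, y}) → IsFaceE X S

/-- The set `PF` of all cosets `w W_p` with `w ∈ W`, `p ∈ NC = [e, c]`. -/
def PF (Φ : Set V) (c : V ≃ₗᵢ[ℝ] V) : Set (Set (V ≃ₗᵢ[ℝ] V)) :=
  {C | ∃ w ∈ Wg Φ, ∃ p ∈ NC Φ c, C = lcoset w (Wfix Φ p)}

end Pool.Agent.CPF
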