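import Pool.Agent.CPF.Basic

/-!
Module NCList for MP_b68fb8_co: products of reflections in a list with `B(earlier, later) = 0` are
reduced factorizations of elements of `NC`.
-/

namespace Pool.Agent.CPF

open scoped InnerProductSpace NNReal

section
variable {V : Type*} [NormedAddCommGroup V] [InnerProductSpace ℝ V] [FiniteDimensional ℝ V]

omit [FiniteDimensional ℝ V] in
/-- the fixed space of a product of independent reflections is the orthogonal complement -/
theorem NCList_fix (hF : Stmt_FixIndep V) {l : List V} (hnd : l.Nodup)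
    (hli : LinearIndepOn ℝ id {x : V | x ∈ l}) :
    fixS (cox l) = (Submodule.span ℝ {x : V | x ∈ l})ᗮ := by
  ext v
  rw [Submodule.mem_orthogonal']
  change cox l v = v ↔ _
  rw [hF l hnd hli v]
  constructor
  · intro h u hu
    induction hu using Submodule.span_induction with
    | mem x hx => exact h x hx
    | zero => simp
    | add x y _ _ hx hy => rw [inner_add_right, hx, hy, add_zero]
    | smul r x _ hx => rw [inner_smul_right, hx, mul_zero]
  · intro h a ha
    exact h a (Submodule.subset_span ha)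

theorem NCList_finrank (hC : Stmt_Carter V) (hR : Stmt_Reduced V) (hF : Stmt_FixIndep V)
    {Φ : Set V} {L : List V} (h : RS Φ L) {l : List V} (hl : ∀ a ∈ l, a ∈ Φ) (hnd : l.Nodup)
    (hli : LinearIndepOn ℝ id {x : V | x ∈ l}) :
    Module.finrank ℝ (Submodule.span ℝ {x : V | x ∈ l}) = l.length := by
  have h1 := hC Φ L h (cox l) (cox_mem_Wg hl)
  have h2 := (hR Φ L h l hl).2 ⟨hnd, hli⟩
  rw [h2, NCList_fix hF hnd hli] at h1
  have h3 := Submodule.finrank_add_finrank_orthogonal (Submodule.span ℝ {x : V | x ∈ l})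
  omega

/-- subadditivity of the reflection length -/
theorem NCList_subadd (hC : Stmt_Carter V) {Φ : Set V} {L : List V} (h : RS Φ L)
    {p q : V ≃ₗᵢ[ℝ] V} (hp : p ∈ Wg Φ) (hq : q ∈ Wg Φ) :
    lenT Φ (p * q) ≤ lenT Φ p + lenT Φ q := by
  have h1 := hC Φ L h p hp
  have h2 := hC Φ L h q hq
  have h3 := hC Φ L h (p * q) ((Wg Φ).mul_mem hp hq)
  have h4 : fixS p ⊓ fixS q ≤ fixS (p * q) := by
    intro v hv
    obtain ⟨hv1, hv2⟩ := Submodule.mem_inf.1 hv
    have hv1' : p v = v := hv1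
    have hv2' : q v = v := hv2
    change (p * q) v = v
    rw [mulE_apply, hv2', hv1']
  have h5 := Submodule.finrank_mono h4
  have h6 := Submodule.finrank_sup_add_finrank_inf_eq (fixS p) (fixS q)
  have h7 := Submodule.finrank_le (fixS p ⊔ fixS q)
  omega

theorem cNCList (hC : Stmt_Carter V) (hR : Stmt_Reduced V) (hBI : Stmt_BfIndep V)
    (hBP : Stmt_BfProd V) (hX : Stmt_Xv V) (hF : Stmt_FixIndep V) : Stmt_NCList V := by
  intro Φ L h l hl hpw
  obtain ⟨hnd, hli⟩ := hBI Φ L h l hl hpw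
  have hlen := (hR Φ L h l hl).2 ⟨hnd, hli⟩
  have hlenL := (hR Φ L h L h.sub).2 ⟨h.nd, h.li⟩
  have hpW : cox l ∈ Wg Φ := cox_mem_Wg hl
  have hcW : cox L ∈ Wg Φ := cox_mem_Wg h.sub
  have hkW : (cox l)⁻¹ * cox L ∈ Wg Φ := (Wg Φ).mul_mem ((Wg Φ).inv_mem hpW) hcW
  refine ⟨⟨hpW, ?_⟩, hlen⟩
  have hsub : lenT Φ (cox L) ≤ lenT Φ (cox l) + lenT Φ ((cox l)⁻¹ * cox L) := by
    have := NCList_subadd hC h hpW hkW
    rwa [mul_inv_cancel_left] at this
  obtain ⟨hX1, -, -, -⟩ := hX L h.nd h.li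
  set S : Submodule ℝ V := Submodule.span ℝ {x : V | x ∈ L} with hS
  set U : Submodule ℝ V := Submodule.span ℝ {x : V | x ∈ l} with hU
  set T : Submodule ℝ V := Submodule.span ℝ (xv L '' {x : V | x ∈ l}) with hT
  have hTS : T ≤ S := by
    rw [hT, Submodule.span_le]
    rintro _ ⟨a, ha, rfl⟩
    exact (hX1 a (h.mem_span (hl a ha))).1
  have hUT : U ≤ T.map (LinearMap.id - (cox L).toLinearEquiv.toLinearMap) := by
    rw [hU, Submodule.span_le]
    intro a ha
    refine ⟨xv L a, Submodule.subset_span ⟨a, ha, rfl⟩, ?_⟩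
    have := (hX1 a (h.mem_span (hl a ha))).2
    simpa using this
  have hfU : l.length ≤ Module.finrank ℝ T := by
    have h1 := Submodule.finrank_mono hUT
    have h2 := Submodule.finrank_map_le (LinearMap.id - (cox L).toLinearEquiv.toLinearMap) T
    have h3 := NCList_finrank hC hR hF h hl hnd hli
    rw [hU] at h1
    omega
  have hfS : Module.finrank ℝ S = L.length := NCList_finrank hC hR hF h h.sub h.nd h.li
  have hTk : T ≤ fixS ((cox l)⁻¹ * cox L) := by
    rw [hT, Submodule.span_le]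
    rintro _ ⟨a, ha, rfl⟩
    change ((cox l)⁻¹ * cox L) (xv L a) = xv L a
    rw [mulE_apply, ← hBP Φ L h l hl hpw a ha, invE_apply_self]
  have hSk : Sᗮ ≤ fixS ((cox l)⁻¹ * cox L) := by
    intro v hv
    have hv' : ∀ b ∈ Φ, ⟪v, b⟫_ℝ = 0 := fun b hb =>
      (Submodule.mem_orthogonal' S v).1 hv b (h.mem_span hb)
    exact Wg_fix_orth hkW hv'
  have hTSk : T ⊔ Sᗮ ≤ fixS ((cox l)⁻¹ * cox L) := sup_le hTk hSk
  have hdisj : T ⊓ Sᗮ = ⊥ := by
    rw [eq_bot_iff]
    refine le_trans (inf_le_inf_right _ hTS) ?_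
    rw [Submodule.inf_orthogonal_eq_bot]
  have h1 := Submodule.finrank_mono hTSk
  have h2 := Submodule.finrank_sup_add_finrank_inf_eq T Sᗮ
  rw [hdisj, finrank_bot] at h2
  have h3 := Submodule.finrank_add_finrank_orthogonal S
  have h4 := hC Φ L h _ hkW
  omega

end

end Pool.Agent.CPF
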