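import Pool.Agent.CPF.Defs

/-!
Frozen statements of the modules for MP_b68fb8_co (see /team-store/CPF_proof.md).
Conventions: `c = cox L`, `t_a = refl a`, `Phi_v = perp Φ v`, `S^+ = posP S L`.
-/

namespace Pool.Agent.CPF

open scoped InnerProductSpace NNReal

/-- The part of a set `S` of roots that is positive with respect to `L`. -/
def posP {V : Type*} [NormedAddCommGroup V] [InnerProductSpace ℝ V] (S : Set V) (L : List V) :
    Set V := {b : V | b ∈ S ∧ b ∈ cone {x : V | x ∈ L}}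

section
variable (V : Type*) [NormedAddCommGroup V] [InnerProductSpace ℝ V] [FiniteDimensional ℝ V]

/-! ### Part A: rotation -/

/-- FIX: a vector all of whose images under powers of `c⁻¹` are in the cone is zero. -/
def Stmt_Fix : Prop := ∀ (Φ : Set V) (L : List V), RS Φ L →
  ∀ x : V, (∀ k : ℕ, ((cox L)⁻¹ ^ k) x ∈ cone {y : V | y ∈ L}) → x = 0

/-- Rotation induction on pairs (list, vector): `(a :: L₁, x) ↦ (L₁ ++ [a], t_a x)`. -/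
def Stmt_RotInd : Prop := ∀ (Φ : Set V) (L : List V), RS Φ L → ∀ Q : List V → V → Prop,
  (∀ (L' : List V) (x : V), RS Φ L' → L'.length = L.length → x ∉ cone {y : V | y ∈ L'} → Q L' x) →
  (∀ (a : V) (L₁ : List V) (x : V), RS Φ (a :: L₁) → (a :: L₁).length = L.length →
    x ∈ cone {y : V | y ∈ a :: L₁} → Q (L₁ ++ [a]) (refl a x) → Q (a :: L₁) x) →
  ∀ x : V, x ≠ 0 → Q L x

/-- Rotation induction for positive roots: base case when the root is the head of the list. -/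
def Stmt_RotRoot : Prop := ∀ (Φ : Set V) (L : List V), RS Φ L → ∀ Q : List V → V → Prop,
  (∀ (a : V) (L₁ : List V), RS Φ (a :: L₁) → (a :: L₁).length = L.length → Q (a :: L₁) a) →
  (∀ (a : V) (L₁ : List V) (x : V), RS Φ (a :: L₁) → (a :: L₁).length = L.length →
    x ∈ Pos Φ (a :: L₁) → x ≠ a → Q (L₁ ++ [a]) (refl a x) → Q (a :: L₁) x) →
  ∀ x : V, x ∈ Pos Φ L → Q L x

/-- T-lemma: for `v ∈ VV Φ L` the roots orthogonal to `v` have a simple system consisting of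
`|L| - 1` positive roots. -/
def Stmt_T : Prop := ∀ (Φ : Set V) (L : List V) (v : V), RS Φ L → v ∈ VV Φ L →
  ∃ D : List V, RS (perp Φ v) D ∧ D.length + 1 = L.length ∧ ∀ d ∈ D, d ∈ cone {x : V | x ∈ L}

/-- Rank reduction. -/
def Stmt_Rank : Prop := ∀ (Φ : Set V) (a : V) (L₁ : List V), RS Φ (a :: L₁) →
  RS {b : V | b ∈ Φ ∧ b ∈ Submodule.span ℝ {x : V | x ∈ L₁}} L₁ ∧
  ∀ v ∈ VV Φ (a :: L₁), ⟪v, a⟫_ℝ = 0 →
    v ∈ VV {b : V | b ∈ Φ ∧ b ∈ Submodule.span ℝ {x : V | x ∈ L₁}} L₁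

/-- Claim Y. -/
def Stmt_Y : Prop := ∀ (Φ : Set V) (a : V) (L₁ : List V) (v : V), RS Φ (a :: L₁) →
  v ∈ VV Φ (a :: L₁) → ⟪v, a⟫_ℝ = 0 →
  ∀ b ∈ posP (perp Φ v) (a :: L₁), b ∈ cone (insert a (posP (perp Φ v) L₁))

/-- Lemma X: intersections of the cones of `Phi_v^+`. -/
def Stmt_X : Prop := ∀ (Φ : Set V) (L : List V) (Γ : Set V) (d : V), RS Φ L → Γ.Nonempty →
  Γ ⊆ VV Φ L → (∀ v ∈ Γ, d ∈ cone (posP (perp Φ v) L)) →
  d ∈ cone (posP {b : V | b ∈ Φ ∧ ∀ v ∈ Γ, ⟪v, b⟫_ℝ = 0} L)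

/-! ### Part W: Weyl group facts -/

/-- `W` is finite. -/
def Stmt_WFin : Prop := ∀ (Φ : Set V), Φ.Finite → (∀ a ∈ Φ, ∀ b ∈ Φ, refl a b ∈ Φ) →
  (Wg Φ : Set (V ≃ₗᵢ[ℝ] V)).Finite

/-- `W` is generated by the simple reflections. -/
def Stmt_Gen : Prop := ∀ (Φ : Set V) (L : List V), RS Φ L →
  Wg Φ = Subgroup.closure (refl '' {x : V | x ∈ L})

/-- Every vector is conjugate to a dominant vector above it. -/
def Stmt_WDom : Prop := ∀ (Φ : Set V) (L : List V), RS Φ L → ∀ x : V,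
  ∃ w ∈ Wg Φ, Dom L (w x) ∧ w x - x ∈ cone {y : V | y ∈ L}

/-- Conjugate dominant vectors are equal, and the element is in the standard parabolic. -/
def Stmt_WK : Prop := ∀ (Φ : Set V) (L : List V), RS Φ L → ∀ x y : V, Dom L x → Dom L y →
  ∀ w ∈ Wg Φ, w x = y →
  x = y ∧ w ∈ Subgroup.closure (refl '' {b : V | b ∈ L ∧ ⟪x, b⟫_ℝ = 0})

/-- H0. -/
def Stmt_H0 : Prop := ∀ (Φ : Set V) (L : List V), RS Φ L → ∀ x : V, Dom L x →
  ∀ w ∈ Wg Φ, x - w x ∈ cone {y : V | y ∈ L}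

/-- The stabilizer of a vector is generated by the reflections fixing it. -/
def Stmt_Stab : Prop := ∀ (Φ : Set V) (L : List V), RS Φ L → ∀ x : V, ∀ w ∈ Wg Φ, w x = x →
  w ∈ Wg (perp Φ x)

/-! ### Part H: the Helly property -/

/-- Orbit lemma for a dominant vector. -/
def Stmt_OrbDom : Prop := ∀ (Φ : Set V) (L : List V), RS Φ L → ∀ v : V, Dom L v →
  ∀ Γ : Set V, Γ.Nonempty → Γ ⊆ VV Φ L → ∀ z : V,
  (∀ u ∈ Γ, ∃ w ∈ Wg Φ, w u = u ∧ w v = z) → ∃ w ∈ Wg Φ, (∀ u ∈ Γ, w u = u) ∧ w v = z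

/-- Orbit lemma. -/
def Stmt_Orb : Prop := ∀ (Φ : Set V) (L : List V), RS Φ L → ∀ v ∈ VV Φ L,
  ∀ Γ : Set V, Γ ⊆ VV Φ L → ∀ z : V, (∃ w ∈ Wg Φ, w v = z) →
  (∀ u ∈ Γ, ∃ w ∈ Wg Φ, w u = u ∧ w v = z) → ∃ w ∈ Wg Φ, (∀ u ∈ Γ, w u = u) ∧ w v = z

/-- The Helly property for the vectors of `VV Φ L`. -/
def Stmt_Helly : Prop := ∀ (Φ : Set V) (L : List V), RS Φ L → ∀ A : Set (V × V), A.Finite →
  (∀ p ∈ A, p.1 ∈ VV Φ L) →
  (∀ p ∈ A, ∀ q ∈ A, ∃ w ∈ Wg Φ, w p.1 = p.2 ∧ w q.1 = q.2) →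
  ∃ w ∈ Wg Φ, ∀ p ∈ A, w p.1 = p.2

end

/-! ### Part B: the bilinear form `B(a,b) = ⟨(1-c)⁻¹ a, b⟩` -/

open Classical in
/-- The vector `x` of the span of `L` with `x - c x = a`, where `c = cox L` (and `0` if there is
none). -/
noncomputable def xv {V : Type*} [NormedAddCommGroup V] [InnerProductSpace ℝ V] (L : List V)
    (a : V) : V :=
  if h : ∃ x ∈ Submodule.span ℝ {y : V | y ∈ L}, x - cox L x = a then h.choose else 0

/-- `B(a,b) = ⟨(1-c)⁻¹ a, b⟩`. -/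
noncomputable def Bf {V : Type*} [NormedAddCommGroup V] [InnerProductSpace ℝ V] (L : List V)
    (a b : V) : ℝ := ⟪xv L a, b⟫_ℝ

section
variable (V : Type*) [NormedAddCommGroup V] [InnerProductSpace ℝ V] [FiniteDimensional ℝ V]

/-- For a list without repetition of linearly independent vectors, the fixed space of the product
of the reflections is the orthogonal complement of the list. -/
def Stmt_FixIndep : Prop := ∀ l : List V, l.Nodup → LinearIndepOn ℝ id {x : V | x ∈ l} →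
  (∀ v : V, cox l v = v ↔ ∀ a ∈ l, ⟪v, a⟫_ℝ = 0)

/-- Existence, uniqueness and linearity of `xv`. -/
def Stmt_Xv : Prop := ∀ L : List V, L.Nodup → LinearIndepOn ℝ id {x : V | x ∈ L} →
  (∀ a ∈ Submodule.span ℝ {y : V | y ∈ L},
    xv L a ∈ Submodule.span ℝ {y : V | y ∈ L} ∧ xv L a - cox L (xv L a) = a) ∧
  (∀ x ∈ Submodule.span ℝ {y : V | y ∈ L}, xv L (x - cox L x) = x) ∧
  (∀ a ∈ Submodule.span ℝ {y : V | y ∈ L}, ∀ b ∈ Submodule.span ℝ {y : V | y ∈ L},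
    xv L (a + b) = xv L a + xv L b) ∧
  (∀ (r : ℝ), ∀ a ∈ Submodule.span ℝ {y : V | y ∈ L}, xv L (r • a) = r • xv L a)

/-- The identities for `B`. -/
def Stmt_Bf : Prop := ∀ L : List V, L.Nodup → LinearIndepOn ℝ id {x : V | x ∈ L} →
  (∀ a ∈ Submodule.span ℝ {y : V | y ∈ L}, ∀ b ∈ Submodule.span ℝ {y : V | y ∈ L},
    Bf L a b + Bf L b a = ⟪a, b⟫_ℝ ∧ Bf L (cox L a) (cox L b) = Bf L a b ∧
    Bf L a ((cox L)⁻¹ b) = - Bf L b a)

/-- The form `B` and simple roots, in the bipartite case. -/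
def Stmt_BfSimple : Prop := ∀ (Φ : Set V) (P Q : List V), Bip Φ P Q →
  (∀ s ∈ P, ∀ b ∈ Submodule.span ℝ {x : V | x ∈ P ++ Q ∧ x ≠ s}, Bf (P ++ Q) s b = 0) ∧
  (∀ s ∈ Q, ∀ b ∈ Submodule.span ℝ {x : V | x ∈ P ++ Q ∧ x ≠ s}, Bf (P ++ Q) b s = 0)

/-- The form `B` for the opposite Coxeter element. -/
def Stmt_BfSwap : Prop := ∀ (Φ : Set V) (P Q : List V), Bip Φ P Q →
  ∀ a ∈ Submodule.span ℝ {y : V | y ∈ P ++ Q}, ∀ b ∈ Submodule.span ℝ {y : V | y ∈ P ++ Q},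
    Bf (Q ++ P) a b = Bf (P ++ Q) b a

/-- Roots in a list with `B(earlier, later) = 0` are distinct and linearly independent. -/
def Stmt_BfIndep : Prop := ∀ (Φ : Set V) (L : List V), RS Φ L → ∀ l : List V, (∀ a ∈ l, a ∈ Φ) →
  l.Pairwise (fun a b => Bf L a b = 0) → l.Nodup ∧ LinearIndepOn ℝ id {x : V | x ∈ l}

/-- In a list with `B(earlier, later) = 0` the product of the reflections acts like `c` on the
vectors `xv L a`. -/
def Stmt_BfProd : Prop := ∀ (Φ : Set V) (L : List V), RS Φ L → ∀ l : List V, (∀ a ∈ l, a ∈ Φ) →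
  l.Pairwise (fun a b => Bf L a b = 0) → ∀ a ∈ l, cox l (xv L a) = cox L (xv L a)

/-! ### Part C: Carter's lemma and NC -/

/-- The elements of `W` fixing a subspace pointwise, if not all trivial, force a root orthogonal
to the subspace. -/
def Stmt_FixRoot : Prop := ∀ (Φ : Set V) (L : List V), RS Φ L → ∀ w ∈ Wg Φ, w ≠ 1 →
  ∃ a ∈ Φ, ∀ v : V, w v = v → ⟪v, a⟫_ℝ = 0

/-- Carter's lemma: the reflection length is the codimension of the fixed space. -/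
def Stmt_Carter : Prop := ∀ (Φ : Set V) (L : List V), RS Φ L → ∀ w ∈ Wg Φ,
  lenT Φ w + Module.finrank ℝ (fixS w) = Module.finrank ℝ V

/-- Reduced factorizations: linear independence and fixed space. -/
def Stmt_Reduced : Prop := ∀ (Φ : Set V) (L : List V), RS Φ L → ∀ l : List V, (∀ a ∈ l, a ∈ Φ) →
  (lenT Φ (cox l) = l.length ↔ (l.Nodup ∧ LinearIndepOn ℝ id {x : V | x ∈ l}))

/-- Every product of reflections in a list with `B(earlier, later) = 0` is a reduced factorization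
of an element of `NC`. -/
def Stmt_NCList : Prop := ∀ (Φ : Set V) (L : List V), RS Φ L → ∀ l : List V, (∀ a ∈ l, a ∈ Φ) →
  l.Pairwise (fun a b => Bf L a b = 0) → cox l ∈ NC Φ (cox L) ∧ lenT Φ (cox l) = l.length

/-- An element of `NC` is determined by its fixed space. -/
def Stmt_NCUniq : Prop := ∀ (Φ : Set V) (L : List V), RS Φ L → ∀ p ∈ NC Φ (cox L),
  ∀ q ∈ NC Φ (cox L), fixS p = fixS q → p = q

/-- For `p ∈ NC` the subgroup `W_p` is an intersection of stabilizers of vectors of `VV Φ L`. -/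
def Stmt_NCStab : Prop := ∀ (Φ : Set V) (L : List V), RS Φ L → ∀ p ∈ NC Φ (cox L),
  ∃ U : Set V, U.Finite ∧ U ⊆ VV Φ L ∧ ∀ w ∈ Wg Φ, (w ∈ Wfix Φ p ↔ ∀ u ∈ U, w u = u)

/-- The Helly property for all cosets in `PF`. -/
def Stmt_HellyPF : Prop := ∀ (Φ : Set V) (L : List V), RS Φ L →
  ∀ A : Set (Set (V ≃ₗᵢ[ℝ] V)), A ⊆ PF Φ (cox L) → (∀ C ∈ A, ∀ D ∈ A, (C ∩ D).Nonempty) →
  ∃ w ∈ Wg Φ, ∀ C ∈ A, w ∈ C

/-! ### Part L: the listing theorem -/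

/-- Facts on the rotation of coloured almost positive roots. -/
def Stmt_RotM : Prop := ∀ (Φ : Set V) (P Q : List V) (m : ℕ), Bip Φ P Q → 1 ≤ m →
  (∀ a ∈ CAP Φ (P ++ Q) m, rotM Φ P Q m a ∈ CAP Φ (P ++ Q) m) ∧
  (∀ a ∈ CP Φ (P ++ Q) m, a.2 < m → rotM Φ P Q m a = (a.1, a.2 + 1)) ∧
  (∀ a ∈ CP Φ (P ++ Q) m, a.2 = m → a.1 ∈ P → rotM Φ P Q m a = (-a.1, 1)) ∧
  (∀ a ∈ CP Φ (P ++ Q) m, a.2 = m → a.1 ∉ P →
    rotM Φ P Q m a = ((cox (P ++ Q))⁻¹ a.1, 1) ∧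
    ((cox (P ++ Q))⁻¹ a.1 ∈ Pos Φ (P ++ Q) ∨ -((cox (P ++ Q))⁻¹ a.1) ∈ Q))

/-- The rotation eventually leads to a negative simple root. -/
def Stmt_RotHit : Prop := ∀ (Φ : Set V) (P Q : List V) (m : ℕ), Bip Φ P Q → 1 ≤ m →
  ∀ a ∈ CAP Φ (P ++ Q) m, ∃ r : ℕ, -((rotM Φ P Q m)^[r] a).1 ∈ P ++ Q

/-- The listing theorem. -/
def Stmt_Listing : Prop := ∀ (Φ : Set V) (P Q : List V) (m : ℕ), Bip Φ P Q → 1 ≤ m →
  ∀ l : List (V × ℕ), (∀ a ∈ l, a ∈ CAP Φ (P ++ Q) m) → l.Pairwise (Comp Φ P Q m) →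
  ∃ l' : List (V × ℕ), l'.Perm l ∧ l'.Pairwise (fun a b => Bf (P ++ Q) a.1 b.1 = 0)

/-- Both conventions for the rotation. -/
def Stmt_Listing2 : Prop := ∀ (Φ : Set V) (P Q P' Q' : List V) (m : ℕ), Bip Φ P Q → 1 ≤ m →
  ((P' = P ∧ Q' = Q) ∨ (P' = Q ∧ Q' = P)) →
  ∀ f : Finset (V × ℕ), Face Φ P' Q' m f →
  ∃ l : List (V × ℕ), l.Nodup ∧ (∀ a, a ∈ l ↔ a ∈ f) ∧
    l.Pairwise (fun a b => Bf (P ++ Q) a.1 b.1 = 0)

/-! ### Part E: the end -/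

/-- The group `W_p` for `p = c_• t_a c_∘`. -/
def Stmt_Single : Prop := ∀ (Φ : Set V) (P Q : List V), Bip Φ P Q → ∀ a ∈ Φ,
  cox Q (xv (P ++ Q) a) ∈ VV Φ (P ++ Q) ∧
  ∀ h : V ≃ₗᵢ[ℝ] V, (h ∈ Wfix Φ (cox P * refl a * cox Q) ↔
    h ∈ Wg Φ ∧ h (cox Q (xv (P ++ Q) a)) = cox Q (xv (P ++ Q) a))

/-- Every face has exactly one product. -/
def Stmt_ProdUniq : Prop := ∀ (Φ : Set V) (P Q P' Q' : List V) (m : ℕ), Bip Φ P Q → 1 ≤ m →
  ((P' = P ∧ Q' = Q) ∨ (P' = Q ∧ Q' = P)) →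
  ∀ f : Finset (V × ℕ), Face Φ P' Q' m f → ∃! p, IsProd Φ (cox P * cox Q) f p

/-- Flagness of both complexes. -/
def Stmt_Flag : Prop := ∀ (Φ : Set V) (P Q P' Q' : List V) (m : ℕ), Bip Φ P Q → 1 ≤ m →
  ((P' = P ∧ Q' = Q) ∨ (P' = Q ∧ Q' = P)) →
  FlagE (CPF Φ P Q P' Q' m) ∧ FlagE (CPFpos Φ P Q P' Q' m)

end

end Pool.Agent.CPF
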